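import Pool.Agent.Lib.MP_1ae3da_al.B.Df
import Pool.Agent.Lib.MP_1ae3da_al.E.Un

/-! The bar invariant basis is multiplicative to the second order. -/

namespace Pool.Agent.Lib.MP_1ae3da_al.CT.Z

variable {F A N : Type} [Field F] [CharZero F] [Ring A] [Algebra F A] [Group N]
  {p c : ℕ} {Λ : AddSubgroup A} {T : Subgroup N} {b : N → A} {s x : N}

omit [CharZero F] in
theorem ap_gen (h : Ltt F p Λ) (hm : ∀ x, b x ∈ Λ) (he : ∀ t ∈ T, Exa b t) (S : Set N)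
    (gen : ∀ Q : N → Prop, (∀ t ∈ T, Q t) → (∀ s ∈ S, ∀ x, Q x → Q (s * x)) → ∀ x, Q x)
    (st : ∀ s ∈ S, ∀ x, b s * b x - b (s * x) ∈ Lk F p c Λ) (x y : N) :
    b x * b y - b (x * y) ∈ Lk F p c Λ := by
  refine gen (fun x => ∀ y, b x * b y - b (x * y) ∈ Lk F p c Λ) (fun t ht y => ?_)
    (fun s hs x ih y => ?_) x y
  · rw [(he t ht y).1, sub_self]
    exact zero_mem _
  · have := add_mem (sub_mem (h.mul_left (hm s) (ih y)) (h.mul_right (st s hs x) (hm y)))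
      (st s hs (x * y))
    convert this using 1
    simp only [mul_sub, sub_mul, mul_assoc]
    abel

theorem bar_add (b : N → A) (x : N) : bar F b x + dlt F b x = b x := by
  rw [bar, dlt, Nat.cast_ofNat]
  module

theorem bBr_map (γ : RingAut A) (a : A) : γ (Ring.inverse a) = Ring.inverse (γ a) := by
  by_cases h : IsUnit a
  · obtain ⟨u, rfl⟩ := h
    rw [Ring.inverse_unit]
    exact (Ring.inverse_unit (Units.map (γ : A →* A) u)).symm
  · rw [Ring.inverse_non_unit _ h, Ring.inverse_non_unit _ (by rwa [MulEquiv.isUnit_map]), map_zero]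

omit [CharZero F] in
theorem bar_map {σ : RingAut F} {γ : RingAut A} (hγ : SL F σ γ) {δ : N ≃* N}
    (h : ∀ x, γ (b x) = b (δ x)) (x : N) :
    γ (bar F b x) = bar F b (δ x) ∧ γ (dlt F b x) = dlt F b (δ x) := by
  rw [bar, dlt, bar, dlt, hγ, hγ, map_add, map_sub, bBr_map, h, h, map_inv, map_inv₀, map_natCast]
  exact ⟨rfl, rfl⟩

theorem bBr_inv (h : Bs F p Λ T b) (x : N) : b x * Ring.inverse (b x) = 1 ∧
    Ring.inverse (b x) * b x = 1 ∧ Ring.inverse (b x) ∈ Λ := by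
  obtain ⟨v, hv, m⟩ := h.unit x
  rw [← hv, Ring.inverse_unit]
  exact ⟨v.mul_inv, v.inv_mul, m⟩

theorem bBr_eq (h : Bs F p Λ T b) {z : A} (e : b x * z = 1) : Ring.inverse (b x) = z :=
  left_inv_eq_right_inv (bBr_inv h x).2.1 e

theorem bBr_mul (h : Bs F p Λ T b) (e : b x⁻¹ * b s⁻¹ = b (s * x)⁻¹) :
    Ring.inverse (b (s * x)⁻¹) = Ring.inverse (b s⁻¹) * Ring.inverse (b x⁻¹) :=
  bBr_eq h (by
    rw [← e, mul_assoc, ← mul_assoc (b s⁻¹), (bBr_inv h _).1, one_mul, (bBr_inv h _).1])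

theorem bBr_T (h : Bs F p Λ T b) {t : N} (ht : t ∈ T) : Ring.inverse (b t⁻¹) = b t :=
  bBr_eq h (by rw [← (h.ap.ex t ht _).2, inv_mul_cancel, h.one])

theorem bBr_Tl (h : Bs F p Λ T b) {t : N} (ht : t ∈ T) (x : N) :
    Ring.inverse (b (t * x)⁻¹) = b t * Ring.inverse (b x⁻¹) := by
  rw [bBr_mul h (by rw [← (h.ap.ex _ (inv_mem ht) _).2, mul_inv_rev]), bBr_T h ht]

theorem bBr_Tr (h : Bs F p Λ T b) {t : N} (ht : t ∈ T) (x : N) :
    Ring.inverse (b (x * t)⁻¹) = Ring.inverse (b x⁻¹) * b t := by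
  rw [bBr_mul h (by rw [← (h.ap.ex _ (inv_mem ht) _).1, mul_inv_rev]), bBr_T h ht]

theorem bBr_sq (h : Bs F p Λ T b) (hs : s * s ∈ T) : b s * Ring.inverse (b s⁻¹) = b (s * s) ∧
    Ring.inverse (b s⁻¹) * b s = b (s * s) := by
  have e1 := (h.ap.ex _ hs s⁻¹).1
  have e2 := (h.ap.ex _ hs s⁻¹).2
  rw [mul_inv_cancel_right] at e1
  rw [inv_mul_cancel_left] at e2
  constructor
  · conv_lhs => enter [1]; rw [e1]
    rw [mul_assoc, (bBr_inv h _).1, mul_one]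
  · conv_lhs => enter [2]; rw [e2]
    rw [← mul_assoc, (bBr_inv h _).2.1, one_mul]

theorem Bs.bar_T (h : Bs F p Λ T b) {t : N} (ht : t ∈ T) :
    bar F b t = b t ∧ dlt F b t = 0 ∧ Exa (bar F b) t := by
  have e : bar F b t = b t := by
    rw [bar, bBr_T h ht, Nat.cast_ofNat]
    module
  refine ⟨e, by rw [dlt, bBr_T h ht, sub_self, smul_zero], fun x => ⟨?_, ?_⟩⟩
  · rw [e, bar, bar, bBr_Tl h ht, (h.ap.ex t ht x).1, mul_smul_comm, mul_add]
  · rw [e, bar, bar, bBr_Tr h ht, (h.ap.ex t ht x).2, smul_mul_assoc, add_mul]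

theorem Bs.dlt_mem (h : Bs F p Λ T b) (h2 : ¬ p ∣ 2)
    (hc : ∀ x y, b x * b y - b (x * y) ∈ Lk F p c Λ) (x : N) :
    dlt F b x ∈ Lk F p c Λ ∧ bar F b x ∈ Λ := by
  obtain ⟨i1, -, i3⟩ := bBr_inv h x⁻¹
  refine ⟨h.lt.inv_Lk h2 ?_, h.lt.inv 2 h2 _ (add_mem (h.ap.mem x) i3)⟩
  have := h.lt.mul_right (hc x x⁻¹) i3
  rwa [mul_inv_cancel, h.one, sub_mul, mul_assoc, i1, mul_one, one_mul] at this

theorem Bs.asc (h : Bs F p Λ T b) (a : Asc b s x) :
    bar F b s * bar F b x - bar F b (s * x) = -(dlt F b s * dlt F b x) ∧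
      dlt F b (s * x) = bar F b s * dlt F b x + dlt F b s * bar F b x := by
  simp only [bar, dlt, bBr_mul h a.2, ← a.1, Nat.cast_ofNat, smul_mul_assoc, mul_smul_comm,
    mul_add, add_mul, mul_sub, sub_mul]
  constructor <;> module

theorem Bs.dsc (h : Bs F p Λ T b) (hs : s * s ∈ T) (a : Asc b s (s⁻¹ * x)) :
    bar F b s * bar F b x - bar F b (s * x) = dlt F b s * dlt F b x := by
  obtain ⟨y, rfl⟩ : ∃ y, x = s * y := ⟨s⁻¹ * x, (mul_inv_cancel_left _ _).symm⟩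
  rw [inv_mul_cancel_left] at a
  obtain ⟨q1, q2⟩ := bBr_sq h hs
  rw [← mul_assoc]
  simp only [bar, dlt, bBr_mul h a.2, ← a.1, bBr_Tl h hs, (h.ap.ex _ hs y).1, Nat.cast_ofNat,
    smul_mul_assoc, mul_smul_comm, mul_add, add_mul, mul_sub, sub_mul, ← mul_assoc, q1, q2]
  module

theorem Bs.bar_df (h : Bs F p Λ T b) (h2 : ¬ p ∣ 2)
    (hc : ∀ x y, b x * b y - b (x * y) ∈ Lk F p c Λ) (S : Set N) (hS : ∀ s ∈ S, s * s ∈ T)
    (gen : ∀ Q : N → Prop, (∀ t ∈ T, Q t) → (∀ s ∈ S, ∀ x, Q x → Q (s * x)) → ∀ x, Q x)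
    (dich : ∀ s ∈ S, ∀ x, Asc b s x ∨ Asc b s (s⁻¹ * x)) (x y : N) :
    bar F b x * bar F b y - bar F b (x * y) ∈ Lk F p (2 * c) Λ := by
  refine ap_gen h.lt (fun x => (h.dlt_mem h2 hc x).2) (fun t ht => (h.bar_T ht).2.2) S gen
    (fun s hs x => ?_) x y
  have m := h.lt.mul_Lk (h.dlt_mem h2 hc s).1 (h.dlt_mem h2 hc x).1
  rw [← two_mul] at m
  rcases dich s hs x with a | a
  · rw [(h.asc a).1]
    exact neg_mem m
  · rwa [h.dsc (hS s hs) a]

/-- the simple generator under a quadratic relation. -/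
theorem Bs.dlt_s (h : Bs F p Λ T b) (hs : s * s ∈ T) {q : F} (q1 : q + 1 ≠ 0) {e : A}
    (he : e * b s = b s * e) (hq : q • (b s * b s) = b (s * s) + (q - 1) • (e * b s)) :
    dlt F b s = ((q - 1) / (q + 1)) • (e - bar F b s) := by
  have k : Ring.inverse (b s⁻¹) = q • b s - (q - 1) • e := by
    have := congrArg (· * Ring.inverse (b s)) hq
    simp only [← (bBr_sq h hs).2, add_mul, smul_mul_assoc, mul_assoc, (bBr_inv h s).1,
      mul_one] at this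
    rw [this, add_sub_cancel_right]
  rw [dlt, bar, k, Nat.cast_ofNat]
  match_scalars <;> field_simp <;> ring

end Pool.Agent.Lib.MP_1ae3da_al.CT.Z
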