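import Pool.Agent.Lib.MP_1ae3da_al.H.Df

/-! A symmetry of the diagram extends to the root system. -/

namespace Pool.Agent.Lib.MP_1ae3da_al.JV

variable {ι M N : Type} [AddCommGroup M] [Module ℚ M] [AddCommGroup N] [Module ℚ N]
  {P : RootPairing ι ℚ M N} [P.IsCrystallographic]
  [Finite ι] [P.IsReduced] [P.IsRootSystem] {b : P.Base}

theorem bas_ex (f : ι → ι) (h1 : ∀ a ∈ b.support, f a ∈ b.support)
    (h2 : ∀ a ∈ b.support, ∀ c ∈ b.support, P.pairingIn ℤ (f a) (f c) = P.pairingIn ℤ a c) :
    ∃ ρ : P.Aut, ∀ a ∈ b.support, ac P ρ a = f a := by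
  classical
  let g : b.support → b.support := fun a => ⟨f a, h1 a a.2⟩
  have hg : Function.Injective g := by
    intro a c e
    have e1 : f a = f c := congrArg Subtype.val e
    have e2 := h2 a a.2 c c.2
    rw [e1, P.pairingIn_same] at e2
    by_contra hne
    have e3 : P.pairingIn ℤ a c ≤ 0 := b.cartanMatrix_le_zero_of_ne a c hne
    omega
  let e : b.support ≃ b.support := Equiv.ofBijective g (Finite.injective_iff_bijective.mp hg)
  have he : ∀ i j, b.cartanMatrix (e i) (e j) = b.cartanMatrix i j :=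
    fun i j => h2 i i.2 j j.2
  refine ⟨b.equivOfCartanMatrixEq b e he, fun a ha => ?_⟩
  apply P.root.injective
  have h3 := RootPairing.Hom.root_weightMap_apply P P a (b.equivOfCartanMatrixEq b e he).toHom
  refine h3.symm.trans ?_
  have h4 := b.toWeightBasis.equiv_apply ⟨a, ha⟩ b.toWeightBasis e
  rw [b.toWeightBasis_apply, b.toWeightBasis_apply] at h4
  exact h4

end Pool.Agent.Lib.MP_1ae3da_al.JV
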