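import Pool.Agent.Lib.MP_1ae3da_al.B.Cv
import Pool.Agent.Lib.MP_1ae3da_al.B.Cb
import Pool.Agent.Lib.MP_1ae3da_al.H.Te
import Pool.Agent.Lib.MP_1ae3da_al.H.Xb

/-! Automorphisms act on the roots by a symmetry of the diagram. -/

namespace Pool.Agent.Lib.MP_1ae3da_al.JV

open SLI JM

theorem bCa_cj {p r : ℕ} {X : Type} [Group X] [Finite X] [Fact p.Prime] [Fact r.Prime]
    {U : Sylow r X} {L : Subgroup X} (h : BV p U L) (δ : MulAut X) (hU : ∀ x, δ x ∈ U ↔ x ∈ U)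
    (hN : ∀ x, δ x ∈ L ↔ x ∈ L) {g g' : X} (hg : g ∈ L) (hg' : g' ∈ L) (h1 : g ∉ Tor U L)
    (h2 : ∀ u ∈ U, g * u * g⁻¹ ∈ U ∨
      ∃ s ∈ Tor U L, ∃ v ∈ U, ∃ w ∈ U, g * u * g⁻¹ = v * (s * g * s⁻¹) * w)
    (h2' : ∀ u ∈ U, g' * u * g'⁻¹ ∈ U ∨
      ∃ s ∈ Tor U L, ∃ v ∈ U, ∃ w ∈ U, g' * u * g'⁻¹ = v * (s * g' * s⁻¹) * w)
    (h3 : δ g * g'⁻¹ ∈ Tor U L) : ∃ c ∈ Tor U L, δ g = c * g' * c⁻¹ := by
  obtain ⟨u, hu, hu'⟩ := ex_out hg h1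
  obtain ⟨s, hs, v, hv, w, hw, e⟩ := (h2 u hu).resolve_left hu'
  have e0 : δ (g * u * g⁻¹) = δ g * g'⁻¹ * (g' * δ u * g'⁻¹) * (δ g * g'⁻¹)⁻¹ := by
    simp only [map_mul, map_inv]; group
  have k1 : g' * δ u * g'⁻¹ ∉ (U : Subgroup X) := fun hc => hu' ((hU _).1 (e0 ▸ T_cj h3 hc))
  obtain ⟨s', hs', d⟩ := (h2' _ ((hU u).2 hu)).resolve_left k1
  have d1 := (DC.tl d h3).tr (inv_mem h3)
  have hδ := (map_T δ hU hN s).2 hs
  have d2 : DC (U : Subgroup X) (δ (g * u * g⁻¹)) (δ s * δ g * (δ s)⁻¹) :=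
    ⟨δ v, (hU _).2 hv, δ w, (hU _).2 hw, by rw [e]; simp only [map_mul, map_inv]⟩
  rw [e0] at d2
  have e1 := h.uq (mul_mem (mul_mem hδ.1 ((hN g).2 hg)) (inv_mem hδ.1))
    (mul_mem (mul_mem h3.1 (mul_mem (mul_mem hs'.1 hg') (inv_mem hs'.1))) (inv_mem h3.1)) d2 d1
  refine ⟨(δ s)⁻¹ * (δ g * g'⁻¹) * s', mul_mem (mul_mem (inv_mem hδ) h3) hs', ?_⟩
  generalize δ g * g'⁻¹ = z at e1
  calc δ g = (δ s)⁻¹ * (δ s * δ g * (δ s)⁻¹) * δ s := by group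
    _ = _ := by rw [e1]; group

variable {ι M N K X : Type} [AddCommGroup M] [Module ℚ M] [AddCommGroup N] [Module ℚ N]
  {P : RootPairing ι ℚ M N} [Field K] [Group X] {x : ι → K → X} [P.IsCrystallographic]
  [Finite ι] [P.IsReduced] [P.IsRootSystem] [Finite K] [Finite X] {b : P.Base} {p r k : ℕ}
  {U : Sylow r X} {a : ι} {g : X} {σ : P.Aut}

omit [P.IsCrystallographic] [Finite ι] [P.IsReduced] [P.IsRootSystem] [Finite K] [Finite X] in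
theorem bCa_pw (k : Act P x g σ) (m : ℕ) : Act P x (g ^ m) (σ ^ m) := by
  induction m with
  | zero => rw [pow_zero, pow_zero]; exact act_one
  | succ m ih => rw [pow_succ, pow_succ]; exact ih.mul k

omit [Finite X] in
theorem bCa_T (h : Chv x b) (hK : Big K) (hg : g ∈ NN P x) (k : Act P x g σ) :
    g ∈ TT P x ↔ σ = 1 := by
  obtain ⟨φ, h1, -, h3⟩ := h.hom hK
  rw [← h.act_uq hK (h1 ⟨g, hg⟩) k, h3]

omit [Finite X] in
/-- the three kinds of pairs of simple roots. -/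
theorem bCa_tri (h : Chv x b) (hK : Big K)
    (sym : ∀ c d, P.pairingIn ℤ c d = P.pairingIn ℤ d c) {c d : ι} (hc : c ∈ b.support)
    (hd : d ∈ b.support) :
    (P.pairingIn ℤ c d = 2 ∧
      (RootPairing.Equiv.reflection P c * RootPairing.Equiv.reflection P d) ^ 1 = 1) ∨
    ((RootPairing.Equiv.reflection P c * RootPairing.Equiv.reflection P d) ^ 1 ≠ 1 ∧
      ((P.pairingIn ℤ c d = -1 ∧
        (RootPairing.Equiv.reflection P c * RootPairing.Equiv.reflection P d) ^ 2 ≠ 1) ∨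
      (P.pairingIn ℤ c d = 0 ∧
        (RootPairing.Equiv.reflection P c * RootPairing.Equiv.reflection P d) ^ 2 = 1))) := by
  by_cases e : c = d
  · subst e
    exact .inl ⟨P.pairingIn_same ℤ c, (hTe_pw h hK c c 1).1 (by rw [pow_one]; exact h.w_sq c)⟩
  have e1 : P.pairingIn ℤ c d ≤ 0 :=
    b.cartanMatrix_le_zero_of_ne ⟨c, hc⟩ ⟨d, hd⟩ fun e' => e (congrArg Subtype.val e')
  have e2 := P.pairingIn_pairingIn_mem_set_of_isCrystal_of_isRed' c d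
    (fun e' => e (P.root.injective e')) (b.root_ne_neg_of_ne hc hd e)
  rw [sym d c] at e2
  simp only [Set.mem_insert_iff, Set.mem_singleton_iff, Prod.mk.injEq] at e2
  have e3 : P.pairingIn ℤ c d = -1 ∨ P.pairingIn ℤ c d = 0 := by omega
  refine .inr ⟨by rw [pow_one]; exact hTe_ne e3 rfl (sym d c), e3.imp (fun e4 => ⟨e4, ?_⟩)
    fun e4 => ⟨e4, ?_⟩⟩
  · exact hTe_nc e4 ((sym d c).trans e4)
  · exact hTe_cm h hK ((sym d c).trans e4)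

theorem Chv.aut (h : Chv x b) [Fact p.Prime] [Fact r.Prime] (hK : Big K)
    (hU : (U : Subgroup X) = UU x b) (v : BV p U (NN P x))
    (sym : ∀ c d, P.pairingIn ℤ c d = P.pairingIn ℤ d c) (nb : ∀ a, ∃ d, P.pairingIn ℤ a d = -1)
    (δ : MulAut X) (h1 : ∀ y, δ y ∈ U ↔ y ∈ U) (h2 : ∀ y, δ y ∈ NN P x ↔ y ∈ NN P x) :
    ∃ ρ, Bas b ρ ∧ (∀ g ∈ NN P x, ∀ σ, Act P x g σ → Act P x (δ g) (ρ * σ * ρ⁻¹)) ∧
      ∀ a, ∃ t ∈ TT P x, δ (wv P x a 1) = t * wv P x (ac P ρ a) 1 * t⁻¹ := by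
  rcases isEmpty_or_nonempty ι with hι | hι
  · exact ⟨1, fun a => isEmptyElim a, fun _ _ _ _ a => isEmptyElim a, fun a => isEmptyElim a⟩
  obtain ⟨k, n, e⟩ := en_ex b
  have ts := h.ts hK hU e
  have hT := hBv_tor h hK hU
  have hm : ∀ u, u ∈ U ↔ u ∈ UU x b := fun u => by rw [← hU]; rfl
  have dT : ∀ t, δ t ∈ TT P x ↔ t ∈ TT P x := fun t => hT ▸ map_T δ h1 h2 t
  have one : ∀ c ∈ b.support, ∀ u ∈ U, wv P x c 1 * u * (wv P x c 1)⁻¹ ∈ U ∨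
      ∃ s ∈ Tor U (NN P x), ∃ v ∈ U, ∃ w ∈ U, wv P x c 1 * u * (wv P x c 1)⁻¹ =
        v * (s * wv P x c 1 * s⁻¹) * w := fun c hc => by
    obtain ⟨d, hd⟩ := nb c
    simp only [hm, hT]
    exact h.one hc hd
  have ex : ∀ c ∈ b.support, ∃ d ∈ b.support, ∃ t ∈ TT P x,
      δ (wv P x c 1) = t * wv P x d 1 * t⁻¹ := fun c hc => by
    obtain ⟨i, hi, rfl⟩ := e.sur c hc
    obtain ⟨j, hj, k1⟩ := TS.perm v ts δ h1 h2 hi
    exact ⟨n j, e.mem j hj, hT ▸ bCa_cj v δ h1 h2 (hTe_w _ _) (hTe_w _ _) (ts.nt i hi)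
      (one _ hc) (one _ (e.mem j hj)) k1⟩
  choose! f f1 f2 using ex
  have f3 : ∀ c ∈ b.support, Act P x (δ (wv P x c 1)) (RootPairing.Equiv.reflection P (f c)) :=
    fun c hc => by
      obtain ⟨t, ht, e1⟩ := f2 c hc
      have := ((h.act_T ht).mul (h.act_w (f c) 1)).mul (h.act_T ht).inv
      rwa [one_mul, _root_.inv_one, mul_one, ← e1] at this
  have f4 : ∀ c ∈ b.support, ∀ d ∈ b.support, ∀ m : ℕ,
      (RootPairing.Equiv.reflection P (f c) * RootPairing.Equiv.reflection P (f d)) ^ m = 1 ↔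
      (RootPairing.Equiv.reflection P c * RootPairing.Equiv.reflection P d) ^ m = 1 :=
    fun c hc d hd m => by
      rw [← hTe_pw h hK c d, ← dT, map_pow, map_mul]
      exact (bCa_T h hK (pow_mem (mul_mem ((h2 _).2 (hTe_w _ _)) ((h2 _).2 (hTe_w _ _))) m)
        (bCa_pw ((f3 c hc).mul (f3 d hd)) m)).symm
  obtain ⟨ρ, hρ⟩ := bas_ex f f1 fun c hc d hd => by
    have a1 := bCa_tri h hK sym hc hd
    have a2 := bCa_tri h hK sym (f1 c hc) (f1 d hd)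
    rw [ne_eq, ne_eq, f4 c hc d hd, f4 c hc d hd] at a2
    rcases a1 with ⟨a1, a3⟩ | ⟨a3, ⟨a1, a4⟩ | ⟨a1, a4⟩⟩ <;>
      rcases a2 with ⟨a2, a5⟩ | ⟨a5, ⟨a2, a6⟩ | ⟨a2, a6⟩⟩ <;>
      first | exact a2.trans a1.symm | contradiction
  refine ⟨ρ, fun c hc => by rw [hρ c hc]; exact f1 c hc, h.gen_up hK
    (fun g => ∀ σ, Act P x g σ → Act P x (δ g) (ρ * σ * ρ⁻¹)) (fun t ht σ k1 => ?_)
    fun c hc g _ σ k1 _ q τ k2 => ?_, fun c => ?_⟩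
  · rw [h.act_uq hK k1 (h.act_T ht), mul_one, mul_inv_cancel]
    exact h.act_T ((dT t).2 ht)
  · rw [h.act_uq hK k2 ((h.act_w c 1).mul k1), map_mul]
    intro d
    have := ((f3 c hc).mul (q σ k1)) d
    rw [← hρ c hc, hRl_mul, hRl_mul, hRl_mul, hRl_rf, ← xb_rf] at this
    exact this
  · refine b.induction_reflect c (p := fun c => ∃ t ∈ TT P x,
      δ (wv P x c 1) = t * wv P x (ac P ρ c) 1 * t⁻¹) ?_ (fun c hc => by
        rw [hρ c hc]; exact f2 c hc) ?_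
    · rintro i ⟨t, ht, e1⟩
      obtain ⟨t1, ht1, e2⟩ := h.w_ng' nb i
      obtain ⟨t2, ht2, e3⟩ := h.w_ng' nb (ac P ρ i)
      refine ⟨δ t1 * t * t2⁻¹, mul_mem (mul_mem ((dT _).2 ht1) ht) (inv_mem ht2), ?_⟩
      change δ (wv P x (ng P i) 1) = _ * wv P x (ac P ρ (ng P i)) 1 * _
      rw [ac_ng, e2, e3, map_mul, map_mul, map_inv, e1]
      group
    · rintro i j ⟨t, ht, e1⟩ hj
      obtain ⟨t1, ht1, e2⟩ := h.w_cj nb (h.act_w j 1) i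
      obtain ⟨t2, ht2, e3⟩ := h.w_cj nb (f3 j hj) (ac P ρ i)
      rw [hRl_rf] at e2
      rw [hRl_rf, ← hρ j hj, ← xb_rf] at e3
      have e4 := congrArg δ e2
      simp only [map_mul, map_inv] at e4
      refine ⟨(δ t1)⁻¹ * (δ (wv P x j 1) * t * (δ (wv P x j 1))⁻¹) * t2, mul_mem (mul_mem
        (inv_mem ((dT _).2 ht1)) (hDl_cj h ((h2 _).2 (hTe_w _ _)) ht)) ht2, ?_⟩
      generalize δ (wv P x j 1) = G at e3 e4
      generalize wv P x (ac P ρ (P.reflectionPerm j i)) 1 = W at e3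
      calc _ = (δ t1)⁻¹ * (δ t1 * δ (wv P x (P.reflectionPerm j i) 1) * (δ t1)⁻¹) * δ t1 := by
            group
        _ = (δ t1)⁻¹ * (G * t * G⁻¹) * (G * wv P x (ac P ρ i) 1 * G⁻¹) * (G * t * G⁻¹)⁻¹ *
            δ t1 := by rw [← e4, e1]; group
        _ = _ := by rw [e3]; group

end Pool.Agent.Lib.MP_1ae3da_al.JV
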