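import Pool.Agent.Lib.MP_1ae3da_al.B.Df
import Pool.Agent.Lib.MP_1ae3da_al.H.Xa

/-! Inversions and the term of first order. -/

namespace Pool.Agent.Lib.MP_1ae3da_al.JV

variable {ι M N B : Type} [AddCommGroup M] [Module ℚ M] [AddCommGroup N] [Module ℚ N]
  {P : RootPairing ι ℚ M N} [P.IsCrystallographic] [Fintype ι] [P.IsReduced] [P.IsRootSystem]
  [Ring B]
  {b : P.Base} {u : ι → B} {σ : P.Aut} {a : ι}

omit [P.IsCrystallographic] [Fintype ι] [P.IsReduced] [P.IsRootSystem] in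
theorem bRd_inv (a c : ι) :
    ac P (RootPairing.Equiv.reflection P a)⁻¹ c = P.reflectionPerm a c := by
  have e := congrArg (P.reflectionPerm a) (hRl_inv (RootPairing.Equiv.reflection P a) c)
  rwa [hRl_rf, P.reflectionPerm_self] at e

omit [P.IsCrystallographic] [Fintype ι] [P.IsReduced] [P.IsRootSystem] in
theorem bRd_one (c : ι) : ¬ Iv b 1 c := fun h => h.2 (by rw [inv_one]; exact h.1)

omit [P.IsCrystallographic] [Fintype ι] [P.IsReduced] [P.IsRootSystem] in
theorem bRd_rf (ρ : P.Aut) (j a : ι) :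
    ac P ρ (P.reflectionPerm j a) = P.reflectionPerm (ac P ρ j) (ac P ρ a) := by
  apply P.root.injective
  rw [hRl_root, P.root_reflectionPerm, P.root_reflectionPerm, P.reflection_apply_root,
    P.reflection_apply_root, hRl_pr, hRl_root, hRl_root, smul_sub, smul_comm]

omit [P.IsCrystallographic] [Fintype ι] [P.IsReduced] [P.IsRootSystem] in
theorem bRd_add (ρ : P.Aut) (a c d : ι) :
    P.root (ac P ρ d) = P.root (ac P ρ a) + P.root (ac P ρ c) ↔ P.root d = P.root a + P.root c := by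
  rw [hRl_root, hRl_root, hRl_root, ← smul_add, smul_left_cancel_iff]

theorem bRd_iv {ρ : P.Aut} (hρ : Bas b ρ) (σ : P.Aut) (c : ι) :
    Iv b (ρ * σ * ρ⁻¹) (ac P ρ c) ↔ Iv b σ c := by
  have e : ac P (ρ * σ * ρ⁻¹)⁻¹ (ac P ρ c) = ac P ρ (ac P σ⁻¹ c) := by
    rw [← hRl_mul, ← hRl_mul]
    congr 1
    group
  rw [Iv, Iv, e, hρ.pos, hρ.pos]

theorem iv_mul (ha : a ∈ b.support) (hp : b.IsPos (ac P σ⁻¹ a)) (c : ι) :
    Iv b (RootPairing.Equiv.reflection P a * σ) c ↔ c = a ∨ Iv b σ (P.reflectionPerm a c) := by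
  have e : ac P (RootPairing.Equiv.reflection P a * σ)⁻¹ c = ac P σ⁻¹ (P.reflectionPerm a c) := by
    rw [mul_inv_rev, hRl_mul, bRd_inv]
  rw [Iv, Iv, e]
  refine ⟨fun h => ?_, fun h => ?_⟩
  · by_cases k : c = a
    · exact Or.inl k
    · exact Or.inr ⟨h.1.reflectionPerm ha k, h.2⟩
  · rcases h with rfl | h
    · refine ⟨b.isPos_of_mem_support ha, ?_⟩
      have := xa_ng hp
      rwa [← ac_ng] at this
    · have := h.1.reflectionPerm ha fun k => h.2 (by rw [k]; exact hp)
      rw [P.reflectionPerm_self] at this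
      exact ⟨this, h.2⟩

theorem iv_s (ha : a ∈ b.support) (c : ι) : Iv b (RootPairing.Equiv.reflection P a) c ↔ c = a := by
  have := iv_mul (σ := 1) ha (by rw [inv_one]; exact b.isPos_of_mem_support ha) c
  rw [mul_one] at this
  rw [this]
  exact or_iff_left (bRd_one _)

theorem iv_add {c d : ι} (ha : b.IsPos a) (hc : b.IsPos c) (e : P.root d = P.root a + P.root c)
    (hd : Iv b σ d) : Iv b σ a ∨ Iv b σ c := by
  by_contra k
  rw [not_or, Iv, Iv] at k
  exact hd.2 ((not_not.1 fun j => k.1 ⟨ha, j⟩).add (not_not.1 fun j => k.2 ⟨hc, j⟩)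
    ((bRd_add σ⁻¹ a c d).2 e))

theorem rt_one : DD b u 1 = 0 ∧ G6 b u 1 = 0 := by
  have e : DD b u 1 = 0 := by simp only [DD, bRd_one, if_false, Finset.sum_const_zero]
  refine ⟨e, ?_⟩
  simp only [G6, e, RR, bRd_one, false_and, if_false, Finset.sum_const_zero, mul_zero, smul_zero,
    add_zero, neg_zero]

theorem rt_D (ha : a ∈ b.support) (hp : b.IsPos (ac P σ⁻¹ a)) :
    DD b u (RootPairing.Equiv.reflection P a * σ) =
      u a + DD b (fun c => u (P.reflectionPerm a c)) σ := by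
  classical
  have e : u a = ∑ c, if c = a then u c else 0 := by simp
  rw [DD, DD, ← Equiv.sum_comp (P.reflectionPerm a)
    (fun c => if Iv b σ c then u (P.reflectionPerm a c) else 0), e, ← Finset.sum_add_distrib]
  refine Finset.sum_congr rfl fun c _ => ?_
  rw [P.reflectionPerm_self, iv_mul ha hp]
  by_cases k : c = a
  · subst k
    have : ¬ Iv b σ (P.reflectionPerm c c) := fun j => xa_ng (b.isPos_of_mem_support ha) j.1
    simp [this]
  · simp [k]

theorem rt_Ds (ha : a ∈ b.support) : DD b u (RootPairing.Equiv.reflection P a) = u a := by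
  have := rt_D (u := u) (σ := 1) ha (by rw [inv_one]; exact b.isPos_of_mem_support ha)
  rwa [mul_one, rt_one.1, add_zero] at this

theorem rt_map {B' : Type} [Ring B'] {ρ : P.Aut} (hρ : Bas b ρ) (γ : B →+* B') {u' : ι → B'}
    (h : ∀ c, γ (u c) = u' (ac P ρ c)) (σ : P.Aut) :
    γ (DD b u σ) = DD b u' (ρ * σ * ρ⁻¹) ∧ γ (G6 b u σ) = G6 b u' (ρ * σ * ρ⁻¹) := by
  classical
  have e1 : γ (DD b u σ) = DD b u' (ρ * σ * ρ⁻¹) := by
    rw [DD, DD, map_sum]
    refine Fintype.sum_equiv (RootPairing.Equiv.indexHom P ρ) _ _ fun c => ?_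
    rw [apply_ite γ, map_zero, h]
    exact if_congr (bRd_iv hρ σ c).symm rfl rfl
  have e2 : γ (RR b u σ) = RR b u' (ρ * σ * ρ⁻¹) := by
    rw [RR, RR, map_sum]
    refine Fintype.sum_equiv (RootPairing.Equiv.indexHom P ρ) _ _ fun a => ?_
    rw [map_sum]
    refine Fintype.sum_equiv (RootPairing.Equiv.indexHom P ρ) _ _ fun c => ?_
    rw [map_sum]
    refine Fintype.sum_equiv (RootPairing.Equiv.indexHom P ρ) _ _ fun d => ?_
    rw [apply_ite γ, apply_ite γ, map_zero, map_sub, map_sub, map_mul, map_mul, h, h]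
    exact if_congr (and_congr (bRd_iv hρ σ a).symm (and_congr (hρ.pos c).symm
      (bRd_add ρ a c d).symm)) (if_congr (bRd_iv hρ σ d).symm rfl rfl) rfl
  exact ⟨e1, by rw [G6, G6, map_neg, map_add, map_nsmul, map_mul, e1, e2]⟩

theorem rt_mem (Λ : AddSubgroup B) (hm : ∀ x ∈ Λ, ∀ y ∈ Λ, x * y ∈ Λ) (h : ∀ c, u c ∈ Λ)
    (σ : P.Aut) : DD b u σ ∈ Λ ∧ G6 b u σ ∈ Λ := by
  have e1 : DD b u σ ∈ Λ := sum_mem fun c _ => by
    split_ifs
    exacts [h c, zero_mem _]
  have e2 : RR b u σ ∈ Λ := sum_mem fun a _ => sum_mem fun c _ => sum_mem fun d _ => by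
    split_ifs
    exacts [sub_mem (hm _ (h c) _ (h a)) (hm _ (h a) _ (h c)),
      sub_mem (hm _ (h a) _ (h c)) (hm _ (h c) _ (h a)), zero_mem _]
  exact ⟨e1, neg_mem (add_mem (nsmul_mem (hm _ e1 _ e1) 3) e2)⟩

/-- conjugation by a unit. -/
theorem rt_cj {y y' : B} (h1 : y * y' = 1) (h2 : y' * y = 1) {u' : ι → B}
    (h : ∀ c, y * u c = u' c * y) (σ : P.Aut) :
    y * DD b u σ * y' = DD b u' σ ∧ y * G6 b u σ * y' = G6 b u' σ := by
  let γ : B →+* B :=
    { toFun := fun z => y * z * y'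
      map_one' := by rw [mul_one, h1]
      map_mul' := fun z w => by
        rw [show y * z * y' * (y * w * y') = y * (z * (y' * y) * w) * y' by noncomm_ring, h2, mul_one]
      map_zero' := by rw [mul_zero, zero_mul]
      map_add' := fun z w => by rw [mul_add, add_mul] }
  have := rt_map (b := b) (u := u) (u' := u') (ρ := 1) (fun _ k => k) γ
    (fun c => show y * u c * y' = u' c by rw [h, mul_assoc, h1, mul_one]) σ
  rwa [one_mul, inv_one, mul_one] at this

theorem Hol.rf (h : Hol P u) (a : ι) : Hol P fun c => u (P.reflectionPerm a c) := by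
  refine ⟨h.sym, fun c => ?_, fun c d => ?_, fun c d e => h.ort _ _ ?_⟩
  · exact (congrArg u (ac_ng (RootPairing.Equiv.reflection P a) c)).trans (h.neg _)
  · have := h.cm (P.reflectionPerm a c) (P.reflectionPerm a d)
    rwa [← hRl_rf a c, ← hRl_rf a d, ← bRd_rf] at this
  · exact (ac_pr (RootPairing.Equiv.reflection P a) d c).trans e

end Pool.Agent.Lib.MP_1ae3da_al.JV
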