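import Pool.Agent.Lib.MP_1ae3da_al.B.Tp
import Pool.Agent.Lib.MP_1ae3da_al.B.Rd
import Pool.Agent.Lib.MP_1ae3da_al.E.Lg
import Pool.Agent.Lib.MP_1ae3da_al.E.Lt2

/-! Means over the classes of the torus. -/

namespace Pool.Agent.Lib.MP_1ae3da_al

namespace CT.Z

variable {F N : Type} [Field F] [CharZero F] [Group N] [Finite N] {T : Subgroup N}

omit [CharZero F] [Finite N] in
theorem bCl_def [Fintype T] (g : N) :
    cav F T g = (Nat.card T : F)⁻¹ • ∑ t : T, gu F N (t * g * (t : N)⁻¹) := by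
  rw [cav, finsum_eq_sum_of_fintype]

theorem cav_T {t : N} (ht : t ∈ T) (g : N) : cav F T (t * g * t⁻¹) = cav F T g := by
  have _ := Fintype.ofFinite T
  rw [bCl_def, bCl_def, ← Equiv.sum_comp (Equiv.mulRight (⟨t, ht⟩ : T))
    fun s : T => gu F N (s * g * (s : N)⁻¹)]
  refine congrArg _ (Finset.sum_congr rfl fun s _ => congrArg _ ?_)
  change _ = (s * t) * g * ((s : N) * t)⁻¹
  group

theorem cav_cj [T.Normal] (x g : N) :
    gu F N x * cav F T g = cav F T (x * g * x⁻¹) * gu F N x := by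
  have _ := Fintype.ofFinite T
  rw [bCl_def, bCl_def, ← Equiv.sum_comp (MulAut.conjNormal x : MulAut T).toEquiv
    fun s : T => gu F N (s * (x * g * x⁻¹) * (s : N)⁻¹), mul_smul_comm, smul_mul_assoc,
    Finset.mul_sum, Finset.sum_mul]
  refine congrArg _ (Finset.sum_congr rfl fun s _ => ?_)
  rw [gu_mul, gu_mul]
  refine congrArg _ ?_
  change _ = (x * s * x⁻¹) * (x * g * x⁻¹) * (x * s * x⁻¹)⁻¹ * x
  group

theorem cav_cm {g : N} {y : MonoidAlgebra F N}
    (h : ∀ t ∈ T, Commute (gu F N (t * g * t⁻¹)) y) : Commute (cav F T g) y := by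
  have _ := Fintype.ofFinite T
  rw [bCl_def]
  exact Commute.smul_left (Commute.sum_left Finset.univ
    (fun t : T => gu F N (t * g * (t : N)⁻¹)) y fun t _ => h t t.2) _

theorem cav_map {σ : RingAut F} {γ : RingAut (MonoidAlgebra F N)} (hγ : SL F σ γ) {δ : N ≃* N}
    (h : ∀ x, γ (gu F N x) = gu F N (δ x)) (hT : ∀ x, δ x ∈ T ↔ x ∈ T) (g : N) :
    γ (cav F T g) = cav F T (δ g) := by
  have _ := Fintype.ofFinite T
  rw [bCl_def, bCl_def, hγ, map_sum, map_inv₀, map_natCast, ← Equiv.sum_comp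
    (Equiv.subtypeEquiv δ.toEquiv fun x => (hT x).symm : T ≃ T)
    fun s : T => gu F N (s * δ g * (s : N)⁻¹)]
  refine congrArg _ (Finset.sum_congr rfl fun s _ => ?_)
  rw [h, map_mul, map_mul, map_inv]
  rfl

end CT.Z

namespace JM
open SLI CT CT.Z

variable {p r c : ℕ} {X : Type} [Group X] [Finite X] [hp : Fact p.Prime] [hr : Fact r.Prime]
  {U : Sylow r X} {N : Subgroup X} {F κ : Type} [Field F] [CharZero F] [Field κ]
  {O R : Subring F} {ρ : F → κ} {GG : Subgroup (RingAut F)} {b : N → MonoidAlgebra F X}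
  {l : MonoidAlgebra F N →ₗ[F] MonoidAlgebra F X}

theorem BV.cav_mem (h : BV p U N) (hP : PM p O R ρ GG) (hb : Nb O p c (U : Subgroup X) h.D N b)
    (hl : ∀ n, l (gu F N n) = b n) (g : N) :
    l (cav F ((Tor U N).subgroupOf N) g) ∈ La O (U : Subgroup X) h.D := by
  have _ := Fintype.ofFinite ((Tor U N).subgroupOf N)
  have m : ∀ s : (Tor U N).subgroupOf N,
      (g : X) * ((s : N) : X)⁻¹ * (g : X)⁻¹ ∈ Tor U N := fun s => g4_T h g.2 (inv_mem s.2)
  let φ : (Tor U N).subgroupOf N →* N :=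
    MonoidHom.mk' (fun s => s * g * (s : N)⁻¹ * g⁻¹) fun a b => Subtype.ext <| by
      have e := h.ab _ (m a) _ (mul_mem (show ((b : N) : X) ∈ Tor U N from b.2) (m b))
      simp only [Subgroup.coe_mul, Subgroup.coe_inv, mul_inv_rev]
      calc _ = ((a : N) : X) * ((((b : N) : X) * ((g : X) * ((b : N) : X)⁻¹ * (g : X)⁻¹)) *
            ((g : X) * ((a : N) : X)⁻¹ * (g : X)⁻¹)) := by group
        _ = _ := by rw [← e]; group
  have hφ : ∀ x ∈ φ.range, (x : X) ∈ Tor U N := by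
    rintro _ ⟨s, rfl⟩
    have := mul_mem (show ((s : N) : X) ∈ Tor U N from s.2) (m s)
    rw [← mul_assoc, ← mul_assoc] at this
    exact this
  have e1 := av_hom (F := F) φ
  rw [finsum_eq_sum_of_fintype] at e1
  have e : cav F ((Tor U N).subgroupOf N) g = av F φ.range * gu F N g := by
    rw [bCl_def, inv_smul_eq_iff₀ zAv_card, ← smul_mul_assoc, ← e1, Finset.sum_mul]
    refine Finset.sum_congr rfl fun s _ => ?_
    rw [gu_mul]
    exact congrArg _ (inv_mul_cancel_right _ g).symm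
  obtain ⟨k1, k2⟩ := bTp_av hb hl (G := φ.range) fun x hx => (hφ x hx).2
  rw [e, (k2 _).1, k1, hl]
  refine (hk_lat hP h.pg).mul _ (eLg_av h hP ?_) _ ?_
  · rintro _ ⟨x, hx, rfl⟩
    exact hφ x hx
  · simpa using add_mem (Lk_le (hb.cl g)) (an_La (O := O) (U := (U : Subgroup X)) (h.N_le g.2))

theorem BV.cav_sq (h : BV p U N) (hb : Nb O p c (U : Subgroup X) h.D N b)
    (hl : ∀ n, l (gu F N n) = b n) {g : N} (hg : (g : X) * g ∈ Tor U N)
    (h1 : ∃ t ∈ Tor U N, (g : X) * g = g * t * (g : X)⁻¹ * t⁻¹) :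
    l (cav F ((Tor U N).subgroupOf N) g * gu F N g) =
      g4e U N F g * av F (U : Subgroup X) := by
  have _ := Fintype.ofFinite ((Tor U N).subgroupOf N)
  have _ := Fintype.ofFinite (Tor U N)
  obtain ⟨t, ht, e⟩ := h1
  have k := g4e_abs (F := F) h g.2 ht
  let ε : (Tor U N).subgroupOf N ≃ Tor U N :=
    (Subgroup.subgroupOfEquivOfLe (inf_le_left : Tor U N ≤ N)).toEquiv
  rw [← k, ← e, bCl_def, g4e_def, Nat.card_congr ε, smul_mul_assoc, map_smul, smul_mul_assoc,
    smul_mul_assoc, Finset.sum_mul, Finset.sum_mul, Finset.sum_mul, map_sum,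
    ← Equiv.sum_comp (ε.trans (Equiv.inv _))]
  refine congrArg _ (Finset.sum_congr rfl fun s _ => ?_)
  have hs : ((s : N) : X) ∈ Tor U N := s.2
  have m := g4_T h g.2 (inv_mem hs)
  have e2 : (g : X) * ((s : N) : X)⁻¹ * (g : X)⁻¹ * ((s : N) : X)⁻¹⁻¹ * ((g : X) * g) =
      ((s * g * (s : N)⁻¹ * g : N) : X) := by
    rw [inv_inv, h.ab _ m _ hs]
    simp only [Subgroup.coe_mul, Subgroup.coe_inv]
    group
  have m2 := g4b_ph h g.2 (inv_mem hs)
  have m3 := mul_mem m2 hg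
  rw [e2] at m3
  rw [gu_mul, hl, (hb.ex _ m3.2).2, an_nrm m3.2, ← jt_e, ← e2, jt_mul m2 hg]
  rfl

end JM

namespace JV
open SLI JM CT CT.Z

variable {ι M N : Type} [AddCommGroup M] [Module ℚ M] [AddCommGroup N] [Module ℚ N]
  {P : RootPairing ι ℚ M N} [P.IsCrystallographic] [Fintype ι] [P.IsReduced] [P.IsRootSystem]
  {b : P.Base}
  {r q : ℕ} {X : Type} [Group X] [Finite X] {U : Sylow r X} {L : Subgroup X} {φ : L →* P.Aut}
  {n : ι → L} (F : Type) [Field F] [CharZero F]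

omit [Fintype ι] [P.IsReduced] [P.IsRootSystem] [Finite X] in
theorem bCl_nrm (h : SR b U L φ n q) : ((Tor U L).subgroupOf L).Normal := by
  have e : (Tor U L).subgroupOf L = φ.ker := Subgroup.ext fun g => (h.ker g).symm
  rw [e]
  infer_instance

theorem SR.cav_cj (h : SR b U L φ n q) (g : L) (c : ι) :
    gu F L g * (cav F ((Tor U L).subgroupOf L) (n c) - 1) =
      (cav F ((Tor U L).subgroupOf L) (n (ac P (φ g) c)) - 1) * gu F L g := by
  have := bCl_nrm h
  obtain ⟨t, ht, e⟩ := h.cj g c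
  rw [mul_sub, sub_mul, CT.Z.cav_cj, e, cav_T (T := (Tor U L).subgroupOf L) ht, mul_one, one_mul]

theorem SR.hol (h : SR b U L φ n q) :
    Hol P fun c => cav F ((Tor U L).subgroupOf L) (n c) - 1 := by
  have k : ∀ a c, ∀ t ∈ (Tor U L).subgroupOf L,
      gu F L (t * n a * t⁻¹) * (cav F ((Tor U L).subgroupOf L) (n c) - 1) =
        (cav F ((Tor U L).subgroupOf L) (n (P.reflectionPerm a c)) - 1) *
          gu F L (t * n a * t⁻¹) := fun a c t ht => by
    have e : φ (t * n a * t⁻¹) = RootPairing.Equiv.reflection P a := by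
      rw [map_mul, map_mul, map_inv, (h.ker t).2 ht, h.rf, one_mul, inv_one, mul_one]
    rw [h.cav_cj F, e]
    rfl
  refine ⟨h.sym, fun a => ?_, fun a c => ?_, fun a c e => ?_⟩
  · obtain ⟨t, ht, e⟩ := h.ng a
    rw [e, cav_T (T := (Tor U L).subgroupOf L) ht]
  · refine (cav_cm fun t ht => ?_).sub_left (Commute.one_left _)
    rw [Commute, SemiconjBy, mul_add, add_mul, k a c t ht, k a _ t ht, P.reflectionPerm_self,
      add_comm]
  · refine (cav_cm fun t ht => ?_).sub_left (Commute.one_left _)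
    rw [Commute, SemiconjBy, k a c t ht, P.reflectionPerm_eq_of_pairing_eq_zero
      (by rw [← P.algebraMap_pairingIn ℤ, e, map_zero])]

end JV

end Pool.Agent.Lib.MP_1ae3da_al
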