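import Pool.Agent.Lib.MP_1ae3da_al.P.Cls

/-! The finite classical groups over fields with `q` elements, `p ∣ q - 1`. -/

namespace Pool.Agent.Lib.MP_1ae3da_al.JC

/-- `X` is a quotient by a central subgroup of `SL_m(q)`, `m ≥ 2`, of `Sp_2m(q)`, `m ≥ 1`, of the
spin group of a quadratic form in `m ≥ 7` variables with non degenerate polar form, or of
`SU_m(q)`, `m ≥ 2`, where `p ∣ q - 1`; for `p = 3` and `SL_3(q)` it is required that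
`9 ∣ q - 1`. -/
def Clg (p : ℕ) (X : Type) [Group X] : Prop :=
  ∃ (K : Type) (_ : Field K) (_ : Finite K) (m : ℕ),
    (p ∣ Nat.card K - 1 ∧ 2 ≤ m ∧ (m = 3 → p = 3 → 9 ∣ Nat.card K - 1) ∧
      Cq (Matrix.SpecialLinearGroup (Fin m) K) X) ∨
    (p ∣ Nat.card K - 1 ∧ 1 ≤ m ∧ Cq (Matrix.symplecticGroup (Fin m) K) X) ∨
    (∃ Q : QuadraticForm K (Fin m → K), p ∣ Nat.card K - 1 ∧ 7 ≤ m ∧
      (∀ v, (∀ w, QuadraticMap.polar Q v w = 0) → v = 0) ∧ Cq (spinGroup Q) X) ∨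
    ∃ (_ : StarRing K) (q : ℕ), Nat.card K = q ^ 2 ∧ (∀ x : K, star x = x ^ q) ∧ p ∣ q - 1 ∧
      2 ≤ m ∧ Cq (Matrix.specialUnitaryGroup (Fin m) K) X

end Pool.Agent.Lib.MP_1ae3da_al.JC
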