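import Pool.Agent.Lib.MP_1ae3da_al.B.Df
import Pool.Agent.Lib.MP_1ae3da_al.H.Xa
import Pool.Agent.Lib.MP_1ae3da_al.H.Bv

/-! The Hecke parameter of a simple root. -/

namespace Pool.Agent.Lib.MP_1ae3da_al.JV

open SLI JM

variable {ι M N K X : Type} [AddCommGroup M] [Module ℚ M] [AddCommGroup N] [Module ℚ N]
  {P : RootPairing ι ℚ M N} [Field K] [Group X] {x : ι → K → X} [P.IsCrystallographic]
  [Finite ι] [P.IsReduced] [P.IsRootSystem] [Finite K] [Finite X] {b : P.Base} {p r k : ℕ}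
  {U : Sylow r X} {a : ι} {g : X} {σ : P.Aut}

omit [P.IsRootSystem] [Finite X] in
theorem Chv.qn (h : Chv x b) (hK : Big K) (ha : a ∈ b.support) :
    Qn (UU x b) (wv P x a 1) = Nat.card K := by
  have hp : b.IsPos a := b.isPos_of_mem_support ha
  have hn : ¬ b.IsPos (ng P a) := by
    have h2 : b.height (ng P a) = - b.height a := b.height_reflectionPerm_self a
    rw [b.isPos_iff] at hp ⊢
    omega
  have hx : ∀ s, x a s ∈ UU x b := fun s => hTi_mem (S := {a | b.IsPos a}) hp s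
  obtain ⟨f, hf⟩ := h.act_w a 1 a
  unfold Qn Subgroup.relIndex Subgroup.index
  refine (Nat.card_eq_of_bijective (fun s : K => (QuotientGroup.mk ⟨x a s, hx s⟩ :
    UU x b ⧸ ((UU x b).comap (MulAut.conj (wv P x a 1)).toMonoidHom).subgroupOf (UU x b)))
    ⟨fun s t e => ?_, fun y => ?_⟩).symm
  · have e1 : wv P x a 1 * ((x a s)⁻¹ * x a t) * (wv P x a 1)⁻¹ ∈ UU x b := QuotientGroup.eq.mp e
    rw [← h.neg, ← h.add, (hf _).1, hTi_ac] at e1
    have e2 := h.neg_U hK hn e1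
    rw [Units.mul_right_eq_zero] at e2
    exact neg_add_eq_zero.mp e2
  · obtain ⟨⟨u, hu⟩, rfl⟩ := QuotientGroup.mk_surjective y
    obtain ⟨s, v, hv, rfl⟩ := (hTi_dec h ha hu).1
    refine ⟨s, QuotientGroup.eq.mpr ?_⟩
    change wv P x a 1 * ((x a s)⁻¹ * (x a s * v)) * (wv P x a 1)⁻¹ ∈ UU x b
    rwa [inv_mul_cancel_left]

omit [P.IsRootSystem] [Finite X] [Finite K] in
theorem Chv.aa (h : Chv x b) (ha : a ∈ b.support) (k : Act P x g σ)
    (hp : b.IsPos (ac P σ⁻¹ a)) : AA (UU x b) (wv P x a 1) g := by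
  intro u hu
  obtain ⟨s, v, hv, rfl⟩ := (hTi_dec h ha hu).2
  obtain ⟨e, he⟩ := k.inv a
  refine ⟨_, hv, g⁻¹ * x a s * g⁻¹⁻¹, ?_, by group⟩
  rw [(he s).1]
  exact hTi_mem (S := {a | b.IsPos a}) hp _

end Pool.Agent.Lib.MP_1ae3da_al.JV
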