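import Pool.Agent.Lib.MP_1ae3da_al.B.Rd
import Pool.Agent.Lib.MP_1ae3da_al.H.Xa
import Pool.Agent.Lib.MP_1ae3da_al.H.Bv

/-! The classes of the lifts of the reflections, and the Bruhat data for `p = 3`. -/

namespace Pool.Agent.Lib.MP_1ae3da_al.JV

open SLI JM

variable {ι M N K X : Type} [AddCommGroup M] [Module ℚ M] [AddCommGroup N] [Module ℚ N]
  {P : RootPairing ι ℚ M N} [Field K] [Group X] {x : ι → K → X} [P.IsCrystallographic]
  [Finite ι] [P.IsReduced] [P.IsRootSystem] [Finite K] [Finite X] {b : P.Base} {p r k : ℕ}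
  {U : Sylow r X} {a : ι} {g : X} {σ : P.Aut}

theorem Chv.w_cl (h : Chv x b) (nb : ∀ a, ∃ d, P.pairingIn ℤ a d = -1) (a : ι) (s : Kˣ) :
    ∃ t ∈ TT P x, wv P x a s = t * wv P x a 1 * t⁻¹ := by
  obtain ⟨d, hd⟩ := nb a
  refine ⟨hv P x d s⁻¹, hBv_h d _, ?_⟩
  rw [h.h_w, hd, zpow_neg_one, inv_inv, mul_one]

theorem Chv.w_cj (h : Chv x b) (nb : ∀ a, ∃ d, P.pairingIn ℤ a d = -1) (k : Act P x g σ) (a : ι) :
    ∃ t ∈ TT P x, g * wv P x a 1 * g⁻¹ = t * wv P x (ac P σ a) 1 * t⁻¹ := by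
  obtain ⟨c, hc⟩ := k.w a
  rw [hc]
  exact h.w_cl nb _ _

theorem Chv.w_ng' (h : Chv x b) (nb : ∀ a, ∃ d, P.pairingIn ℤ a d = -1) (a : ι) :
    ∃ t ∈ TT P x, wv P x (ng P a) 1 = t * wv P x a 1 * t⁻¹ := by
  obtain ⟨t, ht, e⟩ := h.w_cj nb (h.act_w a 1) a
  rw [mul_inv_cancel_right, hRl_rf] at e
  refine ⟨t⁻¹, inv_mem ht, ?_⟩
  rw [e]
  group

theorem Chv.gen_up (h : Chv x b) (hK : Big K) (Q : X → Prop) (h0 : ∀ t ∈ TT P x, Q t)
    (h1 : ∀ a ∈ b.support, ∀ g ∈ NN P x, ∀ σ, Act P x g σ → b.IsPos (ac P σ⁻¹ a) → Q g →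
      Q (wv P x a 1 * g)) : ∀ g ∈ NN P x, Q g := by
  have := Fintype.ofFinite ι
  suffices H : ∀ n, ∀ g ∈ NN P x, ∀ σ, Act P x g σ → {c | Iv b σ c}.ncard = n → Q g by
    intro g hg
    obtain ⟨σ, -, k⟩ := h.act_ex hg
    exact H _ g hg σ k rfl
  intro n
  induction n using Nat.strong_induction_on with
  | _ n ih =>
    intro g hg σ k hn
    by_cases hs : ∀ a ∈ b.support, b.IsPos (ac P σ⁻¹ a)
    · refine h0 g (inv_mem_iff.1 (h.del (inv_mem hg) (fun c hc u => ?_) hK))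
      obtain ⟨d, hd⟩ := k.inv c
      rw [(hd u).1]
      exact hTi_mem (S := {a | b.IsPos a}) (xa_pos hs hc) _
    · push Not at hs
      obtain ⟨a, ha, hn'⟩ := hs
      have k' := (h.act_w a 1).inv.mul k
      rw [RootPairing.Equiv.reflection_inv] at k'
      have hg' := mul_mem (inv_mem (hTi_wN (P := P) (x := x) a 1)) hg
      have hp : b.IsPos (ac P (RootPairing.Equiv.reflection P a * σ)⁻¹ a) := by
        rw [mul_inv_rev, RootPairing.Equiv.reflection_inv, hRl_mul, hRl_rf]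
        have e : ac P σ⁻¹ (P.reflectionPerm a a) = ng P (ac P σ⁻¹ a) := ac_ng _ a
        rw [e]
        exact hTi_pos hn'
      have e : RootPairing.Equiv.reflection P a * (RootPairing.Equiv.reflection P a * σ) = σ := by
        nth_rw 1 [← RootPairing.Equiv.reflection_inv]
        rw [inv_mul_cancel_left]
      have iv := iv_mul ha hp
      rw [e] at iv
      have q := h1 a ha _ hg' _ k' hp (ih _ ?_ _ hg' _ k' rfl)
      · rwa [mul_inv_cancel_left] at q
      · rw [← hn, ← Set.ncard_image_of_injective _ (P.reflectionPerm a).injective]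
        refine Set.ncard_lt_ncard ⟨?_, fun hh => ?_⟩ (Set.toFinite _)
        · rintro _ ⟨c, hc, rfl⟩
          exact (iv _).2 (Or.inr (by rwa [P.reflectionPerm_self]))
        · obtain ⟨c, hc, ec⟩ := hh ((iv a).2 (Or.inl rfl))
          have e2 : c = ng P a := by
            have := congrArg (P.reflectionPerm a) ec
            rwa [P.reflectionPerm_self] at this
          have e3 : b.IsPos c := hc.1
          have e4 : b.height (ng P a) = -b.height a := b.height_reflectionPerm_self a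
          rw [e2, b.isPos_iff, e4, b.height_one_of_mem_support ha] at e3
          omega

theorem nb_of (h : ∀ a ∈ b.support, ∃ d, P.pairingIn ℤ a d = -1) (a : ι) :
    ∃ d, P.pairingIn ℤ a d = -1 := by
  refine b.induction_reflect a (p := fun a => ∃ d, P.pairingIn ℤ a d = -1) ?_ h ?_
  · rintro i ⟨d, hd⟩
    exact ⟨_, (ac_pr (RootPairing.Equiv.reflection P i) i d).trans hd⟩
  · rintro i j ⟨d, hd⟩ -
    exact ⟨_, (ac_pr (RootPairing.Equiv.reflection P j) i d).trans hd⟩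

theorem big3 (hp : p.Prime) (h2 : p ≠ 2) (hq : p ∣ Nat.card K - 1)
    (h3 : p = 3 → 9 ∣ Nat.card K - 1) : Big K := by
  refine big_of hp h2 hq fun e => ?_
  rw [e] at hq h3
  have := h3 ((Nat.prime_dvd_prime_iff_eq hp Nat.prime_three).1 hq)
  omega

theorem bCv_s (hp : p.Prime) (h2 : p ≠ 2) (hq : p ∣ Nat.card K - 1)
    (h3 : p = 3 → 9 ∣ Nat.card K - 1) : ∃ (s : Kˣ) (c : ℕ), s ^ p ^ c = 1 ∧ ¬ orderOf s ∣ 24 := by
  have := Fintype.ofFinite K
  obtain ⟨g, hg⟩ := IsCyclic.exists_ofOrder_eq_natCard (α := Kˣ)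
  rw [Nat.card_units] at hg
  have h0 : orderOf g ≠ 0 := (orderOf_pos g).ne'
  by_cases e : p = 3
  · have o := orderOf_pow_orderOf_div h0 (n := 9) (hg ▸ h3 e)
    refine ⟨g ^ (orderOf g / 9), 2, ?_, by rw [o]; decide⟩
    rw [e]
    exact orderOf_dvd_iff_pow_eq_one.1 (by rw [o]; decide)
  · have o := orderOf_pow_orderOf_div h0 (n := p) (hg ▸ hq)
    refine ⟨g ^ (orderOf g / p), 1, ?_, ?_⟩
    · exact orderOf_dvd_iff_pow_eq_one.1 (by rw [o, pow_one])
    · rw [o]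
      intro e8
      have e9 := Nat.le_of_dvd (by omega) e8
      interval_cases p <;> first | omega | (exact absurd hp (by decide))

omit [Finite X] in
theorem bCv_quad (h : Chv x b) (hK : Big K) {s : Kˣ} {n : ℕ} (s1 : s ^ p ^ n = 1)
    (s2 : ¬ orderOf s ∣ 24) :
    ∀ m ∈ NN P x, (∀ d ∈ TT P x, (∃ c, d ^ p ^ c = 1) → Commute (d * m * d⁻¹ * m⁻¹) m) →
      m ∈ TT P x := by
  intro m hm hc
  obtain ⟨σ, hσ, k⟩ := h.act_ex hm
  have key : ∀ c, ac P σ c = c := fun c => by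
    have c1 := hc _ (hBv_h c s) ⟨n, by rw [hBv_pow h, s1, hv, mul_inv_cancel]⟩
    have e1 : hv P x c s * m * (hv P x c s)⁻¹ * m⁻¹ =
        hv P x c s * hv P x (ac P σ c) s ^ (-1 : ℤ) := by
      rw [← h.act_h k]
      group
    have e2 : hv P x (ac P σ c) s * hv P x (ac P σ (ac P σ c)) s ^ (-1 : ℤ) =
        hv P x c s * hv P x (ac P σ c) s ^ (-1 : ℤ) := by
      rw [e1] at c1
      calc _ = m * (hv P x c s * hv P x (ac P σ c) s ^ (-1 : ℤ)) * m⁻¹ := by
            rw [← h.act_h k (ac P σ c), ← h.act_h k c]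
            group
        _ = _ := by rw [← c1.eq, mul_inv_cancel_right]
    have t1 := (h.sc_h (ac P σ c) (ac P σ c) s).mul
      ((h.sc_h (ac P σ (ac P σ c)) (ac P σ c) s).zpow (-1))
    have t2 := (h.sc_h c (ac P σ c) s).mul ((h.sc_h (ac P σ c) (ac P σ c) s).zpow (-1))
    rw [e2] at t1
    have e3 := h.sc_uq t1 t2
    rw [ac_pr, ac_pr, ← zpow_mul, ← zpow_mul, ← zpow_add, ← zpow_add, zpow_eq_zpow_iff_modEq,
      P.pairingIn_same, hBv_len hσ] at e3
    have e4 := Int.ModEq.dvd e3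
    have e5 := P.pairingIn_pairingIn_mem_set_of_isCrystal_of_isRed c (ac P σ c)
    rw [hBv_len hσ] at e5
    simp only [Set.mem_insert_iff, Set.mem_singleton_iff, Prod.mk.injEq] at e5
    have e6 : P.pairingIn ℤ c (ac P σ c) = 2 := by
      by_contra hne
      have e7 : (orderOf s : ℤ) ∣ 24 := by
        refine e4.trans ?_
        generalize P.pairingIn ℤ c (ac P σ c) = z at e5 hne
        have : z = 0 ∨ z = 1 ∨ z = -1 ∨ z = -2 := by omega
        rcases this with rfl | rfl | rfl | rfl <;> decide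
      exact s2 (by exact_mod_cast e7)
    exact ((P.pairingIn_two_two_iff ℤ c (ac P σ c)).1 ⟨e6, (hBv_len hσ c).trans e6⟩).symm
  refine h.del hm (fun c hc u => ?_) hK
  obtain ⟨d, hd⟩ := k c
  rw [(hd u).1, key]
  exact Subgroup.subset_closure ⟨c, hc, _, rfl⟩

theorem Chv.bv3 (h : Chv x b) [Fact r.Prime] [CharP K r] (hU : (U : Subgroup X) = UU x b)
    (hp : p.Prime) (h2 : p ≠ 2) (hq : p ∣ Nat.card K - 1) (h3 : p = 3 → 9 ∣ Nat.card K - 1) :
    BV p U (NN P x) := by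
  have hK := big3 hp h2 hq h3
  have e : ∀ g, g ∈ U ↔ g ∈ UU x b := fun g => by rw [← hU]; rfl
  refine ⟨fun e1 => ?_, ?_, ?_, fun g => ?_, fun u hu h1 => ?_, ?_⟩
  · subst e1
    have := Fintype.ofFinite K
    obtain ⟨n, -, hn⟩ := FiniteField.card K p
    have h4 : 1 < Nat.card K := Finite.one_lt_card
    have h6 : p ∣ Nat.card K := by
      rw [Nat.card_eq_fintype_card, hn]
      exact dvd_pow_self _ n.ne_zero
    have := (Nat.dvd_sub h6 hq)
    rw [show Nat.card K - (Nat.card K - 1) = 1 by omega] at this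
    exact hp.one_lt.ne' (Nat.dvd_one.1 this)
  · rw [hBv_tor h hK hU]
    exact h.T_ab
  · rw [hBv_tor h hK hU]
    exact h.T_nrm
  · simpa only [e] using h.bru g
  · rw [hBv_tor h hK hU]
    simpa only [pow_one] using h.orb hK (v := 1) hp h2 (by rwa [pow_one]) ((e u).1 hu) h1
  · rw [hBv_tor h hK hU]
    obtain ⟨s, n, s1, s2⟩ := bCv_s hp h2 hq h3
    exact bCv_quad h hK s1 s2

theorem en_ex [Nonempty ι] (b : P.Base) : ∃ k a, En b k a := by
  obtain ⟨z⟩ := ‹Nonempty ι›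
  let e := b.support.equivFin
  refine ⟨b.support.card, fun i => if h : i < b.support.card then (e.symm ⟨i, h⟩ : ι) else z,
    fun i hi => ?_, fun c hc => ⟨e ⟨c, hc⟩, (e ⟨c, hc⟩).2, ?_⟩, fun i j hi hj h => ?_⟩
  · rw [dif_pos hi]
    exact (e.symm ⟨i, hi⟩).2
  · rw [dif_pos (e ⟨c, hc⟩).2, Fin.eta, Equiv.symm_apply_apply]
  · rw [dif_pos hi, dif_pos hj] at h
    exact congrArg Fin.val (e.symm.injective (Subtype.ext h))

end Pool.Agent.Lib.MP_1ae3da_al.JV
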