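import Pool.Agent.Lib.MP_1ae3da_al.E.Df
import Pool.Agent.Lib.MP_1ae3da_al.H.Xf
import Pool.Agent.Lib.MP_1ae3da_al.C.AFin

/-! The bar invariant basis and its correction of second order: definitions. -/

namespace Pool.Agent.Lib.MP_1ae3da_al

namespace CT.Z

section
variable (F : Type) {A B N : Type} [Field F] [Ring A] [Algebra F A] [Ring B] [Algebra F B] [Group N]

/-- the mean of `b x` and of the inverse of `b x⁻¹`. -/
noncomputable def bar (b : N → A) (x : N) : A := ((2 : ℕ) : F)⁻¹ • (b x + Ring.inverse (b x⁻¹))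

/-- half the difference. -/
noncomputable def dlt (b : N → A) (x : N) : A := ((2 : ℕ) : F)⁻¹ • (b x - Ring.inverse (b x⁻¹))

/-- `b` is multiplicative at `(s, x)` and at the inverses. -/
def Asc (b : N → A) (s x : N) : Prop := b s * b x = b (s * x) ∧ b x⁻¹ * b s⁻¹ = b (s * x)⁻¹

/-- the mean over the `T`-class of `g`. -/
noncomputable def cav (T : Subgroup N) (g : N) : MonoidAlgebra F N :=
  (Nat.card T : F)⁻¹ • ∑ᶠ t : T, gu F N (t * g * (t : N)⁻¹)

/-- `l` is multiplicative modulo `p ^ c` on the preimage of the lattice, and exactly on `T`. -/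
structure Tp (p c : ℕ) (Λ : AddSubgroup A) (T : Subgroup N) (v : N → B) (l : B →ₗ[F] A) :
    Prop where
  lt : Ltt F p Λ
  mul : ∀ x y, v x * v y = v (x * y)
  one : v 1 = 1
  mem : ∀ x, l (v x) ∈ Λ
  df : ∀ x y, l x ∈ Λ → l y ∈ Λ → l x * l y - l (x * y) ∈ Lk F p c Λ
  ex : ∀ t ∈ T, ∀ y, l (v t * y) = l (v t) * l y ∧ l (y * v t) = l y * l (v t)

end

/-- a family in the corner that is close to the standard basis, multiplicative modulo `p ^ c` and
exact on the torus. -/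
structure Nb {F X : Type} [Field F] [Group X] (O : Subring F) (p c : ℕ) (U D N : Subgroup X)
    (b : N → MonoidAlgebra F X) : Prop where
  cl : ∀ x, b x - an F U x ∈ Lk F p 1 (La O U D)
  df : ∀ x y, b x * b y - b (x * y) ∈ Lk F p c (La O U D)
  ex : ∀ t : N, (t : X) ∈ Subgroup.normalizer (U : Set X) → Exa b t ∧ b t = an F U t

end CT.Z

namespace JV
open SLI JM CT

variable {ι M N B : Type} [AddCommGroup M] [Module ℚ M] [AddCommGroup N] [Module ℚ N]
  {P : RootPairing ι ℚ M N} [Ring B]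

/-- the inversions. -/
def Iv (b : P.Base) (σ : P.Aut) (c : ι) : Prop := b.IsPos c ∧ ¬ b.IsPos (ac P σ⁻¹ c)

open Classical in
/-- the term of first order. -/
noncomputable def DD [Fintype ι] (b : P.Base) (u : ι → B) (σ : P.Aut) : B :=
  ∑ c, if Iv b σ c then u c else 0

open Classical in
/-- the sum over the subsystems of type `A₂`. -/
noncomputable def RR [Fintype ι] (b : P.Base) (u : ι → B) (σ : P.Aut) : B :=
  ∑ a, ∑ c, ∑ d, if Iv b σ a ∧ b.IsPos c ∧ P.root d = P.root a + P.root c then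
    (if Iv b σ d then u c * u a - u a * u c else u a * u c - u c * u a) else 0

/-- six times the term of second order. -/
noncomputable def G6 [Fintype ι] (b : P.Base) (u : ι → B) (σ : P.Aut) : B :=
  -(3 • (DD b u σ * DD b u σ) + RR b u σ)

variable [P.IsCrystallographic]

variable (P) in
/-- the holonomy relations of a simply laced root system. -/
structure Hol (u : ι → B) : Prop where
  sym : ∀ c d, P.pairingIn ℤ c d = P.pairingIn ℤ d c
  neg : ∀ a, u (ng P a) = u a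
  cm : ∀ a c, Commute (u a) (u c + u (P.reflectionPerm a c))
  ort : ∀ a c, P.pairingIn ℤ c a = 0 → Commute (u a) (u c)

/-- a Bruhat decomposition whose Weyl group comes with a simply laced root system. -/
structure SR {r : ℕ} {X : Type} [Group X] (b : P.Base) (U : Sylow r X) (L : Subgroup X)
    (φ : L →* P.Aut) (n : ι → L) (q : ℕ) : Prop where
  sym : ∀ c d, P.pairingIn ℤ c d = P.pairingIn ℤ d c
  ker : ∀ g : L, φ g = 1 ↔ (g : X) ∈ Tor U L
  rf : ∀ a, φ (n a) = RootPairing.Equiv.reflection P a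
  gen : ∀ Q : L → Prop, (∀ t : L, (t : X) ∈ Tor U L → Q t) → (∀ a ∈ b.support, ∀ g,
    b.IsPos (ac P (φ g)⁻¹ a) → Q g → Q (n a * g)) → ∀ g, Q g
  cj : ∀ g a, ∃ t : L, (t : X) ∈ Tor U L ∧ g * n a * g⁻¹ = t * n (ac P (φ g) a) * t⁻¹
  ng : ∀ a, ∃ t : L, (t : X) ∈ Tor U L ∧ n (ng P a) = t * n a * t⁻¹
  aa : ∀ a ∈ b.support, ∀ g : L, b.IsPos (ac P (φ g)⁻¹ a) → AA (U : Subgroup X) (n a) g
  one : ∀ a ∈ b.support, ∀ u ∈ U, (n a : X) * u * (n a : X)⁻¹ ∈ U ∨ ∃ s ∈ Tor U L, ∃ v ∈ U,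
    ∃ w ∈ U, (n a : X) * u * (n a : X)⁻¹ = v * (s * n a * s⁻¹) * w
  qn : ∀ a ∈ b.support, Qn (U : Subgroup X) (n a) = q
  aut : ∀ δ : MulAut X, (∀ x, δ x ∈ U ↔ x ∈ U) → ∀ hL : ∀ x, δ x ∈ L ↔ x ∈ L, ∃ ρ, Bas b ρ ∧
    (∀ g, φ (resA L δ hL g) = ρ * φ g * ρ⁻¹) ∧
    ∀ a, ∃ t : L, (t : X) ∈ Tor U L ∧ resA L δ hL (n a) = t * n (ac P ρ a) * t⁻¹

end JV

end Pool.Agent.Lib.MP_1ae3da_al
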