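import Pool.Agent.Lib.MP_1ae3da_al.H.Chv

/-! The exceptional Chevalley groups with `p ∣ q - 1`. -/

namespace Pool.Agent.Lib.MP_1ae3da_al.JV

/-- `X` is a Chevalley group of type `G₂`, `F₄`, `E₆`, `E₇` or `E₈` over a field with `q` elements,
`p ∣ q - 1`, and `9 ∣ q - 1` if `p = 3`. -/
def Ecg (p : ℕ) (X : Type) [Group X] : Prop :=
  ∃ (ι M N K : Type) (_ : AddCommGroup M) (_ : Module ℚ M) (_ : AddCommGroup N) (_ : Module ℚ N)
    (P : RootPairing ι ℚ M N) (_ : Finite ι) (_ : P.IsRootSystem) (_ : P.IsReduced)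
    (_ : P.IsCrystallographic) (b : P.Base) (_ : Field K) (_ : Finite K) (x : ι → K → X),
    Chv x b ∧ p ∣ Nat.card K - 1 ∧ (p = 3 → 9 ∣ Nat.card K - 1) ∧
      (Ty b CartanMatrix.G₂ ∨ Ty b CartanMatrix.F₄ ∨ Ty b CartanMatrix.E₆ ∨ Ty b CartanMatrix.E₇ ∨
        Ty b CartanMatrix.E₈)

end Pool.Agent.Lib.MP_1ae3da_al.JV
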