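import Pool.Agent.Lib.MP_1ae3da_al.H.Wy

/-! The bound of Minkowski by reduction modulo two. -/

namespace Pool.Agent.Lib.MP_1ae3da_al.JV

theorem bMi_one {m n : ℕ} (hn : Odd n) (A : Matrix (Fin m) (Fin m) ℤ) (h1 : A ^ n = 1)
    (h2 : (Int.castRingHom (ZMod 2)).mapMatrix A = 1) : A = 1 := by
  have e1 : (A - 1) * ∑ i ∈ Finset.range n, A ^ i = 0 := by rw [mul_geom_sum, h1, sub_self]
  have e2 : (Int.castRingHom (ZMod 2)).mapMatrix (∑ i ∈ Finset.range n, A ^ i) = 1 := by
    rw [map_sum]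
    simp only [map_pow, h2, one_pow, Finset.sum_const, Finset.card_range]
    rw [← Nat.cast_smul_eq_nsmul (ZMod 2), (ZMod.natCast_eq_one_iff_odd).2 hn, one_smul]
  have e3 : (∑ i ∈ Finset.range n, A ^ i).det ≠ 0 := by
    intro e
    have e4 := (Int.castRingHom (ZMod 2)).map_det (∑ i ∈ Finset.range n, A ^ i)
    rw [e, e2, map_zero, Matrix.det_one] at e4
    exact zero_ne_one e4
  have e5 := congrArg (· * (∑ i ∈ Finset.range n, A ^ i).adjugate) e1
  simp only [mul_assoc, Matrix.mul_adjugate, zero_mul, Matrix.mul_smul, mul_one] at e5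
  exact sub_eq_zero.1 ((smul_eq_zero.1 e5).resolve_left e3)

theorem mi_gl {p k m : ℕ} (hp : p.Prime) (h2 : p ≠ 2) {G : Type} [Group G] [Finite G]
    (ρ : G →* GL (Fin m) ℤ) (hρ : Function.Injective ρ) (h : p ^ k ∣ Nat.card G) :
    p ^ k ∣ ∏ i : Fin m, (2 ^ m - 2 ^ (i : ℕ)) := by
  have := Fact.mk hp
  obtain ⟨H, hH⟩ := Sylow.exists_subgroup_card_pow_prime p h
  let τ : H →* GL (Fin m) (ZMod 2) :=
    (Matrix.GeneralLinearGroup.map (Int.castRingHom (ZMod 2))).comp (ρ.comp H.subtype)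
  have hτ : Function.Injective τ := by
    rw [injective_iff_map_eq_one]
    intro g hg
    have e1 : g ^ p ^ k = 1 := by rw [← hH, pow_card_eq_one']
    have e2 : ρ g ^ p ^ k = 1 := by
      rw [← map_pow, ← Subgroup.coe_pow, e1, OneMemClass.coe_one, map_one]
    have e3 := bMi_one ((hp.odd_of_ne_two h2).pow (n := k)) (ρ g : Matrix (Fin m) (Fin m) ℤ)
      (by rw [← Units.val_pow_eq_pow_val, e2, Units.val_one]) (congrArg Units.val hg)
    exact Subtype.ext (hρ ((Units.ext e3).trans (map_one ρ).symm))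
  have e := Subgroup.card_dvd_of_injective τ hτ
  rwa [hH, Matrix.card_GL_field, ZMod.card] at e

variable {ι M N : Type} [AddCommGroup M] [Module ℚ M] [AddCommGroup N] [Module ℚ N]
  {P : RootPairing ι ℚ M N} [P.IsCrystallographic] [Finite ι] [P.IsReduced] [P.IsRootSystem]
  {b : P.Base}

omit [P.IsCrystallographic] [Finite ι] [P.IsReduced] [P.IsRootSystem] in
theorem bMi_mem (g : P.weylGroup) (y : M) (hy : y ∈ P.rootSpan ℤ) : g • y ∈ P.rootSpan ℤ := by
  induction hy using Submodule.span_induction with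
  | mem y hy =>
    obtain ⟨i, rfl⟩ := hy
    rw [P.weylGroup_apply_root g i]
    exact Submodule.subset_span ⟨_, rfl⟩
  | zero => rw [smul_zero]; exact Submodule.zero_mem _
  | add y z _ _ h1 h2 => rw [smul_add]; exact Submodule.add_mem _ h1 h2
  | smul c y _ h1 => rw [smul_comm]; exact Submodule.smul_mem _ _ h1

variable (P) in
/-- the action of the Weyl group on the root lattice. -/
noncomputable def bMi_act : P.weylGroup →* Module.End ℤ (P.rootSpan ℤ) where
  toFun g := (AddMonoidHom.mk' (fun y : P.rootSpan ℤ => (⟨g • y.1, bMi_mem g y.1 y.2⟩ :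
    P.rootSpan ℤ)) fun y z => Subtype.ext (smul_add g y.1 z.1)).toIntLinearMap
  map_one' := LinearMap.ext fun y => Subtype.ext (one_smul _ y.1)
  map_mul' g h := LinearMap.ext fun y => Subtype.ext (mul_smul g h y.1)

omit [P.IsCrystallographic] [Finite ι] [P.IsReduced] in
theorem bMi_inj : Function.Injective (bMi_act P) := by
  intro g h e
  apply vWy_inj
  ext i
  apply P.root.injective
  rw [← P.weylGroup_apply_root g i, ← P.weylGroup_apply_root h i]
  exact congrArg Subtype.val (LinearMap.congr_fun e (P.rootSpanMem ℤ i))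

theorem wy_gl {p k m : ℕ} {C : Matrix (Fin m) (Fin m) ℤ} (h : Ty b C) (hp : p.Prime) (h2 : p ≠ 2)
    (hd : p ^ k ∣ Nat.card P.weylGroup) : p ^ k ∣ ∏ i : Fin m, (2 ^ m - 2 ^ (i : ℕ)) := by
  obtain ⟨e, -⟩ := h
  have := wy_fin (P := P)
  let φ := LinearMap.toMatrixAlgEquiv (b.toWeightBasisInt.reindex e.symm)
  let σ : P.weylGroup →* Matrix (Fin m) (Fin m) ℤ := (φ : _ →* _).comp (bMi_act P)
  refine mi_gl hp h2 σ.toHomUnits (fun g g' e => ?_) hd
  exact bMi_inj (φ.injective (congrArg Units.val e))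

end Pool.Agent.Lib.MP_1ae3da_al.JV
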