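import Pool.Agent.Lib.MP_1ae3da_al.B.Rr

/-! The recursion for the term of second order. -/

namespace Pool.Agent.Lib.MP_1ae3da_al.JV

variable {ι M N B : Type} [AddCommGroup M] [Module ℚ M] [AddCommGroup N] [Module ℚ N]
  {P : RootPairing ι ℚ M N} [P.IsCrystallographic] [Fintype ι] [P.IsReduced] [P.IsRootSystem]
  [Ring B]
  {b : P.Base} {u : ι → B} {σ : P.Aut} {a : ι}

theorem rt_R3 (h : Hol P u) (ha : a ∈ b.support) :
    RR b (fun c => u (P.reflectionPerm a c)) (RootPairing.Equiv.reflection P a) =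
      -RR b u (RootPairing.Equiv.reflection P a) := by
  simp only [RR, ← Finset.sum_neg_distrib]
  refine Finset.sum_congr rfl fun a1 _ => Finset.sum_congr rfl fun c _ =>
    Finset.sum_congr rfl fun d _ => ?_
  split_ifs with k1 k2
  · obtain rfl := (iv_s ha a1).1 k1.1
    have e := (h.cm a1 c).eq
    rw [mul_add, add_mul] at e
    rw [h.neg a1, neg_sub, sub_eq_sub_iff_add_eq_add, add_comm, ← e, add_comm]
  · obtain rfl := (iv_s ha a1).1 k1.1
    have e := (h.cm a1 c).eq
    rw [mul_add, add_mul] at e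
    rw [h.neg a1, neg_sub, sub_eq_sub_iff_add_eq_add, add_comm, e]
  · rw [neg_zero]

theorem rt_asc (h : Hol P u) (ha : a ∈ b.support) (hp : b.IsPos (ac P σ⁻¹ a)) :
    G6 b u (RootPairing.Equiv.reflection P a * σ) =
      G6 b u (RootPairing.Equiv.reflection P a) + G6 b (fun c => u (P.reflectionPerm a c)) σ +
        (6 * (-1 : ℤ)) • (u a * DD b (fun c => u (P.reflectionPerm a c)) σ) := by
  rw [G6, G6, G6, rt_D ha hp, rt_Ds ha, rt_R h ha hp]
  simp only [mul_add, add_mul]
  module

theorem rt_dsc (h : Hol P u) (ha : a ∈ b.support) (hp : ¬ b.IsPos (ac P σ⁻¹ a)) :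
    G6 b u (RootPairing.Equiv.reflection P a * σ) =
      G6 b u (RootPairing.Equiv.reflection P a) + G6 b (fun c => u (P.reflectionPerm a c)) σ +
        (6 * (1 : ℤ)) • (u a * DD b (fun c => u (P.reflectionPerm a c)) σ) := by
  have hq : b.IsPos (ac P (RootPairing.Equiv.reflection P a * σ)⁻¹ a) := by
    rw [mul_inv_rev, hRl_mul, bRd_inv, ac_ng]
    exact hTi_pos hp
  have es : RootPairing.Equiv.reflection P a * (RootPairing.Equiv.reflection P a * σ) = σ := by
    rw [← mul_assoc, mul_eq_one_iff_inv_eq.2 (RootPairing.Equiv.reflection_inv P a), one_mul]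
  have e1 := rt_asc (h.rf a) ha hq
  have e2 := rt_D (u := fun c => u (P.reflectionPerm a c)) ha hq
  have e3 := rt_Ds (u := fun c => u (P.reflectionPerm a c)) ha
  simp only [es, P.reflectionPerm_self, h.neg a] at e1 e2 e3
  rw [e1, e2, G6.eq_1 b _ (RootPairing.Equiv.reflection P a),
    G6.eq_1 b _ (RootPairing.Equiv.reflection P a), e3, rt_R3 h ha, rt_Ds ha]
  simp only [mul_add]
  module

end Pool.Agent.Lib.MP_1ae3da_al.JV
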