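import Pool.Agent.Lib.MP_1ae3da_al.B.Df

/-! Lifting identities of the group algebra along the transport. -/

namespace Pool.Agent.Lib.MP_1ae3da_al.CT.Z

variable {F A B N : Type} [Field F] [CharZero F] [Ring A] [Algebra F A] [Ring B] [Algebra F B]
  [Group N] {p c e : ℕ} {Λ : AddSubgroup A} {T : Subgroup N} {v : N → B} {l : B →ₗ[F] A}
  {a κ : F} {s x : N} {D D' G G' : B} {d d' : A}

omit [CharZero F] in
theorem bTh_smul {m : ℕ} (ha : ∀ y ∈ Λ, a • y ∈ Lk F p c Λ) {y : A} (hy : y ∈ Lk F p m Λ) :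
    a • y ∈ Lk F p (c + m) Λ := by
  obtain ⟨z, hz, rfl⟩ := hy
  obtain ⟨w, hw, h⟩ := ha z hz
  exact ⟨w, hw, by rw [smul_comm, h, smul_smul, ← pow_add, add_comm]⟩

omit [CharZero F] in
theorem Tp.mul_mem (h : Tp F p c Λ T v l) {y z : B} (hy : l y ∈ Λ) (hz : l z ∈ Λ) :
    l (y * z) ∈ Λ := by
  have := sub_mem (h.lt.mul _ hy _ hz) (Lk_le (h.df y z hy hz))
  rwa [sub_sub_cancel] at this

omit [CharZero F] in
theorem bTh_cj (h : Tp F p c Λ T v l) (Y : B) :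
    v s * Y * v s⁻¹ * v (s * x) = v s * (Y * v x) := by
  rw [mul_assoc, h.mul, inv_mul_cancel_left, mul_assoc]

omit [CharZero F] in
theorem Tp.first (h : Tp F p (2 * c) Λ T v l) (ha : ∀ y ∈ Λ, a • y ∈ Lk F p c Λ) (hD : l D ∈ Λ)
    (hD' : l D' ∈ Λ) (h1 : d - a • l (D * v s) ∈ Lk F p (3 * c) Λ)
    (h2 : d' - a • l (D' * v x) ∈ Lk F p (3 * c) Λ) :
    l (v s) * d' + d * l (v x) - a • l ((D + v s * D' * v s⁻¹) * v (s * x)) ∈
      Lk F p (3 * c) Λ := by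
  have e3 : 3 * c = c + 2 * c := by ring
  have k1 := h.lt.mul_left (h.mem s) h2
  have k2 := h.lt.mul_right h1 (h.mem x)
  have k3 := bTh_smul ha (h.df _ _ (h.mem s) (h.mul_mem hD' (h.mem x)))
  have k4 := bTh_smul ha (h.df _ _ (h.mul_mem hD (h.mem s)) (h.mem x))
  rw [← e3] at k3 k4
  convert add_mem (add_mem k1 k2) (add_mem k3 k4) using 1
  rw [add_mul, bTh_cj h, ← h.mul s x, ← mul_assoc D, map_add]
  simp only [mul_sub, sub_mul, smul_sub, smul_add, mul_smul_comm, smul_mul_assoc]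
  abel

omit [CharZero F] in
theorem Tp.third (h : Tp F p (2 * c) Λ T v l) (ha : ∀ y ∈ Λ, a • y ∈ Lk F p c Λ)
    (hκ : ∀ y ∈ Λ, κ • y ∈ Lk F p e Λ) (he : e ≤ 2 * c) (h6 : 6 * κ = a * a) (hD : l D ∈ Λ)
    (hD' : l D' ∈ Λ) (hG : l G ∈ Λ) (hG' : l G' ∈ Λ)
    (h1 : d - a • l (D * v s) ∈ Lk F p (3 * c) Λ) (h2 : d' - a • l (D' * v x) ∈ Lk F p (3 * c) Λ)
    {ε : ℤ} (h3 : l (v s) * l (v x) - l (v (s * x)) = ε • (d * d')) :
    (l (v s) + κ • l (G * v s)) * (l (v x) + κ • l (G' * v x)) - (l (v (s * x)) +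
      κ • l ((G + v s * G' * v s⁻¹ + (6 * ε) • (D * (v s * D' * v s⁻¹))) * v (s * x))) ∈
      Lk F p (2 * e) Λ := by
  have m1 := h.mul_mem hD (h.mem s)
  have m2 := h.mul_mem hD' (h.mem x)
  have m3 := h.mul_mem hG (h.mem s)
  have m4 := h.mul_mem hG' (h.mem x)
  have k1 := Lk_anti (show 2 * e ≤ e + 2 * c by omega) (bTh_smul hκ (h.df _ _ (h.mem s) m4))
  have k2 := Lk_anti (show 2 * e ≤ e + 2 * c by omega) (bTh_smul hκ (h.df _ _ m3 (h.mem x)))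
  have k3 := Lk_anti (show 2 * e ≤ e + e by omega) (h.lt.mul_Lk (hκ _ m3) (hκ _ m4))
  have k4 := Lk_anti (show 2 * e ≤ c + (c + 2 * c) by omega)
    (bTh_smul ha (bTh_smul ha (h.df _ _ m1 m2)))
  have d1 : d' ∈ Lk F p c Λ := by
    have := add_mem (Lk_anti (show c ≤ 3 * c by omega) h2) (ha _ m2)
    rwa [sub_add_cancel] at this
  have k5 := Lk_anti (show 2 * e ≤ 3 * c + c by omega) (h.lt.mul_Lk h1 d1)
  have k6 := Lk_anti (show 2 * e ≤ c + 3 * c by omega) (h.lt.mul_Lk (ha _ m1) h2)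
  have e1 : κ • l (((6 * ε) • (D * (v s * D' * v s⁻¹))) * v (s * x)) =
      ε • a • a • l (D * v s * (D' * v x)) := by
    rw [smul_mul_assoc, mul_assoc D, bTh_cj h, ← mul_assoc D, map_zsmul, smul_smul a, ← h6,
      ← Int.cast_smul_eq_zsmul F, ← Int.cast_smul_eq_zsmul F ε, smul_smul, smul_smul]
    congr 1
    push_cast
    ring
  convert add_mem (add_mem (add_mem k1 k2) k3) (zsmul_mem (add_mem (add_mem k4 k5) k6) ε) using 1
  rw [add_mul (G + _), map_add, smul_add κ, e1, add_mul G, bTh_cj h, map_add,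
    show G * v (s * x) = G * v s * v x by rw [mul_assoc, h.mul],
    show l (v (s * x)) = l (v s) * l (v x) - ε • (d * d') by rw [← h3, sub_sub_cancel]]
  simp only [mul_sub, sub_mul, mul_add, add_mul, smul_sub, smul_add, mul_smul_comm, smul_mul_assoc]
  abel

end Pool.Agent.Lib.MP_1ae3da_al.CT.Z
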