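import Pool.Agent.Lib.MP_1ae3da_al.B.Tw
import Pool.Agent.Lib.MP_1ae3da_al.B.Rg
import Pool.Agent.Lib.MP_1ae3da_al.B.Th
import Pool.Agent.Lib.MP_1ae3da_al.B.Cl

/-! The inductive condition for simply laced Tits systems. -/

namespace Pool.Agent.Lib.MP_1ae3da_al.JV

open SLI JM CT CT.Z

theorem bSr_sc {F A : Type} [Field F] [CharZero F] [Ring A] [Algebra F A] {p q c e : ℕ}
    {Λ : AddSubgroup A} (h : Ltt F p Λ) (hp : p.Prime) (h2 : p ≠ 2) (hq : q ≡ 1 [MOD p ^ c])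
    (e0 : 0 < e) (he : e < 2 * c ∨ (p ≠ 3 ∧ e = 2 * c)) :
    (∀ y ∈ Λ, (((q : F) - 1) / (q + 1)) • y ∈ Lk F p c Λ) ∧
      ∀ y ∈ Λ, (((q : F) - 1) / (q + 1) * ((q - 1) / (q + 1)) / 6) • y ∈ Lk F p e Λ := by
  have c0 : c ≠ 0 := by omega
  have q1 : q ≡ 1 [MOD p] := hq.of_dvd (dvd_pow_self p c0)
  have p2 : ¬ p ∣ 2 := fun k => h2 ((Nat.prime_dvd_prime_iff_eq hp Nat.prime_two).1 k)
  have q0 : 1 ≤ q := Nat.pos_of_ne_zero fun k => hp.one_lt.ne' (Nat.dvd_one.1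
    ((q1.dvd_iff dvd_rfl).1 (k ▸ dvd_zero p)))
  have a1 : ∀ y ∈ Λ, (((q : F) - 1) / (q + 1)) • y ∈ Lk F p c Λ := fun y hy => by
    have := h.inv_Lk (m := q + 1) (fun k => p2 (((q1.add_right 1).dvd_iff dvd_rfl).1 k))
      (nat_Lk (F := F) ((Nat.modEq_iff_dvd' q0).1 hq.symm) hy)
    rwa [smul_smul, Nat.cast_sub q0, Nat.cast_add, Nat.cast_one, ← div_eq_inv_mul] at this
  refine ⟨a1, fun y hy => ?_⟩
  obtain ⟨z, hz, e1⟩ := a1 y hy
  obtain ⟨w, hw, e2⟩ := a1 z hz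
  have e3 : (((q : F) - 1) / (q + 1) * ((q - 1) / (q + 1)) / 6) • y =
      ((6 : ℕ) : F)⁻¹ • (p : F) ^ (2 * c) • w := by
    rw [div_eq_inv_mul _ (6 : F), mul_smul, mul_smul, e1, smul_comm _ ((p : F) ^ c) z, e2,
      smul_smul ((p : F) ^ c), ← pow_add, two_mul, Nat.cast_ofNat]
  rw [e3]
  by_cases p3 : p = 3
  · subst p3
    obtain ⟨d, hd⟩ : ∃ d, 2 * c = d + 1 := ⟨2 * c - 1, by omega⟩
    refine Lk_anti (show e ≤ d by omega) ⟨_, h.inv 2 p2 w hw, ?_⟩
    rw [hd, smul_smul, smul_smul]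
    congr 1
    push_cast
    field_simp
    ring
  · refine Lk_anti (show e ≤ 2 * c by omega) (h.inv_Lk (fun k => ?_) ⟨w, hw, rfl⟩)
    rcases (hp.dvd_mul (m := 2) (n := 3)).1 k with k | k
    · exact p2 k
    · exact p3 ((Nat.prime_dvd_prime_iff_eq hp Nat.prime_three).1 k)

variable {ι M N : Type} [AddCommGroup M] [Module ℚ M] [AddCommGroup N] [Module ℚ N]
  {P : RootPairing ι ℚ M N} [P.IsCrystallographic] [Finite ι] [P.IsReduced] [P.IsRootSystem]
  {b : P.Base}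
  {p r q c e : ℕ} {X : Type} [Group X] [Finite X] [hp : Fact p.Prime] [hr : Fact r.Prime]
  {U : Sylow r X} {L : Subgroup X} {φ : L →* P.Aut} {n : ι → L}

theorem SR.sq (h : SR b U L φ n q) (a : ι) : ((n a * n a : L) : X) ∈ Tor U L :=
  (h.ker _).1 (by rw [map_mul, h.rf, mul_eq_one_iff_inv_eq, RootPairing.Equiv.reflection_inv])

theorem SR.nt (h : SR b U L φ n q) (a : ι) : (n a : X) ∉ Tor U L := fun k => by
  have e := hRl_root (P := P) (φ (n a)) a
  nth_rw 2 [(h.ker _).2 k] at e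
  rw [h.rf, hRl_rf, one_smul, hRl_ng, neg_eq_iff_add_eq_zero, ← two_smul ℚ, smul_eq_zero] at e
  exact e.elim two_ne_zero (P.ne_zero _)

theorem SR.dn (h : SR b U L φ n q) {a : ι} {g : L} (k : ¬ b.IsPos (ac P (φ g)⁻¹ a)) :
    b.IsPos (ac P (φ ((n a)⁻¹ * g))⁻¹ a) := by
  rw [map_mul, map_inv, mul_inv_rev, inv_inv, hRl_mul, h.rf, hRl_rf]
  exact ac_ng (φ g)⁻¹ a ▸ hTi_pos k

/-- the simple generator. -/
theorem SR.dlt_s (h : SR b U L φ n q) (v : BV p U L) {F κ : Type} [Field F] [CharZero F] [Field κ]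
    {O R : Subring F} {ρ : F → κ} {GG : Subgroup (RingAut F)} (hP : PM p O R ρ GG) {a : ι}
    (ha : a ∈ b.support) : dlt F (fun x : L => g4bn F (U : Subgroup X) x) (n a) =
      (((q : F) - 1) / (q + 1)) •
        (g4e U L F (n a) - bar F (fun x : L => g4bn F (U : Subgroup X) x) (n a)) := by
  have q0 : (q : F) ≠ 0 := Nat.cast_ne_zero.2 (by
    have := qn_gt (n a).2 (h.nt a)
    rw [h.qn a ha] at this
    omega)
  have k1 := g4e_T (F := F) v (n a).2 (h.sq a)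
  have k2 := d3_qT (F := F) v (n a).2 (h.sq a) (h.nt a) (fun u hu => (h.one a ha u hu).imp_right
    fun ⟨s, hs, x, hx, y, hy, e⟩ => ⟨s * (n a * s⁻¹ * (n a : X)⁻¹),
      mul_mem hs ((v.T_conj (n a).2).2 (inv_mem hs)), x, hx, y, hy, by rw [e]; group⟩) (h.one a ha)
  rw [g4b_tau, h.qn a ha] at k1 k2
  refine (v.bs hP).dlt_s (h.sq a) (by exact_mod_cast Nat.succ_ne_zero q) ?_ ?_
  · rw [mul_smul_comm, smul_mul_assoc] at k1
    exact smul_right_injective _ q0 k1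
  · refine smul_right_injective _ q0 ?_
    simp only [smul_add, Subgroup.coe_mul, eLt_jt (show (n a : X) * n a ∈ _ from h.sq a)]
    rwa [mul_smul_comm, smul_mul_assoc, mul_smul_comm, smul_comm (q - 1 : F)] at k2

theorem SR.ind (h : SR b U L φ n q) (v : BV p U L) (h2 : p ≠ 2) (hU : (U : Subgroup X) ≠ ⊥)
    (hq : q ≡ 1 [MOD p ^ c])
    (ho : ∀ u ∈ U, u ≠ 1 → p ^ c ∣ (Subgroup.centralizer {u}).relIndex (Tor U L))
    (e0 : 0 < e) (he : e < 2 * c ∨ (p ≠ 3 ∧ e = 2 * c))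
    (hw : ¬ p ^ (2 * e) ∣ (Tor U L).relIndex L) :
    (∃ R : Sylow p X, (R : Subgroup X) ≤ L) ∧
      ∀ R : Sylow p X, (R : Subgroup X) ≤ L → NSV.IndN p X R L := by
  refine v.ind hU fun F κ _ _ O R ρ GG hP => ?_
  have := hP.charF
  have := Fintype.ofFinite ι
  have c0 : 0 < c := by omega
  have p2 : ¬ p ∣ 2 := fun k => h2 ((Nat.prime_dvd_prime_iff_eq hp.out Nat.prime_two).1 k)
  have B := v.bs hP
  have dc := v.dfc hP c0 ho
  have gen : ∀ Q : L → Prop, (∀ t : L, (t : X) ∈ Tor U L → Q t) →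
      (∀ s ∈ n '' b.support, ∀ x, Q x → Q (s * x)) → ∀ x, Q x := fun Q h0 h1 =>
    h.gen Q h0 fun a ha g _ => h1 _ ⟨a, ha, rfl⟩ g
  have nb := v.nb hP h2 c0 ho (n '' b.support) (by rintro _ ⟨a, -, rfl⟩; exact h.sq a) gen (by
    rintro _ ⟨a, ha, rfl⟩ x
    exact (em _).imp (h.aa a ha x) fun k => h.aa a ha _ (h.dn k))
  have nat := fun σ hσ γ hγ δ hδ hU hN => v.bar_nat hP (σ := σ) hσ (γ := γ) hγ (δ := δ) hδ hU hN
  have ds := fun a ha => h.dlt_s v hP (a := a) ha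
  have as := fun a ha x k => B.asc (asc_of (h.aa a ha x k))
  have de := fun a ha x k => B.dsc (h.sq a) (asc_of (h.aa a ha _ (h.dn (g := x) k)))
  have d0 : ∀ t : L, (t : X) ∈ Tor U L → _ := fun t ht => (B.bar_T (t := t) ht).2.1
  have ct : ∀ y x, _ := fun y x => (v.cut (x := y) (B.dlt_mem p2 dc x).2).1
  have ct' : ∀ y x, _ := fun y x => (v.cut (x := y) (Lk_le (B.dlt_mem p2 dc x).1)).1
  generalize bar F (fun x : L => g4bn F (U : Subgroup X) x) = β at nb nat ds as de ct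
  generalize dlt F (fun x : L => g4bn F (U : Subgroup X) x) = d at ds as de d0 ct'
  obtain ⟨l, hl⟩ := am_lin (gu_tg (F := F) (X := L)).ind fun x => β x * av F (U : Subgroup X)
  have tp := nb.tp hP v.pg v.norm_eq hl
  obtain ⟨a1, a2⟩ := bSr_sc tp.lt hp.out h2 hq e0 he
  have cj := h.cav_cj F
  have hol := h.hol F
  have um : ∀ c, l (cav F ((Tor U L).subgroupOf L) (n c) - 1) ∈ La O (U : Subgroup X) v.D :=
    fun c => by
      rw [map_sub]
      exact sub_mem (v.cav_mem hP nb hl _) (tp.mem 1)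
  have us : ∀ a ∈ b.support, d (n a) * av F (U : Subgroup X) = (((q : F) - 1) / (q + 1)) •
      l ((cav F ((Tor U L).subgroupOf L) (n a) - 1) * gu F L (n a)) := fun a ha => by
    rw [sub_mul, one_mul, map_sub, hl, ds a ha, smul_mul_assoc, sub_mul, v.cav_sq nb hl (h.sq a)
      (d3_s2 v (n a).2 (h.sq a) (h.nt a) (h.one a ha)).2]
  have un : ∀ (σ : RingAut F) (γ : RingAut (MonoidAlgebra F L)) (δ : MulAut X),
      (∀ x, δ x ∈ U ↔ x ∈ U) → ∀ hL : ∀ x, δ x ∈ L ↔ x ∈ L, SL F σ γ →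
      (∀ x, γ (gu F L x) = gu F L (resA L δ hL x)) → ∀ g,
      γ (G6 b (fun c => cav F ((Tor U L).subgroupOf L) (n c) - 1) (φ g)) =
        G6 b (fun c => cav F ((Tor U L).subgroupOf L) (n c) - 1) (φ (resA L δ hL g)) :=
    fun σ γ δ hU hL k1 k2 g => by
      obtain ⟨τ, t1, t2, t3⟩ := h.aut δ hU hL
      rw [t2]
      refine (rt_map t1 γ.toRingHom (fun c => ?_) _).2
      obtain ⟨t, ht, et⟩ := t3 c
      change γ (_ - 1) = _
      rw [map_sub, map_one, cav_map k1 k2 fun x => map_T δ hU hL x, et,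
        cav_T (T := (Tor U L).subgroupOf L) ht]
  obtain ⟨u, hu⟩ : ∃ u : ι → _, ∀ c, cav F ((Tor U L).subgroupOf L) (n c) - 1 = u c :=
    ⟨_, fun _ => rfl⟩
  simp only [hu] at cj hol um us un
  have sa : ∀ σ : RingAut F, σ (((q : F) - 1) / (q + 1) * ((q - 1) / (q + 1)) / 6) =
      ((q : F) - 1) / (q + 1) * ((q - 1) / (q + 1)) / 6 := fun σ => by
    simp [map_ofNat]
  generalize ((q : F) - 1) / (q + 1) = a at a1 a2 us sa
  have dm := rt_mem (b := b) ((La O (U : Subgroup X) v.D).comap l.toAddMonoidHom)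
    (fun x hx y hy => tp.mul_mem hx hy) um
  have cu : ∀ (g : L) {u' : ι → _}, (∀ c, u (ac P (φ g) c) = u' c) → ∀ σ, _ := fun g u' k σ =>
    rt_cj (b := b) (y := gu F L g) (y' := gu F L g⁻¹) (by rw [gu_mul, mul_inv_cancel, gu_one])
      (by rw [gu_mul, inv_mul_cancel, gu_one]) (fun c => (cj g c).trans (by rw [k])) σ
  have cs := fun c => cu (n c) (u' := fun z => u (P.reflectionPerm c z)) fun z => by
    rw [h.rf, hRl_rf]
  have h1 : ∀ x, d x * av F (U : Subgroup X) - a • l (DD b u (φ x) * gu F L x) ∈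
      Lk F p (3 * c) (La O (U : Subgroup X) v.D) := by
    refine h.gen _ (fun t ht => ?_) fun z hz x k ih => ?_
    · simp [d0 t ht, (h.ker t).2 ht, rt_one.1]
    · have := tp.first a1 (um z) (dm (φ x)).1 (sub_eq_zero.2 (us z hz) ▸ zero_mem _) ih
      rwa [(cs z _).1, ← rt_D hz k, ← h.rf, ← map_mul, hl, hl, ct, ct', ← add_mul,
        ← (as z hz x k).2] at this
  have ex : ∀ t : L, (t : X) ∈ Tor U L →
      Exa (fun x => l (gu F L x) + (a * a / 6) • l (G6 b u (φ x) * gu F L x)) t := fun t ht x => by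
    have k1 := (h.ker t).2 ht
    have k2 : gu F L t * G6 b u (φ x) = G6 b u (φ x) * gu F L t := by
      conv_rhs => rw [← (cu t (fun c => by rw [k1, hRl_one]) (φ x)).2]
      rw [mul_assoc _ _ (gu F L t), gu_mul, inv_mul_cancel, gu_one, mul_one]
    have k3 := tp.ex t ht.2
    simp only [map_mul, k1, one_mul, mul_one, rt_one.2, zero_mul, map_zero, smul_zero, add_zero,
      mul_add, add_mul, mul_smul_comm, smul_mul_assoc, ← (k3 _).1, ← (k3 _).2, ← gu_mul,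
      ← mul_assoc, k2, and_self]
  have mm : ∀ x, (a * a / 6) • l (G6 b u (φ x) * gu F L x) ∈ Lk F p e (La O (U : Subgroup X) v.D) :=
    fun x => a2 _ (tp.mul_mem (dm _).2 (tp.mem x))
  refine v.cor_nb hP h2 (c := 2 * e)
    (b := fun x => l (gu F L x) + (a * a / 6) • l (G6 b u (φ x) * gu F L x))
    ⟨fun x => ?_, ap_gen tp.lt (fun x => add_mem (tp.mem x) (Lk_le (mm x)))
      (T := (Tor U L).subgroupOf L) ex _ gen ?_, fun t ht => ⟨ex t ⟨t.2, ht⟩, ?_⟩⟩ hw ?_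
  · rw [add_sub_right_comm, hl]
    exact add_mem (nb.cl x) (Lk_anti e0 (mm x))
  · rintro _ ⟨z, hz, rfl⟩ x
    have := fun ε => tp.third a1 a2 (by omega) (by ring) (dm (φ (n z))).1 (dm (φ x)).1
      (dm (φ (n z))).2 (dm (φ x)).2 (h1 (n z)) (h1 x) (ε := ε)
    simp only [hl (n z), hl x, hl (n z * x), ct, ct', ← sub_mul, (cs z _).1, (cs z _).2] at this
    rw [map_mul φ, h.rf, hl, hl, hl]
    rw [h.rf, rt_Ds hz] at this
    by_cases k : b.IsPos (ac P (φ x)⁻¹ z)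
    · rw [rt_asc hol hz k]
      exact this (-1) (by rw [(as z hz x k).1, neg_mul, neg_one_zsmul])
    · rw [rt_dsc hol hz k]
      exact this 1 (by rw [de z hz x k, one_zsmul])
  · simp only [(h.ker t).2 ⟨t.2, ht⟩, rt_one.2, zero_mul, map_zero, smul_zero, add_zero, hl]
    exact (nb.ex t ht).2
  · intro σ hσ γ hγ δ hδ hU hL x
    obtain ⟨γ', t1, t2⟩ := ga_aut (F := F) σ (resA L δ hL)
    have e : ∀ y, l (γ' y) = γ (l y) := fun y =>
      gu_ext σ ⊤ (l.toAddMonoidHom.comp γ'.toAddMonoidHom) (γ.toAddMonoidHom.comp l.toAddMonoidHom)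
        (fun c a => by
          change l (γ' (c • a)) = σ c • l (γ' a)
          rw [t1, map_smul])
        (fun c a => by
          change γ (l (c • a)) = σ c • γ (l a)
          rw [map_smul, hγ])
        (fun x _ => by
          change l (γ' (gu F _ x)) = γ (l (gu F _ x))
          rw [t2, hl, hl, nat σ hσ γ hγ δ hδ hU hL]) y (gu_span.ge trivial)
    rw [map_add, hγ, ← e, ← e, map_mul, t2, un σ γ' δ hU hL t1 t2, sa σ]

end Pool.Agent.Lib.MP_1ae3da_al.JV
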