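import Pool.Agent.Lib.MP_1ae3da_al.B.Exc
import Pool.Agent.Lib.MP_1ae3da_al.B.Sr
import Pool.Agent.Lib.MP_1ae3da_al.B.Cq
import Pool.Agent.Lib.MP_1ae3da_al.B.Ca
import Pool.Agent.Lib.MP_1ae3da_al.B.Mi
import Pool.Agent.Lib.MP_1ae3da_al.H.Exs

/-! The inductive condition for the exceptional Chevalley groups. -/

namespace Pool.Agent.Lib.MP_1ae3da_al.JV

open SLI JM

section
variable {ι M N K X : Type} [AddCommGroup M] [Module ℚ M] [AddCommGroup N] [Module ℚ N]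
  {P : RootPairing ι ℚ M N} [Field K] [Group X] {x : ι → K → X} [P.IsCrystallographic]
  [Finite ι] [P.IsReduced] [P.IsRootSystem] [Finite K] [Finite X] {b : P.Base} {p r k : ℕ}
  {U : Sylow r X} {a : ι} {g : X} {σ : P.Aut}

theorem Chv.sr (h : Chv x b) [Fact p.Prime] [Fact r.Prime] (hK : Big K)
    (hU : (U : Subgroup X) = UU x b) (v : BV p U (NN P x))
    (sym : ∀ c d, P.pairingIn ℤ c d = P.pairingIn ℤ d c) (nb : ∀ a, ∃ d, P.pairingIn ℤ a d = -1) :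
    ∃ φ, SR b U (NN P x) φ (fun a => ⟨wv P x a 1, hTi_wN a 1⟩) (Nat.card K) := by
  obtain ⟨φ, h1, -, h3⟩ := h.hom hK
  have e := h.tor' hK hU
  have eU : ∀ g, g ∈ U ↔ g ∈ UU x b := fun g => by rw [← hU]; rfl
  have tN : ∀ t ∈ TT P x, t ∈ NN P x := fun t ht => T_le ht
  refine ⟨φ, sym, fun g => by rw [e]; exact h3 g, fun a => h.act_uq hK (h1 _) (h.act_w a 1),
    fun Q q0 q1 g => ?_, fun g a => ?_, fun a => ?_, fun a ha g hp => ?_, fun a ha u hu => ?_,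
    fun a ha => ?_, fun δ d1 d2 => ?_⟩
  · refine h.gen_up hK (fun y => ∀ hy : y ∈ NN P x, Q ⟨y, hy⟩) (fun t ht hy => q0 _ (e ▸ ht))
      (fun a ha y hy τ k hp ih _ => ?_) g g.2 g.2
    have c : φ ⟨y, hy⟩ = τ := h.act_uq hK (h1 _) k
    exact q1 a ha ⟨y, hy⟩ (c ▸ hp) (ih hy)
  · obtain ⟨t, ht, c⟩ := h.w_cj nb (h1 g) a
    exact ⟨⟨t, tN t ht⟩, e ▸ ht, Subtype.ext c⟩
  · obtain ⟨t, ht, c⟩ := h.w_ng' nb a
    exact ⟨⟨t, tN t ht⟩, e ▸ ht, Subtype.ext c⟩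
  · rw [hU]
    exact h.aa ha (h1 g) hp
  · obtain ⟨d, hd⟩ := nb a
    simp only [eU, e]
    exact h.one ha hd u ((eU u).1 hu)
  · rw [hU]
    exact h.qn hK ha
  · obtain ⟨ρ, r1, r2, r3⟩ := h.aut hK hU v sym nb δ d1 d2
    refine ⟨ρ, r1, fun g => h.act_uq hK (h1 _) (r2 g g.2 _ (h1 g)), fun a => ?_⟩
    obtain ⟨t, ht, c⟩ := r3 a
    exact ⟨⟨t, tN t ht⟩, e ▸ ht, Subtype.ext c⟩

theorem bFin_sl (hk : (k = 6 ∧ Ty b CartanMatrix.E₆) ∨ (k = 7 ∧ Ty b CartanMatrix.E₇) ∨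
    (k = 8 ∧ Ty b CartanMatrix.E₈)) : (∀ c d, P.pairingIn ℤ c d = P.pairingIn ℤ d c) ∧
      ∀ a, ∃ d, P.pairingIn ℤ a d = -1 := by
  obtain ⟨a, e, ha⟩ := dg_en hk
  have k6 : k = 6 ∨ k = 7 ∨ k = 8 := by omega
  refine ⟨xs_sym (b := b) fun c hc d hd => ?_, nb_of (b := b) fun c hc => ?_⟩
  · obtain ⟨i, hi, rfl⟩ := e.sur c hc
    obtain ⟨j, hj, rfl⟩ := e.sur d hd
    rw [ha i j hi hj, ha j i hj hi]
    unfold eC
    split_ifs <;> omega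
  · obtain ⟨i, hi, rfl⟩ := e.sur c hc
    have : ∀ i, i < k → ∃ j, j < k ∧ eC k i j = -1 := by
      rcases k6 with rfl | rfl | rfl <;> decide
    obtain ⟨j, hj, c⟩ := this i hi
    exact ⟨a j, (ha i j hi hj).trans c⟩

/-- the two routes for one Chevalley datum. -/
theorem Chv.ind (h : Chv x b) (hp : p.Prime) (h2 : p ≠ 2) (hq : p ∣ Nat.card K - 1)
    (h3 : p = 3 → 9 ∣ Nat.card K - 1)
    (ht : Ty b CartanMatrix.G₂ ∨ Ty b CartanMatrix.F₄ ∨ Ty b CartanMatrix.E₆ ∨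
      Ty b CartanMatrix.E₇ ∨ Ty b CartanMatrix.E₈) :
    (∃ R : Sylow p X, (R : Subgroup X) ≤ NN P x) ∧
      ∀ R : Sylow p X, (R : Subgroup X) ≤ NN P x → NSV.IndN p X R (NN P x) := by
  have := Fact.mk hp
  obtain ⟨r, hr⟩ := CharP.exists K
  have : Fact r.Prime := ⟨CharP.char_is_prime K r⟩
  have hK : Big K := big3 hp h2 hq h3
  obtain ⟨U, hU⟩ := h.syl hK r
  have v : BV p U (NN P x) := h.bv3 hU hp h2 hq h3
  have e := h.tor' hK hU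
  have u0 : (U : Subgroup X) ≠ ⊥ := fun c => by
    obtain ⟨a, ha⟩ : ∃ a, a ∈ b.support := by
      rcases ht with ⟨e, -⟩ | ⟨e, -⟩ | ⟨e, -⟩ | ⟨e, -⟩ | ⟨e, -⟩ <;> exact ⟨_, (e 0).2⟩
    have m : x a 1 ∈ UU x b :=
      Subgroup.subset_closure ⟨a, RootPairing.Base.isPos_of_mem_support ha, 1, rfl⟩
    rw [← hU, c] at m
    exact one_ne_zero (h.inj a 1 m)
  have ho : ∀ c, p ^ c ∣ Nat.card K - 1 → ∀ u ∈ U, u ≠ 1 →
      p ^ c ∣ (Subgroup.centralizer {u}).relIndex (Tor U (NN P x)) := fun c hc u hu h1 => by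
    rw [e]
    exact h.orb hK hp h2 hc (by rwa [← hU]) h1
  have ix : (Tor U (NN P x)).relIndex (NN P x) = Nat.card P.weylGroup := by rw [e, h.idx hK]
  have p5 : p = 3 ∨ 5 ≤ p := by
    have := hp.two_le
    have n4 : p ≠ 4 := by rintro rfl; norm_num at hp
    omega
  have two : ∀ {m : ℕ} {C : Matrix (Fin m) (Fin m) ℤ}, Ty b C → 0 < m → m ≤ 4 →
      ¬ 3 ^ 4 ∣ ∏ i : Fin m, (2 ^ m - 2 ^ (i : ℕ)) → (∃ R : Sylow p X, (R : Subgroup X) ≤ NN P x) ∧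
      ∀ R : Sylow p X, (R : Subgroup X) ≤ NN P x → NSV.IndN p X R (NN P x) := fun c m0 m4 d => by
    have : Nonempty ι := ⟨c.choose ⟨0, m0⟩⟩
    obtain ⟨k, a, en⟩ := en_ex b
    rcases p5 with rfl | p5
    · exact (h.ts hK hU en).two v h2 u0 two_pos (ho 2 (h3 rfl))
        (by rw [ix]; exact fun k => d (wy_gl c hp h2 k))
    · exact (h.ts hK hU en).two v h2 u0 one_pos (ho 1 (by rwa [pow_one]))
        (by rw [ix]; exact wy_sq c hp (by omega))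
  have sl : ∀ {m : ℕ} {C : Matrix (Fin m) (Fin m) ℤ}, Ty b C → m ≤ 8 →
      ((m = 6 ∧ Ty b CartanMatrix.E₆) ∨ (m = 7 ∧ Ty b CartanMatrix.E₇) ∨
        (m = 8 ∧ Ty b CartanMatrix.E₈)) → ¬ 3 ^ 6 ∣ ∏ i : Fin m, (2 ^ m - 2 ^ (i : ℕ)) →
      ¬ 5 ^ 4 ∣ ∏ i : Fin m, (2 ^ m - 2 ^ (i : ℕ)) → (∃ R : Sylow p X, (R : Subgroup X) ≤ NN P x) ∧
      ∀ R : Sylow p X, (R : Subgroup X) ≤ NN P x → NSV.IndN p X R (NN P x) :=
    fun c m8 t d3 d5 => by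
    obtain ⟨sym, nb⟩ := bFin_sl t
    obtain ⟨φ, s⟩ := h.sr hK hU v sym nb
    have md : ∀ n, n ∣ Nat.card K - 1 → Nat.card K ≡ 1 [MOD n] := fun n hn =>
      ((Nat.modEq_iff_dvd' Nat.card_pos).2 hn).symm
    rcases p5 with rfl | p5
    · exact s.ind (c := 2) (e := 3) v h2 u0 (md _ (h3 rfl)) (ho 2 (h3 rfl)) (by omega)
        (.inl (by omega)) (by rw [ix]; exact fun k => d3 (wy_gl c hp h2 k))
    · refine s.ind (c := 1) (e := 2) v h2 u0 (md _ (by rwa [pow_one])) (ho 1 (by rwa [pow_one]))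
        two_pos (.inr ⟨by omega, rfl⟩) ?_
      rw [ix]
      by_cases p7 : p = 5
      · subst p7
        exact fun k => d5 (wy_gl c hp h2 k)
      · have n6 : p ≠ 6 := by rintro rfl; norm_num at hp
        exact fun k => wy_sq c hp (by omega) ((pow_dvd_pow p (by omega)).trans k)
  rcases ht with c | c | c | c | c
  · exact two c (by omega) (by omega) (by decide)
  · exact two c (by omega) (by omega) (by decide)
  · exact sl c (by omega) (.inl ⟨rfl, c⟩) (by decide) (by decide)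
  · exact sl c (by omega) (.inr (.inl ⟨rfl, c⟩)) (by decide) (by decide)
  · exact sl c (by omega) (.inr (.inr ⟨rfl, c⟩)) (by decide) (by decide)

end

theorem Ecg.ind {p : ℕ} (hp : p.Prime) (h2 : p ≠ 2) {X : Type} [Group X] [Finite X] (h : Ecg p X)
    (R : Sylow p X) : ∃ N, NSV.IndN p X R N := by
  have := Fact.mk hp
  obtain ⟨ι, M, N, K, _, _, _, _, P, _, _, _, _, b, _, _, x, h, hq, h3, ht⟩ := h
  obtain ⟨R₀, hR⟩ := (h.ind hp h2 hq h3 ht).1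
  obtain ⟨g, hg⟩ := MulAction.exists_smul_eq X R₀ R
  refine ⟨_, ((h.map (MulAut.conj g)).1.ind hp h2 hq h3 ht).2 R ?_⟩
  rw [← hg, (h.map (MulAut.conj g)).2]
  exact Subgroup.map_mono hR

end Pool.Agent.Lib.MP_1ae3da_al.JV
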