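import Pool.Agent.Lib.MP_1ae3da_al.B.Tp
import Pool.Agent.Lib.MP_1ae3da_al.E.Lt2

/-! The natural homomorphism close to a given family. -/

namespace Pool.Agent.Lib.MP_1ae3da_al

namespace CT.Z
open Submodule

theorem Nb.newton {F k X : Type} [Field F] [Field k] [Group X] [Finite X] {U D N : Subgroup X}
    {p c w m : ℕ} {O R : Subring F} {r : F → k} {GG : Subgroup (RingAut F)}
    {b : N → MonoidAlgebra F X} (hb : Nb O p c U D N b) (hP : PM p O R r GG) (h2 : p ≠ 2)
    (h : Pg p 1 U D) (hN : Subgroup.normalizer (D : Set X) = N) (hm : ¬ p ∣ m)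
    (hi : ((Subgroup.normalizer (U : Set X)).subgroupOf N).index = p ^ w * m) (hc : w < c) :
    ∃ Θ : N → MonoidAlgebra F X, (∀ x y, Θ (x * y) = Θ x * Θ y) ∧
      (∀ x, Θ x - an F U x ∈ Lk F p 1 (La O U D)) ∧
      (∀ t : N, (t : X) ∈ Subgroup.normalizer (U : Set X) → Θ t = an F U t) ∧
      ∀ (σ : RingAut F) (γ : RingAut (MonoidAlgebra F X)) (δ : N ≃* N), SL F σ γ →
        (∀ y ∈ La O U D, γ y ∈ La O U D) → (∀ x, γ (b x) = b (δ x)) →
          ∀ x, γ (Θ x) = Θ (δ x) := by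
  classical
  have := hP.charF
  have hp := hP.prime.ne_zero
  obtain ⟨l, hl⟩ := am_lin (gu_tg (F := F) (X := N)).ind b
  have top : span F (Set.range (gu F N)) = ⊤ := by rw [← span_Hm_top, gu_span]
  obtain ⟨inj, rg⟩ := hb.inj hP h hN hl
  have hT := hb.tp hP h hN hl
  obtain ⟨g, hg⟩ := l.exists_leftInverse_of_injective (LinearMap.ker_eq_bot.2 inj)
  replace hg : ∀ x, g (l x) = x := fun x => LinearMap.congr_fun hg x
  have lg : ∀ z ∈ LinearMap.range l, l (g z) = z := by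
    rintro _ ⟨x, rfl⟩
    rw [hg]
  have lr : ∀ z ∈ La O U D, z ∈ LinearMap.range l := fun z hz => (rg z).2 (by
    rw [(JM.eLt_la h.nrm hz).1, (JM.eLt_la h.nrm hz).2])
  let μ := ((LinearMap.mul F (MonoidAlgebra F X)).compl₁₂ l l).compr₂ g
  have hμ : ∀ x y, l (μ x y) = l x * l y := fun x y => by
    refine lg _ ((rg _).2 ?_)
    have e1 := (rg _).1 ⟨x, rfl⟩
    have e2 := (rg _).1 ⟨y, rfl⟩
    change Z.av F U * (l x * l y) * Z.av F U = l x * l y
    rw [← e1, ← e2]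
    simp only [mul_assoc, av_idem]
    rw [← mul_assoc (Z.av F U) (Z.av F U), av_idem]
  have hL := hT.lt
  have lk := zXh_lk hp l (La O U D)
  have hG : Gb F p ((La O U D).comap l.toAddMonoidHom) (gu F N) := by
    refine ⟨⟨fun x hx y hy => ?_, fun n hn x hx => ?_, fun x hx => ?_, fun x hx => ?_⟩,
      inferInstance, gu_mul, gu_one, top, hT.mem⟩
    · change l (x * y) ∈ La O U D
      simpa using sub_mem (hL.mul _ hx _ hy) (Lk_le (hT.df x y hx hy))
    · change l _ ∈ La O U D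
      rw [map_smul]
      exact hL.inv n hn _ hx
    · obtain ⟨y, hy⟩ := hL.cpl (fun k => l (x k)) fun k => by
        rw [← map_sub]
        exact (lk _ _).1 (hx k)
      obtain ⟨z, hz⟩ : y ∈ LinearMap.range l := by
        simpa using add_mem (lr _ (Lk_le (hy 0))) (LinearMap.mem_range_self l (x 0))
      exact ⟨z, fun k => (lk _ _).2 (by rw [map_sub, hz]; exact hy k)⟩
    · exact inj ((hL.sep _ fun k => (lk _ _).1 (hx k)).trans (map_zero l).symm)
  have ex : ∀ t ∈ (Subgroup.normalizer (U : Set X)).subgroupOf N, Exb (gu F N) μ t :=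
    fun t ht x => ⟨inj ((hμ _ _).trans (hT.ex t ht x).1.symm),
      inj ((hμ _ _).trans (hT.ex t ht x).2.symm)⟩
  have hA : Aq p c ((La O U D).comap l.toAddMonoidHom)
      ((Subgroup.normalizer (U : Set X)).subgroupOf N) (gu F N) μ :=
    ⟨fun x y z => inj (by simp only [hμ, mul_assoc]),
      fun x hx y hy => (lk _ _).2 (by rw [map_sub, hμ]; exact hT.df x y hx hy), ex⟩
  obtain ⟨Θ, h1, h3, h4, h5⟩ := xl_lim hP.prime h2 hG hi hm hc hA
  refine ⟨fun x => l (Θ x), fun x y => (congrArg l (h1 x y)).trans (hμ _ _), fun x => ?_,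
    fun t ht => ((congrArg l (h4 t (ex t ht))).trans (hl t)).trans (hb.ex t ht).2,
    fun σ γ δ s1 s2 s3 x => ?_⟩
  · have k := (lk _ _).1 (h3 x)
    rw [map_sub, hl] at k
    simpa using add_mem k (hb.cl x)
  obtain ⟨γ', t1, t2⟩ := ga_aut (F := F) σ δ
  have e : ∀ a, l (γ' a) = γ (l a) := fun a =>
    gu_ext σ ⊤ (l.toAddMonoidHom.comp γ'.toAddMonoidHom) (γ.toAddMonoidHom.comp l.toAddMonoidHom)
      (fun c a => by
        change l (γ' (c • a)) = σ c • l (γ' a)
        rw [t1, map_smul])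
      (fun c a => by
        change γ (l (c • a)) = σ c • γ (l a)
        rw [map_smul, s1])
      (fun x _ => by
        change l (γ' (gu F _ x)) = γ (l (gu F _ x))
        rw [t2, hl, hl, s3]) a (gu_span.ge trivial)
  rw [← e, h5 σ γ' δ ⟨t1, t2, fun x y => inj (by simp only [e, hμ, map_mul])⟩ fun y hy => ?_]
  change l (γ' y) ∈ La O U D
  rw [e]
  exact s2 _ hy

end CT.Z

namespace JM
open SLI CT CT.Z

variable {p r c : ℕ} {X : Type} [Group X] [Finite X] [hp : Fact p.Prime] [hr : Fact r.Prime]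
  {U : Sylow r X} {N : Subgroup X} {F κ : Type} [Field F] [Field κ]
  {O R : Subring F} {ρ : F → κ} {GG : Subgroup (RingAut F)}

theorem BV.cor_nb (h : BV p U N) (hP : PM p O R ρ GG) (h2 : p ≠ 2) {b : N → MonoidAlgebra F X}
    (hb : Nb O p c (U : Subgroup X) h.D N b) (hw : ¬ p ^ c ∣ (Tor U N).relIndex N)
    (h3 : ∀ σ ∈ GG, ∀ γ : RingAut (MonoidAlgebra F X), SL F σ γ → ∀ δ : MulAut X,
      (∀ x, γ (gu F X x) = gu F X (δ x)) → (∀ x, δ x ∈ U ↔ x ∈ U) →
      ∀ hN : ∀ x, δ x ∈ N ↔ x ∈ N, ∀ x, γ (b x) = b (resA N δ hN x)) :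
    ∃ Θ, Cor (Ga GG h.D) N (av F U) Θ := by
  have := hP.charF
  obtain ⟨w, m, hm, hi⟩ := Nat.exists_eq_pow_mul_and_not_dvd
    (n := (Tor U N).relIndex N) Subgroup.index_ne_zero_of_finite p hp.out.ne_one
  have hc : w < c := by
    by_contra k
    exact hw (hi ▸ (pow_dvd_pow p (not_lt.1 k)).mul_right m)
  have hi' : ((Subgroup.normalizer ((U : Subgroup X) : Set X)).subgroupOf N).index = p ^ w * m := by
    rw [← hi, Subgroup.inf_relIndex_left]
    rfl
  obtain ⟨Θ, h1, k2, k3, k4⟩ := hb.newton hP h2 h.pg h.norm_eq hm hi' hc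
  have m2 : ∀ t : N, (t : X) ∈ Subgroup.normalizer ((U : Subgroup X) : Set X) →
      Θ t = gu F X t * av F (U : Subgroup X) := fun t ht => (k3 t ht).trans (an_nrm ht)
  refine h.cor Θ h1 (fun t ht => m2 t ht.2) (fun x _ => ?_) ?_
  · rw [an]
    exact eLt2_bas hP h.pg h.norm_eq h1 k2 m2 (gu F X x)
  · intro σ hσ γ hγ δ hδ hU hN x y e
    have k5 := (hk_map (D := h.D) hP hσ hγ hδ (fun x => and_congr (map_T δ hU hN x)
      (exists_congr fun k => by rw [← map_pow, MulEquiv.map_eq_one_iff])) hU).2.2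
    rw [show y = resA N δ hN x from Subtype.ext e]
    exact k4 σ γ (resA N δ hN) hγ k5 (h3 σ hσ γ hγ δ hδ hU hN) x

end JM

end Pool.Agent.Lib.MP_1ae3da_al
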