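import Pool.Agent.Lib.MP_1ae3da_al.B.Rd
import Pool.Agent.Lib.MP_1ae3da_al.H.Xs

/-! The recursion for the sum over the subsystems of type `A₂`. -/

namespace Pool.Agent.Lib.MP_1ae3da_al.JV

variable {ι M N B : Type} [AddCommGroup M] [Module ℚ M] [AddCommGroup N] [Module ℚ N]
  {P : RootPairing ι ℚ M N} [P.IsCrystallographic] [Fintype ι] [P.IsReduced] [P.IsRootSystem]
  [Ring B]
  {b : P.Base} {u : ι → B} {σ : P.Aut} {a : ι}

omit [P.IsRootSystem] in
theorem bRr_rng (h : Hol P u) (c a : ι) :
    c = a ∨ c = ng P a ∨ (-1 ≤ P.pairingIn ℤ c a ∧ P.pairingIn ℤ c a ≤ 1) := by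
  by_contra! k
  have q := P.pairingIn_pairingIn_mem_set_of_isCrystal_of_isRed' c a
    (fun e => k.1 (P.root.injective e)) fun e => k.2.1 (P.root.injective (by rw [hRl_ng, e]))
  rw [h.sym a c] at q
  have := k.2.2
  simp only [Set.mem_insert_iff, Set.mem_singleton_iff, Prod.mk.injEq] at q
  omega

omit [Fintype ι] [P.IsReduced] [P.IsRootSystem] in
theorem bRr_rt (a c : ι) :
    P.root (P.reflectionPerm a c) = P.root c - P.pairingIn ℤ c a • P.root a := by
  rw [P.root_reflectionPerm, P.reflection_apply_root' ℤ]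

omit [P.IsRootSystem] in
theorem bRr_key (h : Hol P u) (a c d : ι) : P.root d = P.root c + P.root a ↔
    P.pairingIn ℤ c a = -1 ∧ d = P.reflectionPerm a c := by
  refine ⟨fun e => ?_, fun ⟨e, k⟩ => by rw [k, bRr_rt, e, neg_smul, one_smul, sub_neg_eq_add]⟩
  have q : P.pairingIn ℤ d a = P.pairingIn ℤ c a + P.pairingIn ℤ a a :=
    P.pairingIn_eq_add_of_root_eq_add e
  rw [P.pairingIn_same] at q
  have z : P.pairingIn ℤ c a = -1 := by
    have n1 : d ≠ a := fun k => P.ne_zero c (by rw [k] at e; simpa using e)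
    have n2 : c ≠ ng P a := fun k => P.ne_zero d (by rw [e, k, hRl_ng, neg_add_cancel])
    rcases bRr_rng h c a with k | k | k
    · rcases bRr_rng h d a with l | l | l
      · exact absurd l n1
      · rw [l, k] at q
        simp at q
      · rw [k, P.pairingIn_same] at q
        omega
    · exact absurd k n2
    · rcases bRr_rng h d a with l | l | l
      · exact absurd l n1
      · rw [l, P.pairingIn_reflectionPerm_self_left, P.pairingIn_same] at q
        omega
      · omega
  exact ⟨z, P.root.injective (by rw [bRr_rt, z, neg_smul, one_smul, sub_neg_eq_add, e])⟩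

omit [P.IsRootSystem] in
theorem bRr_key' (h : Hol P u) (a c d : ι) : P.root d = P.root c + P.root (ng P a) ↔
    P.pairingIn ℤ c a = 1 ∧ d = P.reflectionPerm a c := by
  have e : P.reflectionPerm (ng P a) c = P.reflectionPerm a c := P.root.injective (by
    rw [bRr_rt (ng P a), hRl_ng, bRr_rt a c, P.pairingIn_reflectionPerm_self_right, neg_smul,
      smul_neg, neg_neg])
  rw [bRr_key h, e, P.pairingIn_reflectionPerm_self_right, neg_inj]

theorem bRr_col {α β : Type} [Fintype α] [AddCommMonoid β] (e f : α) {Q R : Prop}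
    {E : α → α → Prop} {F : α → α → β} {G : β} [∀ x y, Decidable (x = e ∧ Q ∧ E x y)]
    [Decidable (Q ∧ R)] (hE : ∀ y, E e y ↔ R ∧ y = f) (hG : Q → R → F e f = G) :
    (∑ y, ∑ x, if x = e ∧ Q ∧ E x y then F x y else 0) = if Q ∧ R then G else 0 := by
  have n : ∀ y, (∑ x, if x = e ∧ Q ∧ E x y then F x y else 0) =
      if e = e ∧ Q ∧ E e y then F e y else 0 := fun y =>
    Finset.sum_eq_single e (fun d _ k => if_neg fun l => k l.1) (by simp)
  simp only [n]
  rw [Finset.sum_eq_single f (fun d _ k => if_neg fun l => k ((hE d).1 l.2.2).2) (by simp)]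
  by_cases k : Q ∧ R
  · rw [if_pos k, if_pos ⟨rfl, k.1, (hE f).2 ⟨k.2, rfl⟩⟩, hG k.1 k.2]
  · rw [if_neg k, if_neg fun l => k ⟨l.2.1, ((hE f).1 l.2.2).1⟩]

open Classical in
theorem bRr_inv (h : Hol P u) (ha : a ∈ b.support) (hp : b.IsPos (ac P σ⁻¹ a)) (w : ι → B)
    (hw : ∀ c, w c = u a * u c - u c * u a) (J : ι → Prop)
    (hJ : ∀ c, J c ↔ Iv b σ (P.reflectionPerm a c)) :
    (∑ c, if b.IsPos c ∧ P.pairingIn ℤ c a = -1 then
        (if J (P.reflectionPerm a c) then -w c else w c) else 0) +
      (∑ c, if J c ∧ P.pairingIn ℤ c a = -1 then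
        (if J (P.reflectionPerm a c) then w c else -w c) else 0) -
      (∑ c, if J c ∧ P.pairingIn ℤ c a = 1 then
        (if J (P.reflectionPerm a c) then w c else -w c) else 0) =
      (∑ c, if b.IsPos c ∧ P.pairingIn ℤ c a = -1 then w c else 0) +
        3 • ∑ c, if J c then w c else 0 := by
  have pa := b.isPos_of_mem_support ha
  have na : ¬ b.IsPos (ng P a) := by
    have k : b.height (ng P a) = -b.height a := b.height_reflectionPerm_self a
    rw [b.isPos_iff] at pa ⊢
    omega
  have ss : ∀ c, P.reflectionPerm a (P.reflectionPerm a c) = c := P.reflectionPerm_self a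
  have ia : ¬ Iv b σ a := fun k => k.2 hp
  have ws : ∀ c, w (P.reflectionPerm a c) = -w c := fun c => by
    have := (h.cm a c).eq
    rw [hw, hw, eq_neg_iff_add_eq_zero, ← sub_eq_zero.2 this]
    noncomm_ring
  have ps : ∀ c, P.pairingIn ℤ (P.reflectionPerm a c) a = -P.pairingIn ℤ c a := fun c => by
    rw [hCt_pr, P.pairingIn_same]
    ring
  have jp : ∀ c, J c → b.IsPos c := fun c k => by
    have k := (hJ c).1 k
    rw [← ss c]
    exact k.1.reflectionPerm ha fun e => ia (e ▸ k)
  rw [← sub_eq_zero, Finset.smul_sum]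
  simp only [← Finset.sum_add_distrib, ← Finset.sum_sub_distrib]
  have main : ∀ (F : ι → B), (∀ c, P.pairingIn ℤ c a = -1 → F c + F (P.reflectionPerm a c) = 0) →
      (∀ c, P.pairingIn ℤ c a ≠ -1 → P.pairingIn ℤ c a ≠ 1 → F c = 0) → ∑ c, F c = 0 := by
    intro F h1 h2
    refine Finset.sum_involution (fun c _ => P.reflectionPerm a c) (fun c _ => ?_)
      (fun c _ k e => k (h2 c ?_ ?_)) (by simp) fun c _ => ss c
    · by_cases k1 : P.pairingIn ℤ c a = -1
      · exact h1 c k1
      by_cases k2 : P.pairingIn ℤ c a = 1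
      · have := h1 (P.reflectionPerm a c) (by rw [ps, k2])
        rwa [ss, add_comm] at this
      rw [h2 c k1 k2, h2 _ (by rw [ps]; omega) (by rw [ps]; omega), add_zero]
    all_goals
      have := ps c
      rw [e] at this
      omega
  refine main _ (fun c k => ?_) fun c k1 k2 => ?_
  · have k' : P.pairingIn ℤ (P.reflectionPerm a c) a = 1 := by rw [ps, k, neg_neg]
    have ij : J c → J (P.reflectionPerm a c) := fun j => by
      rw [hJ, ss]
      exact (iv_add pa (jp c j) (by rw [add_comm]; exact (bRr_key h a c _).2 ⟨k, rfl⟩)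
        ((hJ c).1 j)).resolve_left ia
    have pj : J (P.reflectionPerm a c) → b.IsPos c := fun j => by
      rw [hJ, ss] at j
      exact j.1
    simp only [k, k', ss, ws]
    by_cases j : J (P.reflectionPerm a c)
    · by_cases i : J c <;> simp [i, j, pj j]
      all_goals noncomm_ring
    · have i : ¬ J c := fun i => j (ij i)
      simp [i, j]
  · simp only [k1, k2, and_false, if_false]
    by_cases j : J c
    · rcases bRr_rng h c a with k | k | k
      · exact absurd ((hJ c).1 j).1 (k ▸ na)
      · exact absurd (jp c j) (k ▸ na)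
      · rw [hw, (h.ort a c (by omega)).eq]
        simp
    · simp [j]

theorem rt_R (h : Hol P u) (ha : a ∈ b.support) (hp : b.IsPos (ac P σ⁻¹ a)) :
    RR b u (RootPairing.Equiv.reflection P a * σ) =
      RR b u (RootPairing.Equiv.reflection P a) + RR b (fun c => u (P.reflectionPerm a c)) σ +
        3 • (u a * DD b (fun c => u (P.reflectionPerm a c)) σ -
          DD b (fun c => u (P.reflectionPerm a c)) σ * u a) := by
  classical
  have pa := b.isPos_of_mem_support ha
  have na : ¬ b.IsPos (ng P a) := by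
    have k : b.height (ng P a) = -b.height a := b.height_reflectionPerm_self a
    rw [b.isPos_iff] at pa ⊢
    omega
  have ss : ∀ c, P.reflectionPerm a (P.reflectionPerm a c) = c := P.reflectionPerm_self a
  have ia : ¬ Iv b σ a := fun k => k.2 hp
  obtain ⟨J, hJ⟩ : ∃ J : ι → Prop, ∀ c, J c ↔ Iv b σ (P.reflectionPerm a c) := ⟨_, fun _ => Iff.rfl⟩
  obtain ⟨w, hw⟩ : ∃ w : ι → B, ∀ c, w c = u a * u c - u c * u a := ⟨_, fun _ => rfl⟩
  have jp : ∀ c, J c → b.IsPos c := fun c k => by
    have k := (hJ c).1 k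
    rw [← ss c]
    exact k.1.reflectionPerm ha fun e => ia (e ▸ k)
  have ja : ¬ J a := fun j => na ((hJ a).1 j).1
  have da : ∀ {x c d}, b.IsPos x → b.IsPos c → P.root d = P.root x + P.root c → d ≠ a := by
    intro x c d hx hc e k
    have := b.height_add e
    rw [k, b.height_one_of_mem_support ha] at this
    rw [b.isPos_iff] at hx hc
    omega
  have sp : ∀ c, b.IsPos (P.reflectionPerm a c) ↔ (b.IsPos c ∧ c ≠ a) ∨ c = ng P a := fun c => by
    refine ⟨fun k => ?_, fun k => k.elim (fun k => k.1.reflectionPerm ha k.2) fun k => ?_⟩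
    · by_cases e : P.reflectionPerm a c = a
      · exact Or.inr (by rw [← ss c, e])
      · exact Or.inl ⟨ss c ▸ k.reflectionPerm ha e, fun l => na (l ▸ k)⟩
    · rw [k, ss]
      exact pa
  obtain ⟨T, hT⟩ : ∃ T : ι → ι → ι → B, ∀ x c d, T x c d =
      if J d then u c * u x - u x * u c else u x * u c - u c * u x := ⟨_, fun _ _ _ => rfl⟩
  have e2 : RR b (fun c => u (P.reflectionPerm a c)) σ = ∑ x, ∑ c, ∑ d,
      if J x ∧ b.IsPos (P.reflectionPerm a c) ∧ P.root d = P.root x + P.root c then T x c d
      else 0 := by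
    unfold RR
    rw [← Equiv.sum_comp (P.reflectionPerm a)]
    refine Finset.sum_congr rfl fun x _ => ?_
    rw [← Equiv.sum_comp (P.reflectionPerm a)]
    refine Finset.sum_congr rfl fun c _ => ?_
    rw [← Equiv.sum_comp (P.reflectionPerm a)]
    refine Finset.sum_congr rfl fun d _ => ?_
    have : P.root (P.reflectionPerm a d) = P.root (P.reflectionPerm a x) +
        P.root (P.reflectionPerm a c) ↔ P.root d = P.root x + P.root c := by
      simp only [P.root_reflectionPerm, ← map_add, EmbeddingLike.apply_eq_iff_eq]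
    simp only [ss, hT, hJ, this]
  have eD : DD b (fun c => u (P.reflectionPerm a c)) σ = ∑ c, if J c then u c else 0 := by
    unfold DD
    rw [← Equiv.sum_comp (P.reflectionPerm a)]
    simp only [ss, hJ]
  have e0 : RR b u (RootPairing.Equiv.reflection P a) =
      ∑ c, if b.IsPos c ∧ P.pairingIn ℤ c a = -1 then w c else 0 := by
    unfold RR
    rw [Finset.sum_comm]
    refine Finset.sum_congr rfl fun c _ => ?_
    rw [Finset.sum_comm]
    simp only [iv_s ha]
    refine bRr_col a (P.reflectionPerm a c) (fun d => by rw [add_comm, bRr_key h]) fun k l => ?_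
    rw [if_neg (da k pa ((bRr_key h a c _).2 ⟨l, rfl⟩)), hw]
  have e1 : RR b u (RootPairing.Equiv.reflection P a * σ) = ∑ x, ∑ c, ∑ d,
      ((if J x ∧ b.IsPos (P.reflectionPerm a c) ∧ P.root d = P.root x + P.root c then T x c d
        else 0) + ((if x = a ∧ b.IsPos c ∧ P.root d = P.root x + P.root c then T x c d else 0) +
        (if c = a ∧ J x ∧ P.root d = P.root x + P.root c then T x c d else 0) -
        (if c = ng P a ∧ J x ∧ P.root d = P.root x + P.root c then T x c d else 0))) := by
    unfold RR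
    refine Finset.sum_congr rfl fun x _ => Finset.sum_congr rfl fun c _ =>
      Finset.sum_congr rfl fun d _ => ?_
    simp only [iv_mul ha hp, ← hJ, sp]
    by_cases e : P.root d = P.root x + P.root c
    swap
    · simp [e]
    have an : a ≠ ng P a := fun k => na (k ▸ pa)
    by_cases hx : x = a
    · subst hx
      by_cases hc : b.IsPos c
      · simp [e, ja, hc, hT, da pa hc e]
      · simp [ja, hc]
    by_cases j : J x
    swap
    · simp [hx, j]
    by_cases hc : b.IsPos c
    · have cn : c ≠ ng P a := fun k => na (k ▸ hc)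
      by_cases ca : c = a
      · subst ca
        simp [e, hx, j, hc, hT, da (jp x j) hc e, cn]
      · simp [e, hx, j, hc, hT, da (jp x j) hc e, cn, ca]
    · have ca : c ≠ a := fun k => hc (k ▸ pa)
      simp [hx, j, hc, ca, e]
  have eX : (∑ x, ∑ c, ∑ d, if x = a ∧ b.IsPos c ∧ P.root d = P.root x + P.root c then T x c d
      else 0) = ∑ c, if b.IsPos c ∧ P.pairingIn ℤ c a = -1 then
        (if J (P.reflectionPerm a c) then -w c else w c) else 0 := by
    rw [Finset.sum_comm]
    refine Finset.sum_congr rfl fun c _ => ?_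
    rw [Finset.sum_comm]
    exact bRr_col a (P.reflectionPerm a c) (fun d => by rw [add_comm, bRr_key h]) fun _ _ => by
      rw [hT, hw, neg_sub]
  have eY : (∑ x, ∑ c, ∑ d, if c = a ∧ J x ∧ P.root d = P.root x + P.root c then T x c d
      else 0) = ∑ c, if J c ∧ P.pairingIn ℤ c a = -1 then
        (if J (P.reflectionPerm a c) then w c else -w c) else 0 := by
    refine Finset.sum_congr rfl fun c _ => ?_
    rw [Finset.sum_comm]
    exact bRr_col a (P.reflectionPerm a c) (bRr_key h a c) fun _ _ => by rw [hT, hw, neg_sub]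
  have eZ : (∑ x, ∑ c, ∑ d, if c = ng P a ∧ J x ∧ P.root d = P.root x + P.root c then T x c d
      else 0) = ∑ c, if J c ∧ P.pairingIn ℤ c a = 1 then
        (if J (P.reflectionPerm a c) then w c else -w c) else 0 := by
    refine Finset.sum_congr rfl fun c _ => ?_
    rw [Finset.sum_comm]
    exact bRr_col (ng P a) (P.reflectionPerm a c) (bRr_key' h a c) fun _ _ => by
      rw [hT, hw, neg_sub, h.neg]
  have eW : u a * (∑ c, if J c then u c else 0) - (∑ c, if J c then u c else 0) * u a =
      ∑ c, if J c then w c else 0 := by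
    rw [Finset.mul_sum, Finset.sum_mul, ← Finset.sum_sub_distrib]
    refine Finset.sum_congr rfl fun c _ => ?_
    split_ifs <;> simp [hw]
  rw [e1, eD, eW, e0, e2]
  simp only [Finset.sum_add_distrib, Finset.sum_sub_distrib]
  rw [eX, eY, eZ, bRr_inv h ha hp w hw J hJ]
  abel

end Pool.Agent.Lib.MP_1ae3da_al.JV
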