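import Pool.Agent.Lib.MP_1ae3da_al.B.Br
import Pool.Agent.Lib.MP_1ae3da_al.B.Nw
import Pool.Agent.Lib.MP_1ae3da_al.E.Tq

/-! The inductive condition for Tits systems with `v_p |W| < 2 c`. -/

namespace Pool.Agent.Lib.MP_1ae3da_al.JM

open SLI CT CT.Z

variable {p r c k : ℕ} {X : Type} [Group X] [Finite X] [hp : Fact p.Prime] [hr : Fact r.Prime]
  {U : Sylow r X} {N : Subgroup X} {n : ℕ → X} {F κ : Type} [Field F] [CharZero F] [Field κ]
  {O R : Subring F} {ρ : F → κ} {GG : Subgroup (RingAut F)}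

theorem BV.pgc (h : BV p U N) (hc : 0 < c)
    (ho : ∀ u ∈ U, u ≠ 1 → p ^ c ∣ (Subgroup.centralizer {u}).relIndex (Tor U N)) :
    Pg p c (U : Subgroup X) h.D := by
  have g := h.pg
  refine ⟨g.prime, hc, g.pU, g.pD, g.ab, g.nrm, g.bru, fun u hu h1 => ?_, g.aut⟩
  have h3 := Subgroup.relIndex_mul_relIndex (Subgroup.centralizer {u} ⊓ h.D) h.D (Tor U N)
    inf_le_right h.D_le
  rw [Subgroup.inf_relIndex_right] at h3
  have h4 := (ho u hu h1).trans (Subgroup.relIndex_dvd_of_le_left (Tor U N)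
    (inf_le_left : Subgroup.centralizer {u} ⊓ h.D ≤ _))
  rw [← h3] at h4
  exact (((Nat.Prime.coprime_iff_not_dvd hp.out).mpr h.not_dvd).pow_left c).dvd_of_dvd_mul_right h4

theorem BV.dfc (h : BV p U N) (hP : PM p O R ρ GG) (hc : 0 < c)
    (ho : ∀ u ∈ U, u ≠ 1 → p ^ c ∣ (Subgroup.centralizer {u}).relIndex (Tor U N)) (x y : N) :
    g4bn F (U : Subgroup X) x * g4bn F (U : Subgroup X) y - g4bn F (U : Subgroup X) (x * y : N) ∈
      Lk F p c (Lb O (U : Subgroup X) h.D) := by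
  obtain ⟨z, hz, e⟩ := hk_df hP (h.pgc hc ho) (h.N_le x.2) (h.N_le y.2)
  refine ⟨z, eLt_le hz, ?_⟩
  rw [← e, g4bn, g4bn, g4b_mul (av_an _).2 (av_an _).1, g4bn, add_sub_add_right_eq_sub,
    Subgroup.coe_mul]

theorem asc_of {s x : N} (a : AA (U : Subgroup X) s x) :
    Asc (fun x : N => g4bn F (U : Subgroup X) x) s x := by
  have a' : AA (U : Subgroup X) (x : X)⁻¹ (s : X)⁻¹ := fun u hu => by
    have := DC.inv (a u⁻¹ (inv_mem hu))
    have e1 : ((s : X) * u⁻¹ * x)⁻¹ = (x : X)⁻¹ * u * (s : X)⁻¹ := by group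
    rwa [e1, mul_inv_rev] at this
  refine ⟨?_, ?_⟩
  · simp only [Subgroup.coe_mul]
    exact eTq_bn a
  · simp only [Subgroup.coe_mul, Subgroup.coe_inv, mul_inv_rev]
    exact eTq_bn a'

/-- cutting down to the corner. -/
theorem BV.cut (h : BV p U N) {x y : MonoidAlgebra F X} (hy : y ∈ Lb O (U : Subgroup X) h.D) :
    x * av F (U : Subgroup X) * (y * av F (U : Subgroup X)) = x * y * av F (U : Subgroup X) ∧
      ∀ m, y ∈ Lk F p m (Lb O (U : Subgroup X) h.D) →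
        y * av F (U : Subgroup X) ∈ Lk F p m (La O (U : Subgroup X) h.D) := by
  refine ⟨?_, fun m hm => ?_⟩
  · rw [mul_assoc x, ← mul_assoc (av F (U : Subgroup X)), (h.lb_e y hy).1, mul_assoc y, av_idem,
      mul_assoc]
  · obtain ⟨z, hz, e⟩ := hm
    exact ⟨z * av F (U : Subgroup X), (h.lb_e z hz).2, by rw [e, smul_mul_assoc]⟩

theorem BV.nb (h : BV p U N) (hP : PM p O R ρ GG) (h2 : p ≠ 2) (hc : 0 < c)
    (ho : ∀ u ∈ U, u ≠ 1 → p ^ c ∣ (Subgroup.centralizer {u}).relIndex (Tor U N))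
    (S : Set N) (hS : ∀ s ∈ S, ((s * s : N) : X) ∈ Tor U N)
    (gen : ∀ Q : N → Prop, (∀ t : N, (t : X) ∈ Tor U N → Q t) → (∀ s ∈ S, ∀ x, Q x → Q (s * x)) →
      ∀ x, Q x)
    (dich : ∀ s ∈ S, ∀ x : N, AA (U : Subgroup X) s x ∨ AA (U : Subgroup X) s (s⁻¹ * x : N)) :
    Nb O p (2 * c) (U : Subgroup X) h.D N fun x =>
      bar F (fun x : N => g4bn F (U : Subgroup X) x) x * av F (U : Subgroup X) := by
  have B := h.bs hP
  have p2 : ¬ p ∣ 2 := fun e => h2 ((Nat.prime_dvd_prime_iff_eq hp.out Nat.prime_two).1 e)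
  have hd := h.dfc hP hc ho
  have m := B.dlt_mem p2 hd
  refine ⟨fun x => ?_, fun x y => ?_, fun t ht => ?_⟩
  · have e := bar_add (F := F) (fun x : N => g4bn F (U : Subgroup X) x) x
    rw [eq_sub_of_add_eq e, sub_mul, (eLt2_e _ _).2, sub_sub_cancel_left]
    exact neg_mem (Lk_anti hc ((h.cut (x := 1) (Lk_le (m x).1)).2 c (m x).1))
  · have e := B.bar_df p2 hd S hS (fun Q h0 h1 => gen Q (fun t ht => h0 t ht) h1)
      (fun s hs x => (dich s hs x).imp asc_of asc_of) x y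
    rw [(h.cut (m y).2).1, ← sub_mul]
    exact (h.cut (x := 1) (Lk_le e)).2 _ e
  · obtain ⟨e1, -, e3⟩ := B.bar_T (t := t) (show (t : X) ∈ Tor U N from ⟨t.2, ht⟩)
    refine ⟨fun x => ⟨?_, ?_⟩, ?_⟩
    · rw [(h.cut (m x).2).1, ← (e3 x).1]
    · rw [(h.cut (m t).2).1, ← (e3 x).2]
    · rw [e1, (eLt2_e _ _).2]

theorem BV.bar_nat (h : BV p U N) (hP : PM p O R ρ GG) {σ : RingAut F} (hσ : σ ∈ GG)
    {γ : RingAut (MonoidAlgebra F X)} (hγ : SL F σ γ) {δ : MulAut X}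
    (hδ : ∀ x, γ (gu F X x) = gu F X (δ x)) (hU : ∀ x, δ x ∈ U ↔ x ∈ U)
    (hN : ∀ x, δ x ∈ N ↔ x ∈ N) (x : N) :
    γ (bar F (fun x : N => g4bn F (U : Subgroup X) x) x * av F (U : Subgroup X)) =
      bar F (fun x : N => g4bn F (U : Subgroup X) x) (resA N δ hN x) * av F (U : Subgroup X) := by
  rw [map_mul, (bar_map hγ (h.lb_map hP hσ hγ hδ hU hN).2.2 x).1, (nat_gen hγ hδ hU).1]

theorem TS.two (h : BV p U N) (t : TS k U N n) (h2 : p ≠ 2) (hU : (U : Subgroup X) ≠ ⊥) (hc : 0 < c)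
    (ho : ∀ u ∈ U, u ≠ 1 → p ^ c ∣ (Subgroup.centralizer {u}).relIndex (Tor U N))
    (hw : ¬ p ^ (2 * c) ∣ (Tor U N).relIndex N) :
    (∃ R : Sylow p X, (R : Subgroup X) ≤ N) ∧
      ∀ R : Sylow p X, (R : Subgroup X) ≤ N → NSV.IndN p X R N := by
  refine h.ind hU fun F κ _ _ O R ρ GG hP => ?_
  have := hP.charF
  obtain ⟨l, -, l2, l3, -⟩ := t.len h
  refine h.cor_nb hP h2 (h.nb hP h2 hc ho {s | ∃ i, i < k ∧ (s : X) = n i} ?_ ?_ ?_) hw
    fun σ hσ γ hγ δ hδ hU hN x => h.bar_nat hP hσ hγ hδ hU hN x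
  · rintro s ⟨i, hi, e⟩
    rw [Subgroup.coe_mul, e]
    exact t.sq i hi
  · intro Q h0 h1 x
    exact t.red h (fun m => ∀ hm : m ∈ N, Q ⟨m, hm⟩) (fun s hs _ => h0 _ hs)
      (fun i hi m hm _ ih _ => h1 ⟨n i, t.mem i hi⟩ ⟨i, hi, rfl⟩ ⟨m, hm⟩ (ih hm)) x x.2 x.2
  · rintro s ⟨i, hi, e⟩ x
    rw [Subgroup.coe_mul, Subgroup.coe_inv, e]
    have hn := t.mem i hi
    have a1 := l3 i hi x x.2
    have a2 := (l3 i hi _ (mul_mem (inv_mem hn) x.2)).2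
    have e1 : (n i)⁻¹ * (x : X) = (n i * n i)⁻¹ * (n i * x) := by group
    have e2 : l ((n i)⁻¹ * (x : X)) = l (n i * x) := by
      rw [e1, l2 _ (mul_mem hn x.2) _ (inv_mem (t.sq i hi))]
    rw [mul_inv_cancel_left, e2] at a2
    rw [a1.2, a2]
    have := a1.1
    omega

end Pool.Agent.Lib.MP_1ae3da_al.JM
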