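import Pool.Agent.Lib.MP_1ae3da_al.P.Top
import Pool.Agent.Lib.MP_1ae3da_al.B.Tw

/-! The inductive condition for all spin groups and their central quotients. -/

namespace Pool.Agent.Lib.MP_1ae3da_al

namespace JM
open SLI

variable {p r k : ℕ} {X Y : Type} [Group X] [Group Y] [Finite X] {U : Sylow r X} {N : Subgroup X}
  {n : ℕ → X} [hp : Fact p.Prime] [hr : Fact r.Prime]

theorem TS.two_all (h : BV p U N) (t : TS k U N n) (h2 : p ≠ 2) (hU : (U : Subgroup X) ≠ ⊥)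
    (hw : ¬ p ^ 2 ∣ (Tor U N).relIndex N) {π : X →* Y} (hπ : Function.Surjective π)
    (hk : π.ker ≤ Subgroup.center X) (hk' : ∀ x ∈ π.ker, (∃ c, x ^ p ^ c = 1) → x = 1)
    (R : Sylow p Y) : ∃ N', NSV.IndN p Y R N' := by
  have : Finite Y := Finite.of_surjective π hπ
  obtain ⟨R₀, hR⟩ := h.ex_syl
  obtain ⟨g, hg⟩ := MulAction.exists_smul_eq Y (R₀.mapSurjective hπ) R
  let ρ : X →* Y := (MulAut.conj g).toMonoidHom.comp π
  have hρ : Function.Surjective ρ := (MulAut.conj g).surjective.comp hπ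
  have hkρ : ρ.ker = π.ker := by
    ext x
    exact map_eq_one_iff (MulAut.conj g) (MulAut.conj g).injective
  rw [← hkρ] at hk hk'
  have hT := BN.tor_map (U := U) (N := N) hρ hk
  have hkT : ρ.ker ≤ Tor U N := hk.trans h.q_cen
  have v := h.qmap hρ hk hk'
  have mT : ∀ t ∈ Tor U N, ρ t ∈ Tor (U.mapSurjective hρ) (N.map ρ) := fun t ht =>
    hT ▸ ⟨t, ht, rfl⟩
  refine ⟨_, (TS.two (c := 1) (k := k) (n := fun i => ρ (n i)) v ⟨fun i hi => ⟨_, t.mem i hi, rfl⟩,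
    fun i hi => map_mul ρ _ _ ▸ mT _ (t.sq i hi), fun i hi c => t.nt i hi ?_, ?_, ?_⟩ h2
    (fun c => hU ?_) one_pos (by simpa only [pow_one] using v.orb) ?_).2 R ?_⟩
  · rw [hT] at c
    exact (Subgroup.comap_map_eq_self hkT).le c
  · refine (Subgroup.map_mono t.gen).trans ?_
    rw [MonoidHom.map_closure, Set.image_union, Set.image_image, hT]
    rfl
  · rintro i hi _ ⟨m, hm, rfl⟩ _ ⟨u, hu, rfl⟩
    obtain ⟨a, ha, t, ht, b, hb, e⟩ := t.tits i hi m hm u hu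
    exact ⟨ρ a, ⟨a, ha, rfl⟩, ρ t, mT t ht, ρ b, ⟨b, hb, rfl⟩,
      e.imp (fun e => by simpa only [map_mul] using congrArg ρ e)
        fun e => by simpa only [map_mul] using congrArg ρ e⟩
  · refine eq_bot_iff.2 fun u hu => h.q_one hu fun s _ => Subgroup.mem_center_iff.1 (hk ?_) s
    exact c.le (show ρ u ∈ (U.mapSurjective hρ : Subgroup Y) from ⟨u, hu, rfl⟩)
  · rwa [hT, Subgroup.relIndex_map_map, sup_of_le_left hkT,
      sup_of_le_left (hkT.trans inf_le_left)]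
  · have : (R : Subgroup Y) = (R₀ : Subgroup X).map ρ := by
      rw [← hg, ← Subgroup.map_map]
      rfl
    exact this ▸ Subgroup.map_mono hR

end JM

namespace JP
open SLI Matrix JM

theorem Spn.ind2 {F : Type} [Field F] {m k : ℕ} {φ : F →+* F} {X : Type} [Group X]
    {π : X →* SLm m F} {E : (Fin m → F) → (Fin m → F) → X} (h : Spn φ k π E)
    {r : ℕ} [hr : Fact r.Prime] [CharP F r] [Finite F] [Finite X]
    {p : ℕ} (hp : p.Prime) (h2 : p ≠ 2) (hpr : p ≠ r) {z : Fˣ} (hz : φ z = z) (z1 : z ≠ 1)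
    (zp : z ^ p = 1) (hm : 7 ≤ m) {Y : Type} [Group Y] {ρ : X →* Y} (hρ : Function.Surjective ρ)
    (hk : ρ.ker ≤ Subgroup.center X) (R : Sylow p Y) : ∃ N, NSV.IndN p Y R N := by
  by_cases c : m = 8 ∧ k = 4 ∧ p = 3
  swap
  · exact h.ind hp h2 hpr hz z1 zp hm (fun a b d => (c ⟨a, b, d⟩).elim) hρ hk R
  obtain ⟨rfl, rfl, rfl⟩ := c
  have : Fact (Nat.Prime 3) := ⟨hp⟩
  obtain ⟨U, hU⟩ := h.ex_U (r := r)
  have v := h.bv hU hp h2 hpr hz z1 zp
  obtain ⟨⟨-, -, a2, -, -, -, a6, a7, a8, a9, a10, -⟩, c, g, g1, g2, g3, g4, g5⟩ :=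
    h.m6_d hU v rfl (by omega)
  have w : WD 4 (NN π) (Tor U (NN π)) h.nD g := ⟨inf_le_left, a2, by omega, g1, fun x =>
    and_congr (g3 x) (CT.Z.zTh_nrm (D := (U : Subgroup X)) g2 x), g3, g4, g5,
    fun i hi => (a6 i hi).1, fun i hi => (a6 i hi).2, h.nD_c0, a9, a10, a7, c⟩
  refine TS.two_all v ⟨w.mem, w.sq, fun _ hi => w.nt hi, w.gen, a8⟩ h2 (h.U_ne hU)
    (by rw [c]; decide) hρ hk (fun x hx ⟨c, hc⟩ => ?_) R
  have h4 := h.m6_cen (hk hx) ((h.tor_iff hU).1 (v.q_cen (hk hx)))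
  exact orderOf_eq_one_iff.1 (Nat.eq_one_of_dvd_coprimes (Nat.Coprime.pow 2 c (by norm_num :
    Nat.Coprime 2 3)) (orderOf_dvd_of_pow_eq_one h4) (orderOf_dvd_of_pow_eq_one hc))

theorem spin_all2 (p : ℕ) (hp : p.Prime) (h2 : p ≠ 2) (K : Type) [Field K] [Finite K]
    (hq : p ∣ Nat.card K - 1) (m : ℕ) (hm : 7 ≤ m) (Q : QuadraticForm K (Fin m → K))
    (nd : ∀ v, (∀ w, QuadraticMap.polar Q v w = 0) → v = 0)
    (X : Type) [Group X] (ρ : spinGroup Q →* X) (hρ : Function.Surjective ρ)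
    (hk : ρ.ker ≤ Subgroup.center _) (R : Sylow p X) : ∃ N, NSV.IndN p X R N := by
  have : Fact p.Prime := ⟨hp⟩
  obtain ⟨k, F, _, _, _, P, P', φ, s, a1, a2, a3, a4, a5, a6, a7, a8, -⟩ := ex_spl0 nd
  have := Fintype.ofFinite K
  rw [Nat.card_eq_fintype_card] at hq
  obtain ⟨z, z1, zp, -⟩ := ex_z (F := K) h2 dvd_rfl hq
  have h : Spl Q P P' φ k s := ⟨a1, ⟨z, z.ne_zero, fun e => z1 (Units.ext e)⟩, a2, a3, a4,
    by omega, a5, a6, a7, fun c => (a8 c).1⟩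
  obtain ⟨π, hπ⟩ := h.ex_pi
  have := h.fin hπ
  obtain ⟨r, hr⟩ := CharP.exists K
  have : Fact r.Prime := ⟨CharP.char_is_prime K r⟩
  have : CharP F r := charP_of_injective_algebraMap (algebraMap K F).injective r
  let ι : Kˣ →* Fˣ := Units.map (algebraMap K F).toMonoidHom
  have hι : Function.Injective ι := Units.map_injective (algebraMap K F).injective
  exact (h.spn hπ).ind2 (r := r) hp h2 (ne_char hp hq) (z := ι z) ((a8 _).2 ⟨z, rfl⟩)
    (fun e => z1 (hι (e.trans (map_one ι).symm))) (by rw [← map_pow, zp, map_one]) hm hρ hk R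

end JP

end Pool.Agent.Lib.MP_1ae3da_al
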