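import Pool.Agent.Lib.MP_1ae3da_al.B.Df
import Pool.Agent.Lib.MP_1ae3da_al.Z.Xh
import Pool.Agent.Lib.MP_1ae3da_al.Z.Th

/-! Transport along a family that is close to the standard basis. -/

namespace Pool.Agent.Lib.MP_1ae3da_al.CT.Z

open Submodule

variable {F k X : Type} [Field F] [Field k] [Group X] [Finite X] {U D N : Subgroup X}
  {p c : ℕ} {O R : Subring F} {r : F → k} {GG : Subgroup (RingAut F)}
  {b : N → MonoidAlgebra F X} {l : MonoidAlgebra F N →ₗ[F] MonoidAlgebra F X}

omit [Finite X] in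
theorem bTp_exa (hl : ∀ n, l (gu F N n) = b n) {t : N} (ht : Exa b t) (x : MonoidAlgebra F N) :
    l (gu F N t * x) = l (gu F N t) * l x ∧ l (x * gu F N t) = l x * l (gu F N t) := by
  have hx : x ∈ span F (Set.range (gu F N)) := by rw [← span_Hm_top, gu_span]; trivial
  induction hx using span_induction with
  | mem y hy =>
    obtain ⟨n, rfl⟩ := hy
    rw [gu_mul, gu_mul, hl, hl, hl, hl]
    exact ht n
  | zero => simp
  | add a b _ _ h1 h2 => simp only [mul_add, add_mul, map_add, h1.1, h1.2, h2.1, h2.2, and_self]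
  | smul a b _ h1 =>
    simp only [mul_smul_comm, smul_mul_assoc, map_smul, h1.1, h1.2, and_self]

theorem bTp_av [CharZero F] (hb : Nb O p c U D N b) (hl : ∀ n, l (gu F N n) = b n)
    {G : Subgroup N} (hG : ∀ g ∈ G, (g : X) ∈ Subgroup.normalizer (U : Set X)) :
    l (av F G) = av F (G.map N.subtype) * av F U ∧ ∀ x,
      l (av F G * x) = l (av F G) * l x ∧ l (x * av F G) = l x * l (av F G) := by
  have := Fintype.ofFinite G
  refine ⟨?_, fun x => ?_⟩
  · have e := av_hom (F := F) (N.subtype.comp G.subtype)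
    rw [MonoidHom.range_comp, Subgroup.range_subtype, finsum_eq_sum_of_fintype] at e
    rw [zAv_def (E := G), map_smul, map_sum, inv_smul_eq_iff₀ zAv_card, ← smul_mul_assoc, ← e,
      Finset.sum_mul]
    exact Finset.sum_congr rfl fun g _ =>
      ((hl _).trans (hb.ex _ (hG _ g.2)).2).trans (an_nrm (hG _ g.2))
  · simp only [zAv_def (E := G), smul_mul_assoc, mul_smul_comm, map_smul, Finset.sum_mul,
      Finset.mul_sum, map_sum]
    exact ⟨congrArg _ (Finset.sum_congr rfl fun g _ => (bTp_exa hl (hb.ex _ (hG _ g.2)).1 x).1),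
      congrArg _ (Finset.sum_congr rfl fun g _ => (bTp_exa hl (hb.ex _ (hG _ g.2)).1 x).2)⟩

theorem bTp_avm [CharZero F] (hb : Nb O p c U D N b) (h : Pg p 1 U D)
    (hl : ∀ n, l (gu F N n) = b n) {G : Subgroup N} (hG : G ≤ D.subgroupOf N) :
    l (av F G) ∈ La O U D := by
  rw [(bTp_av hb hl fun g hg => h.nrm (hG hg)).1, ← one_mul (av F U), ← gu_one,
    ← an_nrm (one_mem _)]
  refine av_La h ?_ (an_La (one_mem _))
  rintro _ ⟨x, hx, rfl⟩
  exact hG hx

/-- Nakayama over the valuation ring. -/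
theorem bTp_nak (hb : Nb O p c U D N b) (hP : PM p O R r GG) (h : Pg p 1 U D)
    (hN : Subgroup.normalizer (D : Set X) = N) (hl : ∀ n, l (gu F N n) = b n)
    {z : MonoidAlgebra F X} (hz : z ∈ La O U D) :
    ∃ x ∈ span O {a | ∃ G ≤ D.subgroupOf N, ∃ n, a = av F G * gu F N n}, l x = z := by
  subst hN
  have := hP.charF
  have := hP.cpl
  refine Submodule.le_of_le_smul_of_le_jacobson_bot (N := (span O _).map (l.restrictScalars O))
    (fg_span LaS_fin) (IsAdicComplete.le_jacobson_bot (Ideal.span {(p : O)}))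
    (span_le.2 ?_) (show z ∈ span O (LaS F U D) from hz)
  rintro _ ⟨E, hE, n, hn, rfl⟩
  have hG : E.subgroupOf (Subgroup.normalizer (D : Set X)) ≤ D.subgroupOf _ := fun _ hx => hE hx
  obtain ⟨k1, k2⟩ := bTp_av hb hl fun g hg => h.nrm (hG hg)
  obtain ⟨u, hu, he⟩ := (hk_lat hP h).mul_left (bTp_avm hb h hl hG) (neg_mem (hb.cl ⟨n, hn⟩))
  rw [neg_sub, mul_sub, ← hl, ← (k2 _).1, k1,
    Subgroup.map_subgroupOf_eq_of_le (hE.trans Subgroup.le_normalizer), mul_assoc, (av_an _).1,
    sub_eq_iff_eq_add'] at he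
  rw [SetLike.mem_coe, he]
  refine add_mem_sup ⟨_, subset_span ⟨_, hG, _, rfl⟩, rfl⟩ ?_
  have e : (p : F) ^ 1 • u = (p : O) • u := by rw [Subring.smul_def]; simp
  rw [e]
  exact smul_mem_smul (Ideal.mem_span_singleton_self _) hu

theorem Nb.inj (hb : Nb O p c U D N b) (hP : PM p O R r GG) (h : Pg p 1 U D)
    (hN : Subgroup.normalizer (D : Set X) = N) (hl : ∀ n, l (gu F N n) = b n) :
    Function.Injective l ∧ ∀ z, z ∈ LinearMap.range l ↔ av F U * z * av F U = z := by
  classical
  have := hP.charF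
  have nak := fun z hz => bTp_nak hb hP h hN hl (z := z) hz
  subst hN
  have := Fintype.ofFinite (Subgroup.normalizer (D : Set X))
  have top : span F (Set.range (gu F (Subgroup.normalizer (D : Set X)))) = ⊤ := by
    rw [← span_Hm_top, gu_span]
  have eb : l ∘ gu F _ = b := funext hl
  have rg : LinearMap.range l = span F (Set.range b) := by
    rw [← eb, Set.range_comp, span_image, top, Submodule.map_top]
  have hC : span F (Set.range fun n : Subgroup.normalizer (D : Set X) => an F U n) ≤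
      LinearMap.range l := by
    rw [span_le]
    rintro _ ⟨n, rfl⟩
    obtain ⟨x, -, e⟩ := nak _ (an_La n.2)
    exact ⟨x, e⟩
  refine ⟨LinearMap.injective_of_linearIndependent top ?_, fun z => ⟨?_, fun e => ?_⟩⟩
  · have := Module.Finite.span_of_finite F (Set.finite_range b)
    rw [eb, linearIndependent_iff_card_le_finrank_span,
      linearIndependent_iff_card_eq_finrank_span.1 (an_ind (F := F) h)]
    exact finrank_mono (rg ▸ hC)
  · rintro ⟨x, rfl⟩
    obtain ⟨k1, k2⟩ := hb.ex 1 (one_mem _)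
    have e : l 1 = av F U := by
      rw [← gu_one, hl, k2, an_nrm (by exact one_mem _)]
      exact (congrArg (· * av F U) gu_one).trans (one_mul _)
    obtain ⟨k3, k4⟩ := bTp_exa hl k1 x
    rw [gu_one, e] at k3 k4
    rw [← k3, one_mul, ← k4, mul_one]
  · rw [← e]
    exact hC (an_span h z)

theorem Nb.av (hb : Nb O p c U D N b) (hP : PM p O R r GG) (h : Pg p 1 U D)
    (hN : Subgroup.normalizer (D : Set X) = N) (hl : ∀ n, l (gu F N n) = b n) {G : Subgroup N}
    (hG : ∀ g ∈ G, (g : X) ∈ Subgroup.normalizer (U : Set X)) :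
    l (av F G) = av F (G.map N.subtype) * av F U ∧ ∀ x,
      l (av F G * x) = l (av F G) * l x ∧ l (x * av F G) = l x * l (av F G) := by
  have := hP.charF
  have _ := h
  have _ := hN
  exact bTp_av hb hl hG

theorem Nb.tp (hb : Nb O p c U D N b) (hP : PM p O R r GG) (h : Pg p 1 U D)
    (hN : Subgroup.normalizer (D : Set X) = N) (hl : ∀ n, l (gu F N n) = b n) :
    Tp F p c (La O U D) ((Subgroup.normalizer (U : Set X)).subgroupOf N) (gu F N) l := by
  have := hP.charF
  have inj := (hb.inj hP h hN hl).1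
  have nak : ∀ x, l x ∈ La O U D →
      x ∈ span O {a | ∃ G ≤ D.subgroupOf N, ∃ n, a = Z.av F G * gu F N n} := fun x hx => by
    obtain ⟨y, hy, e⟩ := bTp_nak hb hP h hN hl hx
    exact inj e ▸ hy
  refine ⟨hk_lat hP h, gu_mul, gu_one, fun x => ?_, fun x y hx hy => ?_,
    fun t ht => bTp_exa hl (hb.ex t ht).1⟩
  · rw [hl]
    simpa using add_mem (Lk_le (hb.cl x)) (an_La (O := O) (U := U) (hN.ge x.2))
  have sm : ∀ (o : O) z, z ∈ Lk F p c (La O U D) → (o : F) • z ∈ Lk F p c (La O U D) := by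
    rintro o _ ⟨y, hy, rfl⟩
    exact ⟨_, smul_mem (span O (LaS F U D)) o hy, smul_comm _ _ _⟩
  have k1 : ∀ G ≤ D.subgroupOf N, ∀ x y, l x * l y - l (x * y) ∈ Lk F p c (La O U D) →
      l (Z.av F G * x) * l y - l (Z.av F G * x * y) ∈ Lk F p c (La O U D) := by
    intro G hG x y k
    obtain ⟨-, e2⟩ := bTp_av hb hl (G := G) fun g hg => h.nrm (hG hg)
    rw [mul_assoc (Z.av F G), (e2 _).1, (e2 _).1, mul_assoc, ← mul_sub]
    exact (hk_lat hP h).mul_left (bTp_avm hb h hl hG) k
  replace hx := nak x hx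
  replace hy := nak y hy
  induction hx using span_induction with
  | zero => simp
  | add x y _ _ h1 h2 =>
    have := add_mem h1 h2
    simp only [map_add, add_mul]
    convert this using 1
    abel
  | smul o x _ h1 =>
    have := sm o _ h1
    change l ((o : F) • x) * l y - l (((o : F) • x) * y) ∈ _
    simpa only [map_smul, smul_mul_assoc, smul_sub] using this
  | mem a ha =>
    induction hy using span_induction with
    | zero => simp
    | add x y _ _ h1 h2 =>
      have := add_mem h1 h2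
      simp only [map_add, mul_add]
      convert this using 1
      abel
    | smul o x _ h1 =>
      have := sm o _ h1
      change l a * l ((o : F) • x) - l (a * ((o : F) • x)) ∈ _
      simpa only [map_smul, mul_smul_comm, smul_sub] using this
    | mem a' ha' =>
      obtain ⟨G, hG, n, rfl⟩ := ha
      obtain ⟨G', hG', n', rfl⟩ := ha'
      refine k1 G hG _ _ ?_
      obtain ⟨-, e2⟩ := bTp_av hb hl (G := G') fun g hg => h.nrm (hG' hg)
      rw [(e2 _).1, ← mul_assoc, ← (e2 _).2, ← mul_assoc, av_conj]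
      refine k1 _ ?_ _ _ ?_
      · rintro _ ⟨x, hx, rfl⟩
        exact zHk_conj (D := D) (hN.ge n.2) (hG' hx)
      · rw [gu_mul, hl, hl, hl]
        exact hb.df n n'

end Pool.Agent.Lib.MP_1ae3da_al.CT.Z
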