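import Pool.Agent.Lib.MP_1ae3da_al.B.Yb

/-! Orbits of simple roots and the centraliser of the symmetry. -/

namespace Pool.Agent.Lib.MP_1ae3da_al.JV

variable {ι M N : Type} [AddCommGroup M] [Module ℚ M] [AddCommGroup N] [Module ℚ N]
  {P : RootPairing ι ℚ M N} [P.IsCrystallographic] [Finite ι] [P.IsReduced] [P.IsRootSystem]
  {b : P.Base} {ρ τ π : P.Aut} {L : List ι} {a : ι}

theorem bYa_sw {α : Type} (L L' : List α) (g : α → α → ℤ) :
    (L.map fun a => (L'.map fun c => g a c).sum).sum =
      (L'.map fun c => (L.map fun a => g a c).sum).sum := by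
  induction L with
  | nil => simp
  | cons d L ih => simp only [List.map_cons, List.sum_cons, List.sum_map_add, ih]

omit [Finite ι] [P.IsReduced] [P.IsRootSystem] in
theorem bYa_two (sym : ∀ c d, P.pairingIn ℤ c d = P.pairingIn ℤ d c)
    (h : L.Pairwise fun d d' => P.pairingIn ℤ d d' = 0) (ha : a ∈ L) :
    (L.map fun d => P.pairingIn ℤ a d).sum = 2 := by
  induction L with
  | nil => exact absurd ha List.not_mem_nil
  | cons c L ih =>
    obtain ⟨h1, h2⟩ := List.pairwise_cons.1 h
    rw [List.map_cons, List.sum_cons]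
    rcases List.mem_cons.1 ha with rfl | ha
    · rw [P.pairingIn_same, List.sum_eq_zero fun y hy => ?_, add_zero]
      obtain ⟨d, hd, rfl⟩ := List.mem_map.1 hy
      exact h1 d hd
    · rw [ih h2 ha, sym, h1 a ha, zero_add]

theorem oo_quad (sym : ∀ c d, P.pairingIn ℤ c d = P.pairingIn ℤ d c) (cm : τ * ρ = ρ * τ)
    (l : OO b ρ L) (h : ∀ c, (9 : ℤ) ∣ (L.map fun d => P.pairingIn ℤ c d).sum -
      2 * (L.map fun d => P.pairingIn ℤ c (ac P τ d)).sum +
      (L.map fun d => P.pairingIn ℤ c (ac P τ (ac P τ d))).sum) :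
    (L.map fun d => P.root (ac P τ d)).sum = (L.map fun d => P.root d).sum := by
  have _ := Fintype.ofFinite ι
  have c1 : ∀ d, ac P τ (ac P ρ d) = ac P ρ (ac P τ d) := fun d => by
    rw [← hRl_mul, cm, hRl_mul]
  have pm : ∀ g : ι → ℤ, (L.map fun d => g (ac P ρ d)).sum = (L.map g).sum := fun g => by
    rw [← (l.ol.perm.map g).sum_eq, List.map_map]
    rfl
  obtain ⟨A, hA⟩ : ∃ A : ι → ℤ, ∀ d, A d = (L.map fun c => P.pairingIn ℤ (ac P τ d) c).sum :=
    ⟨_, fun _ => rfl⟩
  obtain ⟨B, hB⟩ : ∃ B : ι → ℤ, ∀ c, B c = (L.map fun d => P.pairingIn ℤ (ac P τ d) c).sum :=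
    ⟨_, fun _ => rfl⟩
  have a1 : ∀ d, A (ac P ρ d) = A d := fun d => by
    rw [hA, hA, ← pm, c1]
    simp only [ac_pr]
  have b1 : ∀ d, B (ac P ρ d) = B d := fun d => by
    rw [hB, hB, ← pm]
    simp only [c1, ac_pr]
  have key : ∀ d ∈ L, A d = 2 ∧ B d = 2 := fun d hd => by
    have e1 := List.sum_eq_card_nsmul (L.map A) (A d) fun y hy => by
      obtain ⟨c, hc, rfl⟩ := List.mem_map.1 hy
      exact l.orb (fun c => A c = A d) (fun c => by rw [a1]) d hd c hc rfl
    have e2 := List.sum_eq_card_nsmul (L.map B) (B d) fun y hy => by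
      obtain ⟨c, hc, rfl⟩ := List.mem_map.1 hy
      exact l.orb (fun c => B c = B d) (fun c => by rw [b1]) d hd c hc rfl
    have e3 : (L.map A).sum = (L.map B).sum := by
      rw [funext hA, funext hB, bYa_sw]
    rw [e1, e2, List.length_map, List.length_map, nsmul_eq_mul, nsmul_eq_mul] at e3
    have e4 := mul_left_cancel₀ (Nat.cast_ne_zero.2 (List.length_pos_of_mem hd).ne') e3
    have bd : ∀ y ∈ L.map fun c => P.pairingIn ℤ (ac P τ d) c, -2 ≤ y ∧ y ≤ 2 := fun y hy => by
      obtain ⟨c, -, rfl⟩ := List.mem_map.1 hy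
      have k := P.pairingIn_pairingIn_mem_set_of_isCrystal_of_isRed (ac P τ d) c
      rw [sym c] at k
      simp only [Set.mem_insert_iff, Set.mem_singleton_iff, Prod.mk.injEq] at k
      omega
    have e5 := List.sum_le_card_nsmul _ _ fun y hy => (bd y hy).2
    have e6 := List.card_nsmul_le_sum _ _ fun y hy => (bd y hy).1
    rw [← hA, List.length_map, nsmul_eq_mul] at e5 e6
    have e7 := h (ac P τ d)
    simp only [ac_pr] at e7
    rw [bYa_two sym l.ol.orth hd, ← hA] at e7
    simp only [sym d] at e7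
    rw [← hB] at e7
    have := l.len
    omega
  have s : ∀ (L : List ι) (f : ι → ι) j, 2 * P.RootForm (L.map fun d => P.root (f d)).sum (P.root j) =
      ((L.map fun d => P.pairingIn ℤ (f d) j).sum : ℤ) * P.RootForm (P.root j) (P.root j) := by
    intro L f j
    induction L with
    | nil => simp
    | cons d L ih =>
      have e : 2 * P.RootForm (P.root (f d)) (P.root j) = _ :=
        P.toInvariantForm.two_mul_apply_root_root (f d) j
      rw [← P.algebraMap_pairingIn ℤ] at e
      simp only [List.map_cons, List.sum_cons, map_add, LinearMap.add_apply, mul_add, ih, e,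
        Int.cast_add, add_mul]
      rfl
  have z : ∀ j, (L.map fun d => P.pairingIn ℤ (ac P τ d) j).sum =
      (L.map fun d => P.pairingIn ℤ d j).sum → P.RootForm ((L.map fun d => P.root (ac P τ d)).sum -
        (L.map fun d => P.root d).sum) (P.root j) = 0 := fun j e => by
    have e1 := s L (ac P τ) j
    have e2 := s L (fun d => d) j
    rw [e, ← e2] at e1
    rw [map_sub, LinearMap.sub_apply]
    linarith
  refine sub_eq_zero.1 (P.eq_zero_of_mem_rootSpan_of_rootForm_self_eq_zero ?_ ?_)
  · rw [RootPairing.rootSpan, RootPairing.IsRootSystem.span_root_eq_top]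
    trivial
  · generalize hv : (L.map fun d => P.root (ac P τ d)).sum - (L.map fun d => P.root d).sum = v at z
    nth_rw 2 [← hv]
    rw [map_sub, map_list_sum, map_list_sum, List.sum_eq_zero, List.sum_eq_zero, sub_zero]
    · intro y hy
      simp only [List.map_map, List.mem_map, Function.comp_apply] at hy
      obtain ⟨d, hd, rfl⟩ := hy
      refine z d ?_
      rw [← hB, (key d hd).2, ← bYa_two sym l.ol.orth hd]
      simp only [sym d]
    · intro y hy
      simp only [List.map_map, List.mem_map, Function.comp_apply] at hy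
      obtain ⟨d, hd, rfl⟩ := hy
      refine z _ ?_
      simp only [ac_pr, ← sym (ac P τ d)]
      rw [← hA, (key d hd).1, bYa_two sym l.ol.orth hd]

end Pool.Agent.Lib.MP_1ae3da_al.JV
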