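import Pool.Agent.Lib.MP_1ae3da_al.B.Yd

/-! Orbits of simple roots: signs. -/

namespace Pool.Agent.Lib.MP_1ae3da_al.JV

variable {ι M N : Type} [AddCommGroup M] [Module ℚ M] [AddCommGroup N] [Module ℚ N]
  {P : RootPairing ι ℚ M N} [P.IsCrystallographic] [Finite ι] [P.IsReduced] [P.IsRootSystem]
  {b : P.Base} {ρ τ π : P.Aut} {L : List ι} {a : ι}

theorem oo_sign (k : Bas b ρ) (cm : τ * ρ = ρ * τ) (l : OO b ρ L) :
    (∀ d ∈ L, b.IsPos (ac P τ d)) ∨ ∀ d ∈ L, ¬ b.IsPos (ac P τ d) := by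
  refine or_iff_not_imp_right.2 fun hn d hd => ?_
  push Not at hn
  obtain ⟨c, hc, pc⟩ := hn
  exact l.orb (fun d => b.IsPos (ac P τ d))
    (fun d => by rw [← hRl_mul, cm, hRl_mul, k.pos]) c hc d hd pc

omit [P.IsCrystallographic] [Finite ι] [P.IsReduced] in
theorem bYb_ht (b : P.Base) : ∃ f : M →ₗ[ℚ] ℚ, ∀ c, f (P.root c) = b.height c := by
  refine ⟨b.toWeightBasis.constr ℚ fun _ => 1, fun c => ?_⟩
  obtain ⟨f, -, -, e⟩ := b.exists_root_eq_sum_int c
  rw [RootPairing.Base.height_eq_sum e, e, map_sum, Int.cast_sum]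
  refine Finset.sum_congr rfl fun j hj => ?_
  rw [map_zsmul, ← b.toWeightBasis_apply ⟨j, hj⟩, Module.Basis.constr_basis]
  simp

theorem oo_fix (k : Bas b ρ) (cm : τ * ρ = ρ * τ) (l : OO b ρ L)
    (h : (L.map fun d => P.root (ac P τ d)).sum = (L.map fun d => P.root d).sum) :
    ∀ d ∈ L, b.IsPos (ac P τ d) := by
  intro d hd
  refine ((oo_sign k cm l).resolve_right fun s => ?_) d hd
  obtain ⟨f, hf⟩ := bYb_ht b
  have e := congrArg f h
  rw [map_list_sum, map_list_sum, List.map_map, List.map_map] at e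
  refine absurd e (ne_of_lt (List.sum_lt_sum_of_ne_nil (List.ne_nil_of_mem hd) _ _ fun c hc => ?_))
  have h1 := s c hc
  have h2 := b.isPos_of_mem_support (l.ol.mem c hc)
  rw [b.isPos_iff] at h1 h2
  simp only [Function.comp_apply, hf, Int.cast_lt]
  omega

omit [Finite ι] [P.IsReduced] [P.IsRootSystem] in
theorem ql_one (b : P.Base) (L : List ι) : QL b L 1 :=
  ⟨fun _ _ => .inl rfl, fun _ h1 h2 => ⟨h1, h2⟩⟩

omit [Finite ι] [P.IsReduced] [P.IsRootSystem] in
theorem bYb_fx (l : OL b ρ L) (ha : a ∈ L) {d : ι} (hd : d ∈ L) (ne : d ≠ a) :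
    P.reflectionPerm a d = d := by
  have : Std.Symm fun d d' => P.pairingIn ℤ d d' = 0 := ⟨fun _ _ k => P.pairingIn_eq_zero_iff.1 k⟩
  have e : P.pairingIn ℤ d a = 0 := l.orth.forall hd ha ne
  exact P.reflectionPerm_eq_of_pairing_eq_zero (by rw [← P.algebraMap_pairingIn ℤ, e, map_zero])

theorem QL.rf (q : QL b L π) (l : OL b ρ L) (ha : a ∈ L) :
    QL b L (RootPairing.Equiv.reflection P a * π) := by
  have k : ∀ d ∈ L, ac P (RootPairing.Equiv.reflection P a) d = d ∨
      ac P (RootPairing.Equiv.reflection P a) d = ng P d := fun d hd => by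
    by_cases e : d = a
    · exact .inr (e ▸ rfl)
    · exact .inl (bYb_fx l ha hd e)
  refine ⟨fun d hd => ?_, fun c h1 h2 => ?_⟩
  · rw [hRl_mul]
    rcases q.sg d hd with e | e
    · rw [e]
      exact k d hd
    · rw [e, ac_ng]
      exact (k d hd).symm.imp (fun e => by rw [e, hTi_ng_ng]) fun e => by rw [e]
  · obtain ⟨h3, h4⟩ := q.ps c h1 h2
    rw [hRl_mul, hRl_rf]
    have h5 := h3.reflectionPerm (l.mem a ha) fun e => h4 (e ▸ ha)
    refine ⟨h5, fun h6 => ?_⟩
    have e0 := P.reflectionPerm_self a (ac P π c)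
    rcases k _ h6 with e | e
    · rw [hRl_rf, e0] at e
      exact h4 (e ▸ h6)
    · rw [hRl_rf, e0] at e
      exact xa_ng h5 (e ▸ h3)

theorem ol_s (l : OL b ρ L) : QL b L (L.map fun a => RootPairing.Equiv.reflection P a).prod ∧
    ∀ d ∈ L, ac P (L.map fun a => RootPairing.Equiv.reflection P a).prod d = ng P d := by
  have key : ∀ L' : List ι, (∀ d ∈ L', d ∈ L) → L'.Nodup →
      QL b L (L'.map fun a => RootPairing.Equiv.reflection P a).prod ∧ ∀ d ∈ L,
        (d ∈ L' → ac P (L'.map fun a => RootPairing.Equiv.reflection P a).prod d = ng P d) ∧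
        (d ∉ L' → ac P (L'.map fun a => RootPairing.Equiv.reflection P a).prod d = d) := by
    intro L' h1 h2
    induction L' with
    | nil => exact ⟨ql_one b L, fun d _ => ⟨fun h => absurd h List.not_mem_nil, fun _ => rfl⟩⟩
    | cons c L' ih =>
      rw [List.nodup_cons] at h2
      obtain ⟨q, e⟩ := ih (fun d hd => h1 d (List.mem_cons_of_mem _ hd)) h2.2
      have hc := h1 c List.mem_cons_self
      rw [List.map_cons, List.prod_cons]
      refine ⟨q.rf l hc, fun d hd => ⟨fun k => ?_, fun k => ?_⟩⟩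
      · rw [hRl_mul]
        rcases List.mem_cons.1 k with rfl | k
        · rw [(e d hd).2 h2.1]
          rfl
        · rw [(e d hd).1 k, ac_ng, hRl_rf, bYb_fx l hc hd fun e => h2.1 (e ▸ k)]
      · rw [List.mem_cons, not_or] at k
        rw [hRl_mul, (e d hd).2 k.2, hRl_rf, bYb_fx l hc hd k.1]
  obtain ⟨q, e⟩ := key L (fun _ h => h) (xc_nd l)
  exact ⟨q, fun d hd => (e d hd).1 hd⟩

end Pool.Agent.Lib.MP_1ae3da_al.JV
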