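import Pool.Agent.Lib.MP_1ae3da_al.H.Xc

/-! Orbits of simple roots: definitions. -/

namespace Pool.Agent.Lib.MP_1ae3da_al.JV

variable {ι M N : Type} [AddCommGroup M] [Module ℚ M] [AddCommGroup N] [Module ℚ N]
  {P : RootPairing ι ℚ M N} [P.IsCrystallographic]

/-- one orbit of orthogonal simple roots. -/
structure OO (b : P.Base) (ρ : P.Aut) (L : List ι) : Prop where
  ol : OL b ρ L
  len : L.length ≤ 3
  orb : ∀ q : ι → Prop, (∀ d, q (ac P ρ d) ↔ q d) → ∀ d ∈ L, ∀ d' ∈ L, q d → q d'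

/-- what is needed of the root system for `p = 3`. -/
structure R3 (b : P.Base) (ρ : P.Aut) : Prop where
  rt : Rt 5 b ρ
  sym : ∀ c d, P.pairingIn ℤ c d = P.pairingIn ℤ d c
  cov : ∀ a ∈ b.support, ∃ L, OO b ρ L ∧ a ∈ L
  sep : ∀ c, b.IsPos c → ∃ L, OL b ρ L ∧ ¬ (3 : ℤ) ∣ (L.map fun d => P.pairingIn ℤ c d).sum
  wy : ∀ G : Subgroup P.Aut, G ≤ P.weylGroup → (∀ τ ∈ G, τ * ρ = ρ * τ) →
    (∀ τ ∈ G, (∀ a ∈ b.support, b.IsPos (ac P τ a)) → τ = 1) → ¬ 3 ^ 4 ∣ Nat.card G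

/-- `π` changes signs on `L` and keeps the other positive roots. -/
structure QL (b : P.Base) (L : List ι) (π : P.Aut) : Prop where
  sg : ∀ d ∈ L, ac P π d = d ∨ ac P π d = ng P d
  ps : ∀ c, b.IsPos c → c ∉ L → b.IsPos (ac P π c) ∧ ac P π c ∉ L

end Pool.Agent.Lib.MP_1ae3da_al.JV
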