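import Pool.Agent.Lib.MP_1ae3da_al.B.Ya

/-! The torus of the fixed points for `p = 3`. -/

namespace Pool.Agent.Lib.MP_1ae3da_al.JV

variable {ι M N K X : Type} [AddCommGroup M] [Module ℚ M] [AddCommGroup N] [Module ℚ N]
  {P : RootPairing ι ℚ M N} [Field K] [Group X] {x : ι → K → X} [P.IsCrystallographic]
  [Finite ι] [P.IsReduced] [P.IsRootSystem] [Finite K] {b : P.Base} {a c : ι} {g m u : X}
  {ρ τ : P.Aut} {φ : K →+* K} {σ : MulAut X} {L : List ι} {G : Subgroup X}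

theorem yq_s (hq : 9 ∣ Nat.card {t // φ t = t} - 1) : ∃ s : Kˣ, φ s = s ∧ orderOf s = 9 := by
  let F := RingHom.eqLocusField φ (RingHom.id K)
  have e : Nat.card Fˣ = Nat.card {t // φ t = t} - 1 := Nat.card_units F
  obtain ⟨z, hz⟩ := IsCyclic.exists_ofOrder_eq_natCard (α := Fˣ)
  have o := orderOf_pow_orderOf_div (orderOf_pos z).ne' (n := 9) (by rw [hz, e]; exact hq)
  generalize z ^ (orderOf z / 9) = y at o
  exact ⟨Units.map F.subtype.toMonoidHom y, (y : F).2, (orderOf_injective _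
    (Units.map_injective F.subtype.injective) y).trans o⟩

omit [P.IsRootSystem] [Finite K] in
theorem bYq_key (h : Chv x b) {s : Kˣ} (ho : orderOf s = 9) (f : ι → ι) (L : List ι) :
    (L.map fun d => hv P x (f d) s).prod ∈ TT P x ∧ (L.map fun d => hv P x (f d) s).prod ^ 9 = 1 ∧
      ∀ a, Sc x (L.map fun d => hv P x (f d) s).prod a
        (s ^ (L.map fun d => P.pairingIn ℤ a (f d)).sum) := by
  induction L with
  | nil => exact ⟨one_mem _, one_pow _, fun a => by simpa using hNg_one a⟩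
  | cons d L ih =>
    simp only [List.map_cons, List.prod_cons, List.sum_cons, zpow_add]
    refine ⟨mul_mem (hNg_h _ s) ih.1, ?_, fun a => (h.sc_h _ a s).mul (ih.2.2 a)⟩
    have e := map_pow (MonoidHom.mk' (hv P x (f d)) (h.hm (f d))) s 9
    rw [← ho, pow_orderOf_eq_one, map_one, ho] at e
    rw [Commute.mul_pow (h.T_ab _ (hNg_h _ s) _ ih.1), ih.2.1, mul_one]
    exact e.symm

omit [P.IsRootSystem] [Finite K] in
theorem bYq_cj (h : Chv x b) (k : Act P x m τ) (s : Kˣ) (f : ι → ι) (L : List ι) :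
    m * (L.map fun d => hv P x (f d) s).prod * m⁻¹ =
      (L.map fun d => hv P x (ac P τ (f d)) s).prod := by
  induction L with
  | nil => simp
  | cons d L ih =>
    simp only [List.map_cons, List.prod_cons]
    rw [← ih, ← h.act_h k]
    group

theorem Twd.quad (k : Twd x b ρ φ σ) (h : Chv x b) (hK : Big K) (r : R3 b ρ)
    (hq : 9 ∣ Nat.card {t // φ t = t} - 1)
    (hG : ∀ g, σ g = g → (g ∈ UU x b ∨ g ∈ UM x b) → g ∈ G) (hm : m ∈ NN P x) (e : σ m = m)
    (hc : ∀ d ∈ TT P x, d ∈ G → d ^ 9 = 1 → Commute (d * m * d⁻¹ * m⁻¹) m) : m ∈ TT P x := by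
  obtain ⟨τ, -, hτ⟩ := h.act_ex hm
  have cm := k.cm h hK hτ e
  obtain ⟨s, hs, ho⟩ := yq_s hq
  have hp : ∀ a ∈ b.support, b.IsPos (ac P τ a) := by
    intro a ha
    obtain ⟨L, l, hL⟩ := r.cov a ha
    refine oo_fix k.bas cm l (oo_quad r.sym cm l fun c => ?_) a hL
    have k0 := bYq_key h ho (fun d => d) L
    have k1 := bYq_key h ho (fun d => ac P τ d) L
    have k2 := bYq_key h ho (fun d => ac P τ (ac P τ d)) L
    have j0 := bYq_cj h hτ s (fun d => d) L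
    have j1 := bYq_cj h hτ s (fun d => ac P τ d) L
    have c1 := hc _ k0.1 (k.tr h l.ol hG hs) k0.2.1
    have t0 := k0.2.2 c
    have t1 := k1.2.2 c
    have t2 := k2.2.2 c
    clear k0 k1 k2
    generalize (L.map fun d => hv P x d s).prod = d0 at *
    generalize (L.map fun d => hv P x (ac P τ d) s).prod = d1 at *
    generalize (L.map fun d => hv P x (ac P τ (ac P τ d)) s).prod = d2 at *
    have e1 : d0 * m * d0⁻¹ * m⁻¹ = d0 * d1 ^ (-1 : ℤ) := by
      rw [← j0]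
      group
    have e2 : d1 * d2 ^ (-1 : ℤ) = d0 * d1 ^ (-1 : ℤ) := by
      rw [e1] at c1
      calc _ = m * (d0 * d1 ^ (-1 : ℤ)) * m⁻¹ := by
            rw [← j1, ← j0]
            group
        _ = _ := by rw [← c1.eq, mul_inv_cancel_right]
    have s1 := t1.mul (t2.zpow (-1))
    have s2 := t0.mul (t1.zpow (-1))
    rw [e2] at s1
    have e3 := h.sc_uq s1 s2
    rw [← zpow_mul, ← zpow_mul, ← zpow_add, ← zpow_add, zpow_eq_zpow_iff_modEq, ho] at e3
    have e4 := Int.ModEq.dvd e3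
    convert e4 using 1
    · rfl
    · ring
  refine h.del hm (fun c hc u => ?_) hK
  have e : x c u ∈ UU x b := Subgroup.subset_closure ⟨c, hc, u, rfl⟩
  exact xc_cj hτ (fun c hc => xa_pos hp hc) e

theorem Twd.orb9 (k : Twd x b ρ φ σ) (h : Chv x b) (hK : Big K) (r : R3 b ρ)
    (hq : 9 ∣ Nat.card {t // φ t = t} - 1)
    (hG : ∀ g, σ g = g → (g ∈ UU x b ∨ g ∈ UM x b) → g ∈ G) (hg : g ∈ UU x b) (h1 : g ≠ 1) :
    ∃ t ∈ TT P x, t ∈ G ∧ t ^ 9 = 1 ∧ t ^ 3 * g * (t ^ 3)⁻¹ ≠ g := by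
  obtain ⟨a, ha, hf⟩ := h.up_fix hK up_pos hg h1
  obtain ⟨L, l, hL⟩ := r.sep a ha
  obtain ⟨s, hs, ho⟩ := yq_s hq
  obtain ⟨t1, t2, t3⟩ := bYq_key h ho (fun d => d) L
  refine ⟨_, t1, k.tr h l hG hs, t2, fun e => hL ?_⟩
  have t4 := (t3 a).zpow (3 : ℕ)
  rw [zpow_natCast] at t4
  have t5 := hf _ (pow_mem t1 3) _ t4 e
  rw [← zpow_mul, ← orderOf_dvd_iff_zpow_eq_one, ho] at t5
  omega

end Pool.Agent.Lib.MP_1ae3da_al.JV
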