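import Pool.Agent.Lib.MP_1ae3da_al.B.Yw

/-! The root data of types `D₄` and `E₆` for `p = 3`. -/

namespace Pool.Agent.Lib.MP_1ae3da_al.JV

variable {ι M N : Type} [AddCommGroup M] [Module ℚ M] [AddCommGroup N] [Module ℚ N]
  {P : RootPairing ι ℚ M N} [P.IsCrystallographic] [Finite ι] [P.IsReduced] [P.IsRootSystem]
  {b : P.Base} {ρ τ π : P.Aut} {L : List ι} {a : ι}

/-- the orbit of `i`. -/
def bYr_o (f : Fin 4 → Fin 4) (i : Fin 4) : List (Fin 4) :=
  if f i = i then [i] else if f (f i) = i then [i, f i] else [i, f i, f (f i)]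

theorem bYr_orb : ∀ f : Fin 4 → Fin 4,
    (∀ i j, CartanMatrix.D 4 (f i) (f j) = CartanMatrix.D 4 i j) → ∀ i, i ∈ bYr_o f i ∧
      (bYr_o f i).length ≤ 3 ∧ (bYr_o f i).Pairwise (fun j k => CartanMatrix.D 4 j k = 0) ∧
      ((bYr_o f i).map f).Perm (bYr_o f i) ∧ ∀ j ∈ bYr_o f i, j = i ∨ j = f i ∨ j = f (f i) := by
  decide +kernel

theorem r3_d4 (h : Ty b (CartanMatrix.D 4)) (hρ : Bas b ρ) : R3 b ρ := by
  have rt := rt_d4 h hρ Nat.prime_five le_rfl
  have wy := wy_gl (k := 4) h Nat.prime_three (by decide)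
  obtain ⟨e, he⟩ := h
  have he : ∀ i j, P.pairingIn ℤ (e i : ι) (e j) = CartanMatrix.D 4 i j := he
  obtain ⟨f, hf⟩ : ∃ f : Fin 4 → Fin 4, ∀ i, ac P ρ (e i) = e (f i) :=
    ⟨fun i => e.symm ⟨_, hρ _ (e i).2⟩, fun i => by rw [e.apply_symm_apply]⟩
  have ff : ∀ i j, CartanMatrix.D 4 (f i) (f j) = CartanMatrix.D 4 i j := fun i j => by
    rw [← he, ← he, ← hf, ← hf]
    apply Int.cast_injective (α := ℚ)
    simpa [← P.algebraMap_pairingIn ℤ] using hRl_pr ρ (e i : ι) (e j)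
  obtain ⟨f1, f2⟩ := xs_aut f ff
  have o1 : OL b ρ [e 1] := ⟨by simp, by simp, by simp [hf, f1]⟩
  have o2 : OL b ρ [e 0, e 2, e 3] := ⟨by simp, by simp [he]; decide, by
    simpa [hf] using f2.map fun i => (e i : ι)⟩
  have sy : ∀ a ∈ b.support, ∀ d ∈ b.support, P.pairingIn ℤ a d = P.pairingIn ℤ d a := by
    intro a ha d hd
    have := he (e.symm ⟨a, ha⟩) (e.symm ⟨d, hd⟩)
    have := he (e.symm ⟨d, hd⟩) (e.symm ⟨a, ha⟩)
    have := (by decide : ∀ i j, CartanMatrix.D 4 i j = CartanMatrix.D 4 j i)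
      (e.symm ⟨a, ha⟩) (e.symm ⟨d, hd⟩)
    simp only [Equiv.apply_symm_apply] at *
    omega
  refine ⟨rt, xs_sym sy, fun a ha => ?_, fun c hc => ?_, fun G hG _ _ k => ?_⟩
  · obtain ⟨i, hi⟩ := e.surjective ⟨a, ha⟩
    obtain rfl : (e i : ι) = a := congrArg Subtype.val hi
    obtain ⟨m1, m2, m3, m4, m5⟩ := bYr_orb f ff i
    refine ⟨(bYr_o f i).map fun j => (e j : ι), ⟨⟨fun d hd => ?_, ?_, ?_⟩, by rwa [List.length_map],
      fun q hq d hd d' hd' => ?_⟩, List.mem_map.2 ⟨i, m1, rfl⟩⟩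
    · obtain ⟨j, -, rfl⟩ := List.mem_map.1 hd
      exact (e j).2
    · exact List.pairwise_map.2 (m3.imp fun k => (he _ _).trans k)
    · have := m4.map fun j => (e j : ι)
      rw [List.map_map] at this ⊢
      convert this using 2
      exact funext hf
    · have z : ∀ d ∈ (bYr_o f i).map fun j => (e j : ι), q d ↔ q (e i) := by
        intro d hd
        obtain ⟨j, hj, rfl⟩ := List.mem_map.1 hd
        rcases m5 j hj with rfl | rfl | rfl
        exacts [Iff.rfl, by rw [← hf, hq], by rw [← hf, hq, ← hf, hq]]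
      exact fun k => (z d' hd').2 ((z d hd).1 k)
  · by_contra! k
    have k1 := k _ o1
    have k2 := k _ o2
    simp only [List.map_cons, List.map_nil, List.sum_cons, List.sum_nil] at k1 k2
    have ht := xs_ht e ![3, 5, 3, 3] (by simp only [he]; decide) hc
    have mm : ∀ c d, P.pairingIn ℤ c d ∈ ({-2, -1, 0, 1, 2} : Set ℤ) := fun c d => by
      have := P.pairingIn_pairingIn_mem_set_of_isCrystal_of_isRed c d
      rw [xs_sym sy d c] at this
      simp only [Set.mem_insert_iff, Set.mem_singleton_iff, Prod.mk.injEq] at this ⊢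
      omega
    have m1 := mm c (e 1)
    have m2 := mm (P.reflectionPerm (e 0) (P.reflectionPerm (e 2) (P.reflectionPerm (e 3) c))) (e 1)
    have v : CartanMatrix.D 4 0 1 = -1 ∧ CartanMatrix.D 4 2 1 = -1 ∧ CartanMatrix.D 4 3 1 = -1 ∧
        CartanMatrix.D 4 2 0 = 0 ∧ CartanMatrix.D 4 3 0 = 0 ∧ CartanMatrix.D 4 3 2 = 0 := by decide
    simp only [hCt_pr, he, v, Set.mem_insert_iff, Set.mem_singleton_iff] at m1 m2
    rw [b.isPos_iff] at hc
    simp [Fin.sum_univ_four] at ht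
    omega
  · have := wy_fin (P := P)
    exact absurd (wy (k.trans (Subgroup.card_dvd_of_le hG))) (by decide)

theorem r3_e6 (h : Ty b CartanMatrix.E₆) (hρ : Bas b ρ) (h1 : ρ ≠ 1) : R3 b ρ := by
  obtain ⟨a, e, ha, fl⟩ := xe_flip h hρ h1
  have m := e.mem
  have f0 : ac P ρ (a 0) = a 4 := fl 0 (by omega)
  have f1 : ac P ρ (a 1) = a 3 := fl 1 (by omega)
  have f2 : ac P ρ (a 2) = a 2 := fl 2 (by omega)
  have f3 : ac P ρ (a 3) = a 1 := fl 3 (by omega)
  have f4 : ac P ρ (a 4) = a 0 := fl 4 (by omega)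
  have f5 : ac P ρ (a 5) = a 5 := fl 5 (by omega)
  have two : ∀ i j, i < 6 → j < 6 → eC 6 i j = 0 → ac P ρ (a i) = a j → ac P ρ (a j) = a i →
      OO b ρ [a i, a j] := fun i j hi hj z q1 q2 =>
    ⟨⟨by simp [m i hi, m j hj], by simp [ha i j hi hj, z], by
      simp only [List.map_cons, List.map_nil, q1, q2]
      exact List.Perm.swap _ _ _⟩, by simp, fun q hq => by
      have := hq (a i)
      rw [q1] at this
      simp only [List.mem_cons, List.not_mem_nil, or_false, forall_eq_or_imp, forall_eq]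
      tauto⟩
  have one : ∀ i, i < 6 → ac P ρ (a i) = a i → OO b ρ [a i] := fun i hi q =>
    ⟨⟨by simp [m i hi], by simp, by simp only [List.map_cons, List.map_nil, q]; rfl⟩, by simp,
      by simp⟩
  have o0 := two 0 4 (by omega) (by omega) (by decide) f0 f4
  have o1 := two 1 3 (by omega) (by omega) (by decide) f1 f3
  have o2 := one 2 (by omega) f2
  have o5 := one 5 (by omega) f5
  have sy : ∀ c ∈ b.support, ∀ d ∈ b.support, P.pairingIn ℤ c d = P.pairingIn ℤ d c := by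
    intro c hc d hd
    obtain ⟨i, hi, rfl⟩ := e.sur c hc
    obtain ⟨j, hj, rfl⟩ := e.sur d hd
    rw [ha i j hi hj, ha j i hj hi]
    exact (by decide : ∀ i < 6, ∀ j < 6, eC 6 i j = eC 6 j i) i hi j hj
  have cv : ∀ c ∈ b.support, ∃ L, OO b ρ L ∧ c ∈ L ∧
      (L.map fun d => P.pairingIn ℤ c d).sum = 2 := by
    intro c hc
    obtain ⟨i, hi, rfl⟩ := e.sur c hc
    have z04 := ha 0 4 (by omega) (by omega)
    have z40 := ha 4 0 (by omega) (by omega)
    have z13 := ha 1 3 (by omega) (by omega)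
    have z31 := ha 3 1 (by omega) (by omega)
    interval_cases i
    exacts [⟨_, o0, by simp, by simp [z04, eC]⟩, ⟨_, o1, by simp, by simp [z13, eC]⟩,
      ⟨_, o2, by simp, by simp⟩, ⟨_, o1, by simp, by simp [z31, eC]⟩,
      ⟨_, o0, by simp, by simp [z40, eC]⟩, ⟨_, o5, by simp, by simp⟩]
  have cov : ∀ c ∈ b.support, ∃ L, OO b ρ L ∧ c ∈ L :=
    fun c hc => (cv c hc).imp fun L k => ⟨k.1, k.2.1⟩
  refine ⟨rt_e6 h hρ h1 Nat.prime_five le_rfl, xs_sym sy, cov, fun c hc => ?_,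
    yw_e6 h hρ h1 cov⟩
  by_cases hs : c ∈ b.support
  · obtain ⟨L, k, -, k2⟩ := cv c hs
    exact ⟨L, k.ol, by rw [k2]; decide⟩
  have ab : ∀ i, i < 6 → |P.pairingIn ℤ c (a i)| ≤ 1 := fun i hi =>
    xs_abs sy hc (b.isPos_of_mem_support (m i hi)) fun k => hs (k ▸ m i hi)
  let E : Fin 6 ≃ b.support := Equiv.ofBijective (fun i => ⟨a i, m i i.2⟩)
    ⟨fun i j q => Fin.ext (e.inj _ _ i.2 j.2 (congrArg Subtype.val q)), fun c => by
      obtain ⟨i, hi, q⟩ := e.sur c c.2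
      exact ⟨⟨i, hi⟩, Subtype.ext q⟩⟩
  have ht := xs_ht E ![8, 15, 21, 15, 8, 11] (fun j => by
    have : ∀ k : Fin 6, P.pairingIn ℤ (E j : ι) (E k) = eC 6 j k := fun k => ha j k j.2 k.2
    simp only [this]
    clear this
    revert j
    decide) hc
  rw [Fin.sum_univ_six] at ht
  change 8 * P.pairingIn ℤ c (a 0) + 15 * P.pairingIn ℤ c (a 1) + 21 * P.pairingIn ℤ c (a 2) +
    15 * P.pairingIn ℤ c (a 3) + 8 * P.pairingIn ℤ c (a 4) + 11 * P.pairingIn ℤ c (a 5) = _ at ht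
  by_contra! k
  have k0 := k _ o0.ol
  have k1 := k _ o1.ol
  have k2 := k _ o2.ol
  have k5 := k _ o5.ol
  have a0 := abs_le.1 (ab 0 (by omega))
  have a1 := abs_le.1 (ab 1 (by omega))
  have a2 := abs_le.1 (ab 2 (by omega))
  have a3 := abs_le.1 (ab 3 (by omega))
  have a4 := abs_le.1 (ab 4 (by omega))
  have a5 := abs_le.1 (ab 5 (by omega))
  rw [b.isPos_iff] at hc
  simp only [List.map_cons, List.map_nil, List.sum_cons, List.sum_nil] at k0 k1 k2 k5
  omega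

end Pool.Agent.Lib.MP_1ae3da_al.JV
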