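import Pool.Agent.Lib.MP_1ae3da_al.B.Ya

/-! The Tits system of the fixed points. -/

namespace Pool.Agent.Lib.MP_1ae3da_al.JV

variable {ι M N K X : Type} [AddCommGroup M] [Module ℚ M] [AddCommGroup N] [Module ℚ N]
  {P : RootPairing ι ℚ M N} [Field K] [Group X] {x : ι → K → X} [P.IsCrystallographic]
  [Finite ι] [P.IsReduced] [P.IsRootSystem] [Finite K] {b : P.Base} {a c : ι} {g m u : X}
  {ρ τ : P.Aut} {φ : K →+* K} {σ : MulAut X} {L : List ι} {G : Subgroup X}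

theorem bYt_del (h : Chv x b) (hK : Big K) (hg : g ∈ NN P x) (hτ : Act P x g τ)
    (hs : ∀ a ∈ b.support, b.IsPos (ac P τ a)) : g ∈ TT P x := by
  refine h.del hg (fun c hc u => ?_) hK
  have e : x c u ∈ UU x b := Subgroup.subset_closure ⟨c, hc, u, rfl⟩
  exact xc_cj hτ (fun c hc => xa_pos hs hc) e

theorem bYt_st (h : Chv x b) (l : OL b ρ L) (hm : m ∈ NN P x) (hu : u ∈ UU x b) (L' : List ι)
    (hL : ∀ d ∈ L', d ∈ L) : ∃ v ∈ UU x b, ∃ n ∈ NN P x, ∃ π, ∃ w ∈ UU x b, Act P x n π ∧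
      QL b L π ∧ (L'.map fun d => wv P x d 1).prod * u * m = v * (n * m) * w := by
  induction L' with
  | nil => exact ⟨u, hu, 1, one_mem _, 1, 1, one_mem _, act_one, ql_one b L, by simp⟩
  | cons d L' ih =>
    obtain ⟨v, hv, n, hn, π, w, hw, h1, q, e⟩ := ih fun c hc => hL c (List.mem_cons_of_mem _ hc)
    have hd := hL d List.mem_cons_self
    have e0 : ((d :: L').map fun d => wv P x d 1).prod * u * m =
        wv P x d 1 * v * (n * m) * w := by
      rw [List.map_cons, List.prod_cons, mul_assoc (wv P x d 1), mul_assoc (wv P x d 1), e]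
      group
    obtain ⟨v', hv', t, ht, w', hw', k | k⟩ := h.tits (l.mem d hd) _ (mul_mem hn hm) v hv
    · refine ⟨v', hv', t * (wv P x d 1 * n), mul_mem (T_le ht) (mul_mem (hDl_wN d 1) hn), _,
        w' * w, mul_mem hw' hw, (h.act_T ht).mul ((h.act_w d 1).mul h1), ?_, ?_⟩
      · rw [one_mul]
        exact q.rf l hd
      · rw [e0, k]
        group
    · refine ⟨v', hv', t * n, mul_mem (T_le ht) hn, _, w' * w, mul_mem hw' hw,
        (h.act_T ht).mul h1, ?_, ?_⟩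
      · rwa [one_mul]
      · rw [e0, k]
        group

theorem Twd.wl (k : Twd x b ρ φ σ) (h : Chv x b) (l : OL b ρ L)
    (hG : ∀ g, σ g = g → (g ∈ UU x b ∨ g ∈ UM x b) → g ∈ G) :
    (L.map fun d => wv P x d 1).prod ∈ G ∧ (L.map fun d => wv P x d 1).prod ∈ NN P x := by
  refine ⟨?_, hDl_pN L⟩
  have c := xc_cm h l
  have g1 : ∀ t, φ t = t → (L.map fun d => x d t).prod ∈ G := fun t ht => hG _ (k.fx h l ht).1
    (.inl (xc_vs (f := id) (fun d hd => b.isPos_of_mem_support (l.mem d hd)) t))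
  have g2 : ∀ t, φ t = t → (L.map fun d => x (ng P d) t).prod ∈ G := fun t ht =>
    hG _ (k.fx h l ht).2 (.inr (xc_vs (f := ng P) (S := {a | ¬ b.IsPos a})
      (fun d hd => xa_ng (b.isPos_of_mem_support (l.mem d hd))) t))
  unfold wv
  rw [xc_mul (c.imp fun k => (k _ _ (.inl rfl) (.inl rfl) _ _).mul_right
    (k _ _ (.inl rfl) (.inr rfl) _ _)), xc_mul (c.imp fun k => k _ _ (.inr rfl) (.inl rfl) _ _)]
  refine mul_mem (mul_mem (g1 _ ?_) (g2 _ ?_)) (g1 _ ?_) <;> simp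

theorem Chv.wl_sq (h : Chv x b) (hK : Big K) (l : OL b ρ L) :
    (L.map fun d => wv P x d 1).prod * (L.map fun d => wv P x d 1).prod ∈ TT P x ∧
      (L ≠ [] → (L.map fun d => wv P x d 1).prod ∉ TT P x) := by
  obtain ⟨q, e⟩ := ol_s l
  have ha := hDl_act h L
  refine ⟨bYt_del h hK (mul_mem (hDl_pN L) (hDl_pN L)) (ha.mul ha) fun a hb => ?_,
    fun hL ht => ?_⟩
  · have pa := b.isPos_of_mem_support hb
    rw [hRl_mul]
    by_cases k : a ∈ L
    · rwa [e a k, ac_ng, e a k, hTi_ng_ng]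
    · exact (q.ps _ (q.ps a pa k).1 (q.ps a pa k).2).1
  · obtain ⟨d, hd⟩ := List.exists_mem_of_ne_nil L hL
    have e1 := e d hd
    rw [h.act_uq hK ha (h.act_T ht), hRl_one] at e1
    have pd := b.isPos_of_mem_support (l.mem d hd)
    exact xa_ng pd (e1 ▸ pd)

theorem Twd.tits (k : Twd x b ρ φ σ) (h : Chv x b) (hK : Big K)
    (uq : ∀ m ∈ NN P x, ∀ m' ∈ NN P x, ∀ u ∈ UU x b, ∀ v ∈ UU x b, u * m * v = m' → m = m')
    (l : OO b ρ L) (hm : m ∈ NN P x) (hu : u ∈ UU x b) (e1 : σ m = m) (e2 : σ u = u) :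
    ∃ v ∈ UU x b, ∃ t ∈ TT P x, ∃ w ∈ UU x b, σ v = v ∧ σ w = w ∧
      ((L.map fun d => wv P x d 1).prod * u * m =
          v * (t * ((L.map fun d => wv P x d 1).prod * m)) * w ∨
        (L.map fun d => wv P x d 1).prod * u * m = v * (t * m) * w) := by
  obtain ⟨v, hv, m1, h1, π, w, hw, hπ, q, e⟩ := bYt_st h l.ol hm hu L fun _ hd => hd
  have fx : σ (L.map fun d => wv P x d 1).prod = (L.map fun d => wv P x d 1).prod :=
    (k.wl (G := σ.toMonoidHom.eqLocus (MonoidHom.id X)) h l.ol fun _ e _ => e).1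
  have sq := (h.wl_sq hK l.ol).1
  have ha := hDl_act h L
  have hn := hDl_pN (P := P) (x := x) L
  obtain ⟨qs, es⟩ := ol_s l.ol
  generalize (L.map fun d => wv P x d 1).prod = n at *
  have fg : σ (n * u * m) = n * u * m := by rw [map_mul, map_mul, fx, e1, e2]
  obtain ⟨v', hv', m', hm', w', hw', f1, f2, e'⟩ := k.bru h hK uq fg
  have em : m1 * m = m' := by
    refine uq _ (mul_mem h1 hm) _ hm' (v'⁻¹ * v) (mul_mem (inv_mem hv') hv) (w * w'⁻¹)
      (mul_mem hw (inv_mem hw')) ?_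
    calc v'⁻¹ * v * (m1 * m) * (w * w'⁻¹) = v'⁻¹ * (v * (m1 * m) * w) * w'⁻¹ := by group
      _ = m' := by rw [← e, e']; group
  subst em
  have f3 : σ m1 = m1 := by
    rw [e', map_mul, map_mul, map_mul, f1, f2, e1] at fg
    exact mul_right_cancel (mul_left_cancel (mul_right_cancel fg))
  rcases oo_sign k.bas (k.cm h hK hπ f3) l with s | s
  · refine ⟨v', hv', m1, bYt_del h hK h1 hπ fun a hb => ?_, w', hw', f1, f2, .inr e'⟩
    by_cases c : a ∈ L
    · exact s a c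
    · exact (q.ps a (b.isPos_of_mem_support hb) c).1
  · have t1 : m1 * n ∈ TT P x := by
      refine bYt_del h hK (mul_mem h1 hn) (hπ.mul ha) fun a hb => ?_
      have pa := b.isPos_of_mem_support hb
      rw [hRl_mul]
      by_cases c : a ∈ L
      · rw [es a c, ac_ng]
        exact hTi_pos (s a c)
      · exact (q.ps _ (qs.ps a pa c).1 (qs.ps a pa c).2).1
    refine ⟨v', hv', _, mul_mem t1 (inv_mem sq), w', hw', f1, f2, .inl ?_⟩
    rw [e']
    group

theorem Twd.gen (k : Twd x b ρ φ σ) (h : Chv x b) (hK : Big K) {Lf : ι → List ι}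
    (hL : ∀ a ∈ b.support, OO b ρ (Lf a) ∧ a ∈ Lf a)
    (hG : ∀ g, σ g = g → (g ∈ UU x b ∨ g ∈ UM x b) → g ∈ G) (fx : ∀ g ∈ G, σ g = g)
    (Q : X → Prop) (h0 : ∀ t ∈ TT P x, t ∈ G → Q t)
    (h1 : ∀ a ∈ b.support, ∀ g ∈ G, Q g → Q (((Lf a).map fun d => wv P x d 1).prod * g)) :
    ∀ g ∈ NN P x, g ∈ G → Q g := by
  intro g hg hgG
  obtain ⟨τ, -, hτ⟩ := h.act_ex hg
  induction hn : {c | b.IsPos c ∧ ¬ b.IsPos (ac P τ⁻¹ c)}.ncard using Nat.strong_induction_on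
    generalizing g τ with
  | _ j ih =>
    by_cases hs : ∀ a ∈ b.support, b.IsPos (ac P τ⁻¹ a)
    · exact h0 g (inv_mem_iff.1 (bYt_del h hK (inv_mem hg) hτ.inv hs)) hgG
    push Not at hs
    obtain ⟨a, ha, na⟩ := hs
    obtain ⟨l, hl⟩ := hL a ha
    have s := (oo_sign k.bas (k.cm h hK hτ.inv (by rw [map_inv, fx g hgG])) l).resolve_left
      fun s => na (s a hl)
    obtain ⟨w1, w2⟩ := k.wl h l.ol hG
    have ac1 := hDl_act h (Lf a)
    obtain ⟨q, es⟩ := ol_s l.ol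
    have st := h1 a ha _ (mul_mem (inv_mem w1) hgG)
    rw [mul_inv_cancel_left] at st
    refine st (ih _ ?_ _ (mul_mem (inv_mem w2) hg) (mul_mem (inv_mem w1) hgG) _
      (ac1.inv.mul hτ) rfl)
    generalize ((Lf a).map fun a => RootPairing.Equiv.reflection P a).prod = S at q es ⊢
    have ma : a ∈ {c | b.IsPos c ∧ ¬ b.IsPos (ac P τ⁻¹ c)} := ⟨b.isPos_of_mem_support ha, na⟩
    rw [← hn]
    refine lt_of_le_of_lt (Set.ncard_le_ncard_of_injOn (ac P S) ?_
      (RootPairing.Equiv.indexHom P S).injective.injOn) (Set.ncard_sdiff_singleton_lt_of_mem ma)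
    rintro c ⟨c1, c2⟩
    rw [mul_inv_rev, inv_inv, hRl_mul] at c2
    have nc : c ∉ Lf a := fun hc => c2 (by
      rw [es c hc, ac_ng]
      exact hTi_pos (s c hc))
    exact ⟨⟨(q.ps c c1 nc).1, c2⟩, fun e => (q.ps c c1 nc).2 (Set.mem_singleton_iff.1 e ▸ hl)⟩

end Pool.Agent.Lib.MP_1ae3da_al.JV
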