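import Pool.Agent.Lib.MP_1ae3da_al.B.Ya
import Pool.Agent.Lib.MP_1ae3da_al.B.Mi
import Pool.Agent.Lib.MP_1ae3da_al.H.Xe

/-! The centraliser of a symmetry acts faithfully on the fixed lattice. -/

namespace Pool.Agent.Lib.MP_1ae3da_al.JV

variable {ι M N : Type} [AddCommGroup M] [Module ℚ M] [AddCommGroup N] [Module ℚ N]
  {P : RootPairing ι ℚ M N} [P.IsCrystallographic] [Finite ι] [P.IsReduced] [P.IsRootSystem]
  {b : P.Base} {ρ τ π : P.Aut} {L : List ι} {a : ι}

/-- the fixed lattice. -/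
def bYw_V (ρ : P.Aut) : Submodule ℤ (P.rootSpan ℤ) where
  carrier := {y | ρ • y.1 = y.1}
  zero_mem' := smul_zero ρ
  add_mem' := fun {y z} h1 h2 => (smul_add ρ y.1 z.1).trans (congrArg₂ _ h1 h2)
  smul_mem' := fun c y h => (map_zsmul (DistribSMul.toAddMonoidHom M ρ) c y.1).trans
    (congrArg (c • ·) h)

omit [P.IsCrystallographic] [Finite ι] [P.IsReduced] [P.IsRootSystem] in
theorem bYw_sum (τ : P.Aut) (L : List ι) :
    τ • (L.map fun d => P.root d).sum = (L.map fun d => P.root (ac P τ d)).sum := by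
  rw [List.smul_sum, List.map_map]
  exact congrArg _ (List.map_congr_left fun d _ => (hRl_root τ d).symm)

theorem yw_e6 (h : Ty b CartanMatrix.E₆) (hρ : Bas b ρ) (h1 : ρ ≠ 1)
    (cov : ∀ a ∈ b.support, ∃ L, OO b ρ L ∧ a ∈ L) (G : Subgroup P.Aut) (hG : G ≤ P.weylGroup)
    (cm : ∀ τ ∈ G, τ * ρ = ρ * τ)
    (fa : ∀ τ ∈ G, (∀ a ∈ b.support, b.IsPos (ac P τ a)) → τ = 1) : ¬ 3 ^ 4 ∣ Nat.card G := by
  intro hd
  obtain ⟨a, en, -⟩ := xe_flip h hρ h1
  obtain ⟨e, -⟩ := h
  have := wy_fin (P := P)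
  have : Finite G := Finite.of_injective _ (Subgroup.inclusion_injective hG)
  let B := b.toWeightBasisInt.reindex e.symm
  have := Module.Finite.of_basis B
  have := Module.Free.of_basis B
  have r6 : Module.finrank ℤ (P.rootSpan ℤ) = 6 := by
    rw [Module.finrank_eq_card_basis B, Fintype.card_fin]
  have r5 : Module.finrank ℤ (bYw_V ρ) ≤ 5 := by
    have e1 := (bYw_V ρ).finrank_quotient_add_finrank
    by_contra hn
    have e2 : Module.finrank ℤ (P.rootSpan ℤ ⧸ bYw_V ρ) = 0 := by omega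
    refine h1 (dg_sym en fun i _ => ?_)
    obtain ⟨n, n0, hn⟩ := Module.finrank_eq_zero_iff.1 e2
      (Submodule.Quotient.mk (P.rootSpanMem ℤ (a i)))
    rw [← Submodule.Quotient.mk_smul, Submodule.Quotient.mk_eq_zero] at hn
    have e3 : n • ρ • P.root (a i) = n • P.root (a i) :=
      (map_zsmul (DistribSMul.toAddMonoidHom M ρ) n _).symm.trans hn
    rw [← Int.cast_smul_eq_zsmul ℚ, ← Int.cast_smul_eq_zsmul ℚ, ← hRl_root] at e3
    exact P.root.injective (smul_right_injective M (Int.cast_ne_zero.2 n0) e3)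
  have st : ∀ g : G, ∀ y ∈ bYw_V ρ, bMi_act P (Subgroup.inclusion hG g) y ∈ bYw_V ρ :=
    fun g y hy => by
      change ρ • (g : P.Aut) • y.1 = (g : P.Aut) • y.1
      rw [← mul_smul, ← cm g g.2, mul_smul, show ρ • y.1 = y.1 from hy]
  let ψ : G →* Module.End ℤ (bYw_V ρ) :=
    { toFun := fun g => (bMi_act P (Subgroup.inclusion hG g)).restrict (st g)
      map_one' := LinearMap.ext fun y => Subtype.ext (Subtype.ext (one_smul _ y.1.1))
      map_mul' := fun g g' => LinearMap.ext fun y =>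
        Subtype.ext (Subtype.ext (mul_smul (g : P.Aut) (g' : P.Aut) y.1.1)) }
  have inj : Function.Injective ψ := by
    rw [injective_iff_map_eq_one]
    intro g hg
    refine Subtype.ext (fa g g.2 fun c hc => ?_)
    obtain ⟨L, l, hL⟩ := cov c hc
    have m1 : (L.map fun d => P.root d).sum ∈ P.rootSpan ℤ := list_sum_mem fun y hy => by
      obtain ⟨d, -, rfl⟩ := List.mem_map.1 hy
      exact Submodule.subset_span ⟨d, rfl⟩
    have m2 : (⟨_, m1⟩ : P.rootSpan ℤ) ∈ bYw_V ρ := by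
      refine (bYw_sum ρ L).trans (Eq.trans ?_ (l.ol.perm.map fun d => P.root d).sum_eq)
      rw [List.map_map]
      rfl
    refine oo_fix hρ (cm g g.2) l ?_ c hL
    rw [← bYw_sum]
    exact congrArg (fun y : bYw_V ρ => y.1.1) (LinearMap.congr_fun hg ⟨_, m2⟩)
  let φ := LinearMap.toMatrixAlgEquiv (Module.finBasis ℤ (bYw_V ρ))
  let σ : G →* Matrix (Fin (Module.finrank ℤ (bYw_V ρ))) (Fin (Module.finrank ℤ (bYw_V ρ))) ℤ :=
    (φ : _ →* _).comp ψ
  have k := mi_gl Nat.prime_three (by decide) σ.toHomUnits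
    (fun g g' e => inj (φ.injective (congrArg Units.val e))) hd
  clear_value σ φ
  clear σ φ
  generalize Module.finrank ℤ (bYw_V ρ) = m at k r5
  interval_cases m <;> revert k <;> decide

end Pool.Agent.Lib.MP_1ae3da_al.JV
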