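import Pool.Agent.Lib.MP_1ae3da_al.B.Yx
import Pool.Agent.Lib.MP_1ae3da_al.B.Yr
import Pool.Agent.Lib.MP_1ae3da_al.B.Yt
import Pool.Agent.Lib.MP_1ae3da_al.B.Yq
import Pool.Agent.Lib.MP_1ae3da_al.B.Tw
import Pool.Agent.Lib.MP_1ae3da_al.B.Cv
import Pool.Agent.Lib.MP_1ae3da_al.H.Xy

/-! The inductive condition for the groups of fixed points. -/

namespace Pool.Agent.Lib.MP_1ae3da_al.JV

open SLI JM

section
variable {ι M N K X Y : Type} [AddCommGroup M] [Module ℚ M] [AddCommGroup N] [Module ℚ N]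
  {P : RootPairing ι ℚ M N} [Field K] [Group X] [Group Y] {x : ι → K → Y} [P.IsCrystallographic]
  [Finite ι] [P.IsReduced] [P.IsRootSystem] [Finite K] [Finite X] [Finite Y] {b : P.Base}
  {ρ : P.Aut} {φ : K →+* K} {σ : MulAut Y} {f : X →* Y} {r : ℕ}

omit [Finite X] in
theorem bYz_nine {T C : Subgroup X} (ab : ∀ s ∈ T, ∀ t ∈ T, s * t = t * s) {t : X} (ht : t ∈ T)
    (h9 : t ^ 9 = 1) (h3 : t ^ 3 ∉ C) : 3 ^ 2 ∣ C.relIndex T := by
  have : (C.subgroupOf T).Normal := by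
    refine ⟨fun n hn m => ?_⟩
    have e : m * n * m⁻¹ = n := by
      rw [mul_inv_eq_iff_eq_mul]
      exact Subtype.ext (ab _ m.2 _ n.2)
    rwa [e]
  have := Fact.mk Nat.prime_three
  have e : orderOf (QuotientGroup.mk' (C.subgroupOf T) ⟨t, ht⟩) = 3 ^ (1 + 1) := by
    refine orderOf_eq_prime_pow (fun c => h3 ?_) ?_
    · rw [← map_pow, QuotientGroup.mk'_apply, QuotientGroup.eq_one_iff] at c
      exact c
    · rw [← map_pow, show (⟨t, ht⟩ : T) ^ 3 ^ (1 + 1) = 1 from Subtype.ext h9, map_one]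
  exact (show 3 ^ 2 = _ from e.symm) ▸ orderOf_dvd_natCard _

theorem yz_ind (k : Twd x b ρ φ σ) (h : Chv x b) (R : R3 b ρ) [Fact r.Prime] [CharP K r]
    (hq : 9 ∣ Nat.card {t // φ t = t} - 1) (hf : Function.Injective f)
    (fx : ∀ g, σ (f g) = f g) (hG : ∀ g, σ g = g → (g ∈ UU x b ∨ g ∈ UM x b) → g ∈ f.range) :
    (∃ S : Sylow 3 X, (S : Subgroup X) ≤ (NN P x).comap f) ∧ ∀ S : Sylow 3 X,
      (S : Subgroup X) ≤ (NN P x).comap f → NSV.IndN 3 X S ((NN P x).comap f) := by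
  have := Fact.mk Nat.prime_three
  obtain ⟨s, -, hs⟩ := yq_s hq
  have qK : 9 ∣ Nat.card K - 1 := by
    rw [← Nat.card_units, ← hs]
    exact orderOf_dvd_natCard s
  have q3 : 3 ∣ Nat.card K - 1 := Dvd.dvd.trans (by norm_num) qK
  have hK : Big K := big3 Nat.prime_three (by norm_num) q3 fun _ => qK
  obtain ⟨U0, hU0⟩ := h.syl hK r
  have bv := h.bv3 hU0 Nat.prime_three (by norm_num) q3 fun _ => qK
  have uq : ∀ m ∈ NN P x, ∀ m' ∈ NN P x, ∀ u ∈ UU x b, ∀ v ∈ UU x b, u * m * v = m' → m = m' :=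
    fun m hm m' hm' u hu v hv e =>
      bv.dc hm hm' (by rwa [← hU0] at hu) (by rwa [← hU0] at hv) e
  have bru : ∀ g : X, ∃ u ∈ (UU x b).comap f, ∃ n ∈ (NN P x).comap f, ∃ v ∈ (UU x b).comap f,
      g = u * n * v := fun g => by
    obtain ⟨u, hu, m, hm, v, hv, e1, e2, e⟩ := k.bru h hK uq (fx g)
    obtain ⟨u, rfl⟩ := hG u e1 (Or.inl hu)
    obtain ⟨v, rfl⟩ := hG v e2 (Or.inl hv)
    refine ⟨u, hu, u⁻¹ * g * v⁻¹, ?_, v, hv, by group⟩
    rw [Subgroup.mem_comap, map_mul, map_mul, map_inv, map_inv, e]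
    simpa [mul_assoc] using hm
  have tor : (NN P x).comap f ⊓ Subgroup.normalizer ((UU x b).comap f : Set X) =
      (TT P x).comap f := by
    refine le_antisymm (fun n hn => k.tor h hK R.rt hn.1 (fx n) fun u hu e => ?_) fun t ht =>
      ⟨T_le ht, Subgroup.mem_normalizer_iff.2 fun u => ?_⟩
    · obtain ⟨u, rfl⟩ := hG u e (Or.inl hu)
      simpa using (Subgroup.mem_normalizer_iff.1 hn.2 u).1 hu
    · simpa using Subgroup.mem_normalizer_iff.1 (h.T_VS _ ht) (f u)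
  have pU : IsPGroup r ((UU x b).comap f) := (h.up_p up_pos).comap_of_injective f hf
  obtain ⟨Q, hQ⟩ := pU.exists_le_sylow
  have hU : (Q : Subgroup X) = (UU x b).comap f := by
    by_contra hne
    have : Group.IsNilpotent Q := Q.isPGroup'.isNilpotent
    have hlt : ((UU x b).comap f).subgroupOf (Q : Subgroup X) < ⊤ := by
      rw [lt_top_iff_ne_top, Ne, Subgroup.subgroupOf_eq_top]
      exact fun k => hne (le_antisymm k hQ)
    obtain ⟨⟨g, hgQ⟩, hg, hgU⟩ :=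
      SetLike.exists_of_lt (Group.normalizerCondition_of_isNilpotent _ hlt)
    rw [← Subgroup.subgroupOf_normalizer_eq hQ, Subgroup.mem_subgroupOf] at hg
    rw [Subgroup.mem_subgroupOf] at hgU
    change g ∈ _ at hg
    change g ∉ _ at hgU
    obtain ⟨u, hu, n, hn, v, hv, rfl⟩ := bru g
    have e : n = u⁻¹ * (u * n * v) * v⁻¹ := by group
    have hT : n ∈ (TT P x).comap f := by
      rw [← tor]
      refine Subgroup.mem_inf.mpr ⟨hn, ?_⟩
      rw [e]
      exact mul_mem (mul_mem (inv_mem (Subgroup.le_normalizer hu)) hg)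
        (inv_mem (Subgroup.le_normalizer hv))
    have hnQ : n ∈ (Q : Subgroup X) := by
      rw [e]
      exact mul_mem (mul_mem (inv_mem (hQ hu)) hgQ) (inv_mem (hQ hv))
    have c := ((Q.isPGroup'.map f).inf_normalizer_sylow U0).le
      (show f n ∈ _ from ⟨⟨n, hnQ, rfl⟩, by
        have := h.T_VS {a | b.IsPos a} hT
        rwa [show VS x {a | b.IsPos a} = U0 from hU0.symm] at this⟩)
    exact hgU (mul_mem (mul_mem hu (show f n ∈ UU x b from hU0 ▸ c.2)) hv)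
  have eT : Tor Q ((NN P x).comap f) = (TT P x).comap f := by
    rw [← tor, ← hU]
    rfl
  have ab : ∀ s ∈ (TT P x).comap f, ∀ t ∈ (TT P x).comap f, s * t = t * s := fun s hs t ht =>
    hf (by rw [map_mul, map_mul, h.T_ab _ hs _ ht])
  have eU : ∀ u, u ∈ Q ↔ f u ∈ UU x b := fun u => by
    rw [← Subgroup.mem_comap, ← hU]
    rfl
  have ho : ∀ u ∈ Q, u ≠ 1 →
      3 ^ 2 ∣ (Subgroup.centralizer {u}).relIndex (Tor Q ((NN P x).comap f)) := fun u hu h1 => by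
    obtain ⟨t, ht, ⟨t, rfl⟩, e1, e2⟩ := k.orb9 h hK R hq hG ((eU u).1 hu)
      fun e => h1 (hf (e.trans (map_one f).symm))
    rw [eT]
    refine bYz_nine ab ht (hf (by rw [map_pow, e1, map_one])) fun c => e2 ?_
    rw [mul_inv_eq_iff_eq_mul, ← map_pow, ← map_mul, ← map_mul,
      Subgroup.mem_centralizer_iff.1 c u rfl]
  have v : BV 3 Q ((NN P x).comap f) := by
    refine ⟨bv.ne, eT ▸ ab, ?_, fun g => ?_, fun u hu h1 => Dvd.dvd.trans (by norm_num)
      (ho u hu h1), fun m hm hc => ?_⟩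
    · rw [eT]
      refine fun n hn => Subgroup.mem_normalizer_iff.2 fun t => ?_
      simpa using Subgroup.mem_normalizer_iff.1 (h.T_nrm hn) (f t)
    · obtain ⟨u, hu, n, hn, v, hv, e⟩ := bru g
      exact ⟨u, (eU u).2 hu, n, hn, v, (eU v).2 hv, e⟩
    · rw [eT] at hc ⊢
      refine k.quad h hK R hq hG hm (fx m) ?_
      rintro _ hd ⟨d, rfl⟩ e
      simpa using (hc d hd ⟨2, hf (by rw [map_pow, map_one]; exact e)⟩).map f
  have : Nonempty ι := ⟨R.rt.ne.choose⟩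
  obtain ⟨kk, a, en⟩ := en_ex b
  obtain ⟨Lf, hL⟩ : ∃ Lf : ι → List ι, ∀ c ∈ b.support, OO b ρ (Lf c) ∧ c ∈ Lf c := by
    choose! Lf hL using R.cov
    exact ⟨Lf, fun c hc => hL c hc⟩
  obtain ⟨n, hn⟩ : ∃ n : ι → X, ∀ c ∈ b.support, f (n c) = ((Lf c).map fun d => wv P x d 1).prod := by
    choose! n hn using fun c hc => (k.wl h (hL c hc).1.ol hG).1
    exact ⟨n, hn⟩
  have nN : ∀ c ∈ b.support, n c ∈ (NN P x).comap f := fun c hc => by
    rw [Subgroup.mem_comap, hn c hc]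
    exact (k.wl h (hL c hc).1.ol hG).2
  have ts : TS kk Q ((NN P x).comap f) fun i => n (a i) := by
    refine ⟨fun i hi => nN _ (en.mem i hi), fun i hi => ?_, fun i hi => ?_, fun g hg => ?_,
      fun i hi m hm u hu => ?_⟩
    · rw [eT, Subgroup.mem_comap, map_mul, hn _ (en.mem i hi)]
      exact (h.wl_sq hK (hL _ (en.mem i hi)).1.ol).1
    · rw [eT, Subgroup.mem_comap, hn _ (en.mem i hi)]
      exact (h.wl_sq hK (hL _ (en.mem i hi)).1.ol).2 (List.ne_nil_of_mem (hL _ (en.mem i hi)).2)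
    · rw [eT]
      refine k.gen h hK hL hG (by rintro _ ⟨g, rfl⟩; exact fx g) (fun y => ∀ g, f g = y → g ∈ _)
        (fun t ht _ g e => Subgroup.subset_closure (Or.inl (show f g ∈ _ from e ▸ ht))) ?_ _ hg
        ⟨g, rfl⟩ g rfl
      rintro c hc _ ⟨g, rfl⟩ h1 g' e
      rw [← hn c hc, ← map_mul] at e
      obtain ⟨i, hi, rfl⟩ := en.sur c hc
      rw [hf e]
      exact mul_mem (Subgroup.subset_closure (Or.inr ⟨i, hi, rfl⟩)) (h1 g rfl)
    · obtain ⟨v, hv, t, ht, w, hw, e1, e2, e⟩ := k.tits h hK uq (hL _ (en.mem i hi)).1 hm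
        ((eU u).1 hu) (fx m) (fx u)
      obtain ⟨v, rfl⟩ := hG v e1 (Or.inl hv)
      obtain ⟨w, rfl⟩ := hG w e2 (Or.inl hw)
      rw [← hn _ (en.mem i hi)] at e
      rw [eT]
      rcases e with e | e
      · have e3 : f (v⁻¹ * (n (a i) * u * m) * w⁻¹ * (n (a i) * m)⁻¹) = t := by
          simp only [map_mul, map_inv, e]
          group
        exact ⟨v, (eU v).2 hv, _, show f _ ∈ _ from e3 ▸ ht, w, (eU w).2 hw, Or.inl (by group)⟩
      · have e3 : f (v⁻¹ * (n (a i) * u * m) * w⁻¹ * m⁻¹) = t := by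
          simp only [map_mul, map_inv, e]
          group
        exact ⟨v, (eU v).2 hv, _, show f _ ∈ _ from e3 ▸ ht, w, (eU w).2 hw, Or.inr (by group)⟩
  refine TS.two v ts (by norm_num) (fun e => ?_) (by norm_num) ho ?_
  · obtain ⟨u, hu, e1, e2⟩ := k.ne h hK R.rt
    obtain ⟨u, rfl⟩ := hG u e1 (Or.inl hu)
    have : u ∈ (Q : Subgroup X) := (eU u).2 hu
    rw [e, Subgroup.mem_bot] at this
    exact e2 (by rw [this, map_one])
  · obtain ⟨ψ, h1, h2, h3⟩ := h.hom hK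
    let χ : (NN P x).comap f →* P.Aut := ψ.comp (f.subgroupComap (NN P x))
    have e : ((TT P x).comap f).subgroupOf ((NN P x).comap f) = χ.ker :=
      Subgroup.ext fun g => (h3 (f.subgroupComap _ g)).symm
    rw [eT, Subgroup.relIndex, e, Subgroup.index_ker]
    refine R.wy _ ?_ ?_ ?_
    · rintro _ ⟨g, rfl⟩
      exact h2 ▸ ⟨_, rfl⟩
    · rintro _ ⟨g, rfl⟩
      exact k.cm h hK (h1 (f.subgroupComap _ g)) (fx g)
    · rintro _ ⟨g, rfl⟩ hs
      refine (h3 (f.subgroupComap _ g)).2 (h.del g.2 (fun c hc u => ?_) hK)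
      exact xc_cj (S := {c | b.IsPos c}) (h1 (f.subgroupComap _ g)) (fun c hc => xa_pos hs hc)
        (Subgroup.subset_closure ⟨c, hc, u, rfl⟩)

end

theorem Twg.ind {p : ℕ} (hp : p.Prime) (h2 : p ≠ 2) {X : Type} [Group X] [Finite X] (h : Twg p X)
    (R : Sylow p X) : ∃ N, NSV.IndN p X R N := by
  obtain ⟨ι, M, N, K, Y, _, _, _, _, P, _, _, _, _, b, _, _, _, _, x, ρ, φ, σ, f, h, h1, k, hf,
    fx, hG, hq, h3, ht⟩ := h
  by_cases e : p = 3
  swap
  · exact Twi.ind hp ⟨ι, M, N, K, Y, _, _, _, _, P, ‹_›, ‹_›, ‹_›, ‹_›, b, _, ‹_›, _, ‹_›, x, ρ, φ,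
      σ, f, h, h1, k, hf, fx, hG, hp.five_le_of_ne_two_of_ne_three h2 e, hq, ht⟩ R
  subst e
  obtain ⟨r, hr⟩ := CharP.exists K
  have : Fact r.Prime := ⟨CharP.char_is_prime K r⟩
  have := Fact.mk hp
  have R3 : R3 b ρ := ht.elim (fun c => r3_d4 c h1) fun c => r3_e6 c.1 h1 c.2
  obtain ⟨R₀, hR⟩ := (yz_ind (r := r) ⟨h1, k⟩ h R3 (h3 rfl) hf fx hG).1
  obtain ⟨g, hg⟩ := MulAction.exists_smul_eq X R₀ R
  refine ⟨_, (yz_ind (r := r) (f := f.comp (MulAut.conj g).symm.toMonoidHom) ⟨h1, k⟩ h R3 (h3 rfl)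
    (hf.comp (MulAut.conj g).symm.injective) (fun y => fx _) fun y e1 e2 => ?_).2 R ?_⟩
  · obtain ⟨y, rfl⟩ := hG y e1 e2
    exact ⟨MulAut.conj g y, congrArg f ((MulAut.conj g).symm_apply_apply y)⟩
  · rw [← hg]
    rintro _ ⟨y, hy, rfl⟩
    exact (show f _ ∈ NN P x from
      (congrArg f ((MulAut.conj g).symm_apply_apply y)).symm ▸ hR hy)

end Pool.Agent.Lib.MP_1ae3da_al.JV
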